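import Pool.Agent.H38.BB.CDef
import Pool.Agent.H63.MA.ALem
import Pool.Agent.H63.MA.LBd

/-!
# [H38 BB CCHS] uniform upper bound for character sums over primes, 120-180 lines

`chs`: for every `η > 0` there is `C` such that for all finite sets `E` of primes outside `S0`, `μ`, `κ` with `μ w ≠ 0` for some `w ∈ E` or `κ ≠ 0`, and all `1 < s ≤ 2`: `∑_{v good, v ∉ E} Re ep(fE E μ κ v) (nm v)^{-s} ≤ η log (nr E) + C`.

Proof. Let `𝔣 = M0 * idl E` (`≠ 0`; `N 𝔣 = N(M0) nr E`, `idl_norm`). `rayE` (`MA/ALem`): `f v = if v ∈ S0 ∨ v ∈ E then 0 else fE D E μ κ v` is `IsRay p 𝔣`, and not identically `0`. `ray_rc`: a nontrivial ray class character `χ` of modulus `𝔣` with `χ(v) = ep(f v)` for `v ∤ 𝔣`; `χ(v) = 0` for `v ∣ 𝔣` (`RC.zero_of`; `v ∣ 𝔣` iff `v ∈ S0 ∨ v ∈ E`: `alem_dvd'`).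
`pv`: `‖∑_{N I ≤ y} χ(I)‖ ≤ C₁ (N 𝔣)^A y^{1-δ}`, and trivially `≤ #IN K y ≤ C₂ y` (`cnt`, `lbd_rc_norm_le`). For `0 < τ ≤ 1`: `min(u, w) ≤ u^τ w^{1-τ}`, so `‖∑ χ(I)‖ ≤ (C₁ + C₂ + 1) (N 𝔣)^{A τ} y^{1 - δ τ}` (note `(y^{1-δ})^τ y^{1-τ} = y^{1-δτ}`, `N 𝔣 ≥ 1`). Take `τ = min(1, η / (A + 1))`. `lser_bound` (`MA/LBd`) with `C = (C₁ + C₂ + 1) (N 𝔣)^{A τ}` and `δ τ`
in place of `δ`: `‖L(s, χ)‖ ≤ C₃ (N 𝔣)^{A τ} ≤ C₃ (N 𝔣)^η`, `C₃` depending on `η`. `eul_two` (`MA/EulA`): `exp(∑_v Re χ(v) (nm v)^{-s}) ≤ C₄ ‖L(s, χ)‖`. Taking logarithms `∑_v Re χ(v) (nm v)^{-s} ≤ η log (nr E) + C₅`.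
Finally the difference between the sum over all `v` and the sum over the good `v ∉ E`: the terms with `v ∈ S0 ∪ E` are `0` in the first sum, and the `v` which are not of prime norm contribute at most `∑_{v not of prime norm} (nm v)^{-s} ≤ C₆` (`pz_deg`; all series converge absolutely by `pz_summable`).
-/

set_option autoImplicit false

open scoped NumberField
open IsDedekindDomain
open scoped Classical

noncomputable section

namespace H38.BB

open H63.MA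

variable {K : Type} [Field K] [NumberField K] {p : ℕ} {ζ : K} {m N : ℕ}

/-- interpolation between the trivial bound and Polya-Vinogradov -/
theorem chs_interp (a X Y C y : ℝ) (hX : 0 ≤ X) (hY : 0 ≤ Y) (hC : 0 ≤ C) (τ : ℝ) (h0 : 0 ≤ τ)
    (h1 : τ ≤ 1) (ha : 0 ≤ a) (haX : a ≤ C * X) (haY : a ≤ C * Y) (_ : 0 ≤ y) :
    a ≤ C * (X ^ τ * Y ^ (1 - τ)) := by
  rcases eq_or_lt_of_le ha with h | hpos
  · rw [← h]
    positivity
  · have hCp : 0 < C := by
      rcases eq_or_lt_of_le hC with h | h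
      · rw [← h, zero_mul] at haX
        linarith
      · exact h
    have e1 : a = a ^ τ * a ^ (1 - τ) := by
      rw [← Real.rpow_add hpos]
      have : τ + (1 - τ) = 1 := by ring
      rw [this, Real.rpow_one]
    have e2 : C = C ^ τ * C ^ (1 - τ) := by
      rw [← Real.rpow_add hCp]
      have : τ + (1 - τ) = 1 := by ring
      rw [this, Real.rpow_one]
    have h2 : a ^ τ ≤ (C * X) ^ τ := Real.rpow_le_rpow ha haX h0
    have h3 : a ^ (1 - τ) ≤ (C * Y) ^ (1 - τ) := Real.rpow_le_rpow ha haY (by linarith)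
    have h4 := mul_le_mul h2 h3 (by positivity) (by positivity)
    rw [← e1, Real.mul_rpow hC hX, Real.mul_rpow hC hY] at h4
    refine h4.trans (le_of_eq ?_)
    calc C ^ τ * X ^ τ * (C ^ (1 - τ) * Y ^ (1 - τ)) =
        (C ^ τ * C ^ (1 - τ)) * (X ^ τ * Y ^ (1 - τ)) := by ring
      _ = C * (X ^ τ * Y ^ (1 - τ)) := by rw [← e2]

theorem chs (hp : p.Prime) (hζ : IsPrimitiveRoot ζ p) (D : RD K p ζ) (η : ℝ) (hη : 0 < η) :
    ∃ C : ℝ, 0 < C ∧ ∀ (E : Finset (Pl K)) (μ : Pl K → ZMod p) (κ : Fin D.r → ZMod p),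
      (∀ w ∈ E, w ∉ D.S0) → ((∃ w ∈ E, μ w ≠ 0) ∨ κ ≠ 0) → ∀ s : ℝ, 1 < s → s ≤ 2 →
        (∑' v : Pl K, if D.Gd v ∧ v ∉ E then
          (ep p (fE D.toRD0 E μ κ v)).re * (nm v : ℝ) ^ (-s) else 0) ≤
          η * Real.log (nr E) + C := by
  have : NeZero p := ⟨hp.ne_zero⟩
  obtain ⟨C1, A, δ, hC1, hA, hδ, hδ1, hpv⟩ := pv K
  obtain ⟨κ0, C2, δ2, hκ0, hC2, hδ2, hδ21, hcnt⟩ := cnt K
  obtain ⟨C3, hC3, heul⟩ := eul_two K
  obtain ⟨C4, hdeg⟩ := pz_deg K
  obtain ⟨τ, hτ0, hτ1, hτA⟩ : ∃ τ : ℝ, 0 < τ ∧ τ ≤ 1 ∧ A * τ ≤ η := by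
    refine ⟨min 1 (η / (A + 1)), lt_min one_pos (by positivity), min_le_left _ _, ?_⟩
    have h1 : A * min 1 (η / (A + 1)) ≤ A * (η / (A + 1)) :=
      mul_le_mul_of_nonneg_left (min_le_right _ _) hA
    refine h1.trans ?_
    rw [mul_div_assoc', div_le_iff₀ (by positivity)]
    nlinarith
  set B : ℝ := C1 + (κ0 + C2) with hB
  have hBpos : 0 < B := by positivity
  have hM0 : (0 : ℝ) < (Ideal.absNorm D.M0 : ℝ) := by
    have : Ideal.absNorm D.M0 ≠ 0 := by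
      rw [Ne, Ideal.absNorm_eq_zero_iff]
      exact D.M0_ne
    exact_mod_cast Nat.pos_of_ne_zero this
  have hδτ : 0 < δ * τ := by positivity
  set C5 : ℝ := C3 * (2 * (B * (Ideal.absNorm D.M0 : ℝ) ^ (A * τ) / (δ * τ))) with hC5
  have hC5pos : 0 < C5 := by positivity
  refine ⟨|Real.log C5| + |C4| + 1, by positivity, ?_⟩
  intro E μ κ hE hne s hs hs2
  set f : Pl K → ZMod p := fun v => if v ∈ D.S0 ∨ v ∈ E then 0 else fE D.toRD0 E μ κ v with hf
  obtain ⟨hray, hnon⟩ := rayE hp hζ D E hE μ κ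
  set 𝔣 : Ideal (𝓞 K) := D.M0 * idl E with h𝔣d
  have h𝔣 : 𝔣 ≠ ⊥ := mul_ne_zero D.M0_ne (af_ne E)
  obtain ⟨χ, hχ1, hχ2⟩ := ray_rc hp h𝔣 hray
  have hχn : χ.Non := by
    obtain ⟨v, hv1, hv2, hv3⟩ := hnon hne
    refine hχ2 ⟨v, ?_⟩
    rw [if_neg (by tauto)]
    exact hv3
  have hnr1 : 1 ≤ nr E := one_le_nr E
  have hN : (Ideal.absNorm 𝔣 : ℝ) = (Ideal.absNorm D.M0 : ℝ) * nr E := by
    rw [h𝔣d, map_mul, Nat.cast_mul, idl_norm]
  have hnorm : ∀ I, ‖χ.χ I‖ ≤ 1 := lbd_rc_norm_le χ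
  -- bound for the partial sums
  have hN1 : (1 : ℝ) ≤ (Ideal.absNorm 𝔣 : ℝ) := by
    have : Ideal.absNorm 𝔣 ≠ 0 := by
      rw [Ne, Ideal.absNorm_eq_zero_iff]
      exact h𝔣
    exact_mod_cast Nat.pos_of_ne_zero this
  have hpart : ∀ y : ℝ, 1 ≤ y → ‖∑ I ∈ IN K y, χ.χ I‖ ≤
      (B * (Ideal.absNorm 𝔣 : ℝ) ^ (A * τ)) * y ^ (1 - δ * τ) := by
    intro y hy
    have hy0 : 0 ≤ y := by linarith
    have h1 : ‖∑ I ∈ IN K y, χ.χ I‖ ≤ B * ((Ideal.absNorm 𝔣 : ℝ) ^ A * y ^ (1 - δ)) := by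
      refine (hpv 𝔣 h𝔣 χ hχn y hy).trans ?_
      rw [mul_assoc]
      exact mul_le_mul_of_nonneg_right (by rw [hB]; linarith) (by positivity)
    have h2 : ‖∑ I ∈ IN K y, χ.χ I‖ ≤ B * y := by
      have h3 : ‖∑ I ∈ IN K y, χ.χ I‖ ≤ ((IN K y).card : ℝ) := by
        refine (norm_sum_le _ _).trans ?_
        refine (Finset.sum_le_sum fun I _ => hnorm I).trans ?_
        rw [Finset.sum_const, nsmul_eq_mul, mul_one]
      have h4 := (abs_le.1 (hcnt y hy)).2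
      have h5 : y ^ (1 - δ2) ≤ y := by
        conv_rhs => rw [← Real.rpow_one y]
        exact Real.rpow_le_rpow_of_exponent_le hy (by linarith)
      have h6 : C2 * y ^ (1 - δ2) ≤ C2 * y := mul_le_mul_of_nonneg_left h5 hC2.le
      rw [hB]
      nlinarith
    have h7 := chs_interp _ ((Ideal.absNorm 𝔣 : ℝ) ^ A * y ^ (1 - δ)) y B y (by positivity) hy0
      hBpos.le τ hτ0.le hτ1 (norm_nonneg _) h1 h2 hy0
    refine h7.trans (le_of_eq ?_)
    rw [Real.mul_rpow (by positivity) (by positivity), ← Real.rpow_mul (by positivity),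
      ← Real.rpow_mul hy0]
    have h8 : y ^ (1 - δ * τ) = y ^ ((1 - δ) * τ) * y ^ (1 - τ) := by
      rw [← Real.rpow_add (by linarith)]
      congr 1
      ring
    rw [h8]
    ring
  have hδτ1 : δ * τ < 1 := by nlinarith
  have hL := lser_bound χ.χ (map_zero χ.χ) hnorm (B * (Ideal.absNorm 𝔣 : ℝ) ^ (A * τ)) (δ * τ)
    (by positivity) hδτ hδτ1 hpart hs hs2
  obtain ⟨-, hE2⟩ := heul χ.χ hnorm s hs hs2
  set R : ℝ := ∑' v : Pl K, (χ.χ v.asIdeal).re * (nm v : ℝ) ^ (-s) with hR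
  have hexp : Real.exp R ≤ C5 * nr E ^ η := by
    refine (hE2.trans (mul_le_mul_of_nonneg_left hL hC3.le)).trans ?_
    rw [hN, Real.mul_rpow hM0.le (by linarith)]
    have h1 : nr E ^ (A * τ) ≤ nr E ^ η := Real.rpow_le_rpow_of_exponent_le hnr1 hτA
    have h2 : C3 * (2 * (B * ((Ideal.absNorm D.M0 : ℝ) ^ (A * τ) * nr E ^ (A * τ)) / (δ * τ))) =
        C5 * nr E ^ (A * τ) := by
      rw [hC5]
      ring
    rw [h2]
    exact mul_le_mul_of_nonneg_left h1 hC5pos.le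
  have hRle : R ≤ η * Real.log (nr E) + |Real.log C5| := by
    have h1 := Real.log_le_log (Real.exp_pos _) hexp
    rw [Real.log_exp, Real.log_mul hC5pos.ne' (by positivity), Real.log_rpow (by linarith)] at h1
    have h2 := le_abs_self (Real.log C5)
    linarith
  -- comparison
  have hterm : ∀ v : Pl K, (if D.Gd v ∧ v ∉ E then
      (ep p (fE D.toRD0 E μ κ v)).re * (nm v : ℝ) ^ (-s) else 0) ≤
      (χ.χ v.asIdeal).re * (nm v : ℝ) ^ (-s) +
        ({v : Pl K | ¬ (nm v).Prime}).indicator (fun v => (nm v : ℝ) ^ (-s)) v := by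
    intro v
    have hpos : (0 : ℝ) ≤ (nm v : ℝ) ^ (-s) := by positivity
    have hre : -(1 : ℝ) ≤ (χ.χ v.asIdeal).re := by
      have h1 := (abs_le.1 ((Complex.abs_re_le_norm (χ.χ v.asIdeal)).trans (hnorm _))).1
      exact h1
    by_cases hg : D.Gd v ∧ v ∉ E
    · rw [if_pos hg]
      have hnd : ¬ v.asIdeal ∣ 𝔣 := by
        rw [h𝔣d, alem_dvd']
        rintro (h | h)
        · exact hg.1.1 h
        · exact hg.2 h
      have h1 := hχ1 v hnd
      have h2 : f v = fE D.toRD0 E μ κ v := by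
        rw [hf]
        exact if_neg (by rintro (h | h); exacts [hg.1.1 h, hg.2 h])
      have h3 : (χ.χ v.asIdeal).re = (ep p (fE D.toRD0 E μ κ v)).re := by
        rw [h1]
        exact congrArg (fun z => (ep p z).re) h2
      rw [h3, Set.indicator_of_notMem (by
        intro h
        exact h hg.1.2), add_zero]
    · rw [if_neg hg]
      by_cases hpr : (nm v).Prime
      · have hz : χ.χ v.asIdeal = 0 := by
          have hdv : v.asIdeal ∣ 𝔣 := by
            rw [h𝔣d, alem_dvd']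
            by_contra h
            push Not at h
            exact hg ⟨⟨h.1, hpr⟩, h.2⟩
          apply χ.zero_of
          intro hco
          have h1 : 𝔣 ≤ v.asIdeal := Ideal.le_of_dvd hdv
          have h2 := Ideal.isCoprime_iff_sup_eq.1 hco
          rw [sup_eq_left.2 h1] at h2
          exact v.isPrime.ne_top h2
        rw [hz, Complex.zero_re, zero_mul, zero_add]
        exact Set.indicator_nonneg (fun v _ => by positivity) v
      · rw [Set.indicator_of_mem (show v ∈ {v : Pl K | ¬ (nm v).Prime} from hpr)]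
        nlinarith
  have hsum0 := pz_summable K hs
  have hs1 : Summable fun v : Pl K => (χ.χ v.asIdeal).re * (nm v : ℝ) ^ (-s) := by
    refine Summable.of_norm_bounded hsum0 fun v => ?_
    rw [norm_mul]
    have h1 : ‖(χ.χ v.asIdeal).re‖ ≤ 1 := (Complex.abs_re_le_norm _).trans (hnorm _)
    have h2 : ‖(nm v : ℝ) ^ (-s)‖ = (nm v : ℝ) ^ (-s) := Real.norm_of_nonneg (by positivity)
    rw [h2]
    have h3 : (0 : ℝ) ≤ (nm v : ℝ) ^ (-s) := by positivity
    nlinarith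
  have hs2' := hsum0.indicator {v : Pl K | ¬ (nm v).Prime}
  have hs3 : Summable fun v : Pl K => (if D.Gd v ∧ v ∉ E then
      (ep p (fE D.toRD0 E μ κ v)).re * (nm v : ℝ) ^ (-s) else 0) := by
    refine Summable.of_norm_bounded hsum0 fun v => ?_
    split_ifs
    · rw [norm_mul]
      have h1 : ‖(ep p (fE D.toRD0 E μ κ v)).re‖ ≤ 1 :=
        (Complex.abs_re_le_norm _).trans (ep_norm _ _).le
      have h2 : ‖(nm v : ℝ) ^ (-s)‖ = (nm v : ℝ) ^ (-s) := Real.norm_of_nonneg (by positivity)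
      rw [h2]
      have h3 : (0 : ℝ) ≤ (nm v : ℝ) ^ (-s) := by positivity
      nlinarith
    · rw [norm_zero]
      positivity
  have hcmp := Summable.tsum_le_tsum hterm hs3 (hs1.add hs2')
  rw [Summable.tsum_add hs1 hs2'] at hcmp
  have h9 : (∑' v : Pl K, ({v : Pl K | ¬ (nm v).Prime}).indicator
      (fun v => (nm v : ℝ) ^ (-s)) v) ≤ C4 := hdeg s hs
  have h10 := le_abs_self C4
  linarith

end H38.BB
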