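import Pool.Agent.H38.BB.CDef

/-!
# [H38 BB CEXP] expansion of products over a family, 150-250 lines (adaptation of `MA/AExp`)

`c : CR p m N`. Everything is the same as in `MA/AExp` (read that file; copy the proofs of `aexp_split`, `aexp_multi`, `aexp_inner`, `phase`, `un_nr_prod`, `un_qf`; none of them uses the field `all` of `CD`).
* `rx_mem`: membership in `unR`. `rx_dj`: `unR c g` is pairwise disjoint if `g` is. `rx_nr`: `∏ nr (unR c g i) = ∏ nr (g a)`. `rx_qf`: the classes. `rx_disj`: `unR c g` avoids `E` iff `g` does.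
* `rx_ak`: the symbol of `akR D c b f k` at `v ∉ S0` for pairwise disjoint `f`: `LL v (b k) + ∑_j ∑_{w ∈ f j} x j k * LL v (pi w)` (`aexp_LL_prod`, `aexp_LL_pow` in `MA/AExp`).
* `rx_phase`: `phase` of `MA/AExp`: for disjoint `g` of primes outside `S0`, `∑_a ∑_{v ∈ g a} θ_a · (LL v (akR b (unR g) k))_k = ph D c.pd b g`.
* `rx_inner`: for `Dj f`, `f i ∈ GF D Y` and a set `S` of refined indices, multiply out: `∏_i ∏_{v ∈ f i} ∑_{a ∈ S, a.1 = i} ep(θ_a · F v)` is the sum over the pairwise disjoint `g` with `unR c g = f` and `sup g ⊆ S` of `ep(∑_a ∑_{v ∈ g a} θ_a · F v)`: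
  a choice of an index `a(v) ∈ S` with `a(v).1 = i` for every `v ∈ f i` is the same as such a `g` (`g a = {v ∈ f a.1 : a(v) = a}`; `g a ⊆ f a.1`, so `g a ∈ GF D Y` as `nr` is monotone and subsets of good sets are good). (Compare `aexp_inner`: there `S` is everything. One can deduce `rx_inner` from `aexp_multi` applied to
  `h i v θ = if (i, θ) ∈ S then ep(θ · F v) else 0`: the terms with some nonempty `g a`, `a ∉ S`, vanish.)
* `rx_char`: for a subspace `Δ` of `(ZMod p)^m`: `∑_{δ ∈ Δ} ep(δ · y) = #Δ` if `y ⊥ Δ`, `0` otherwise (`char_sum` of `MA/AExp`).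
-/

set_option autoImplicit false

open scoped NumberField
open IsDedekindDomain
open scoped Classical

noncomputable section

namespace H38.BB

open H63.MA

variable {K : Type} [Field K] [NumberField K] {p : ℕ} {ζ : K} {m N : ℕ}

theorem rx_mem [NeZero p] {c : CR p m N} {g : c.J → Finset (Pl K)} {i : Fin N} {v : Pl K} :
    v ∈ unR c g i ↔ ∃ a : c.J, a.1 = i ∧ v ∈ g a := by
  unfold unR
  rw [Finset.mem_biUnion]
  constructor
  · rintro ⟨θ, -, h⟩
    exact ⟨⟨i, θ⟩, rfl, h⟩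
  · rintro ⟨a, rfl, h⟩
    exact ⟨a.2, Finset.mem_univ _, h⟩

theorem rx_dj [NeZero p] {c : CR p m N} {g : c.J → Finset (Pl K)} (hg : Dj g) :
    Dj (unR c g) := by
  intro i i' hii'
  rw [Finset.disjoint_left]
  intro v hv hv'
  obtain ⟨a, ha, h1⟩ := rx_mem.1 hv
  obtain ⟨a', ha', h2⟩ := rx_mem.1 hv'
  have hne : a ≠ a' := by
    rintro rfl
    exact hii' (ha.symm.trans ha')
  exact Finset.disjoint_left.1 (hg a a' hne) h1 h2

/-- products over `c.J` -/
theorem rx_prod_J [NeZero p] {M : Type*} [CommMonoid M] (c : CR p m N) (F : c.J → M) :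
    ∏ a, F a = ∏ i, ∏ θ : {θ : Fin m → ZMod p // θ ∈ c.Θ i}, F ⟨i, θ⟩ :=
  Fintype.prod_sigma (fun a : Σ i : Fin N, {θ : Fin m → ZMod p // θ ∈ c.Θ i} => F a)

theorem rx_sum_J [NeZero p] {M : Type*} [AddCommMonoid M] (c : CR p m N) (F : c.J → M) :
    ∑ a, F a = ∑ i, ∑ θ : {θ : Fin m → ZMod p // θ ∈ c.Θ i}, F ⟨i, θ⟩ :=
  Fintype.sum_sigma (fun a : Σ i : Fin N, {θ : Fin m → ZMod p // θ ∈ c.Θ i} => F a)

theorem rx_pair [NeZero p] {c : CR p m N} {g : c.J → Finset (Pl K)} (hg : Dj g) (i : Fin N) :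
    Set.PairwiseDisjoint (↑(Finset.univ : Finset {θ : Fin m → ZMod p // θ ∈ c.Θ i}))
      (fun θ => g ⟨i, θ⟩) := by
  intro θ _ θ' _ hne
  apply hg
  intro h
  apply hne
  have := Sigma.mk.inj_iff.1 h
  exact eq_of_heq this.2

theorem rx_nr_un [NeZero p] (c : CR p m N) (g : c.J → Finset (Pl K)) (hg : Dj g) (i : Fin N) :
    nr (unR c g i) = ∏ θ : {θ : Fin m → ZMod p // θ ∈ c.Θ i}, nr (g ⟨i, θ⟩) := by
  unfold unR nr
  rw [Finset.prod_biUnion (rx_pair hg i)]

theorem rx_nr [NeZero p] (c : CR p m N) (g : c.J → Finset (Pl K)) (hg : Dj g) :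
    ∏ i, nr (unR c g i) = ∏ a, nr (g a) := by
  rw [rx_prod_J]
  exact Finset.prod_congr rfl fun i _ => rx_nr_un c g hg i

theorem rx_qf [NeZero p] (D : RD0 K p ζ) (c : CR p m N) (g : c.J → Finset (Pl K)) (hg : Dj g)
    (i : Fin N) : qf D (unR c g i) = clR D c (fun a => qf D (g a)) i := by
  unfold unR qf clR
  rw [Finset.sum_biUnion (rx_pair hg i)]

theorem rx_disj [NeZero p] (c : CR p m N) (g : c.J → Finset (Pl K)) (E : Finset (Pl K)) :
    (∀ i, Disjoint (unR c g i) E) ↔ ∀ a, Disjoint (g a) E := by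
  constructor
  · intro h a
    rw [Finset.disjoint_left]
    intro v hv
    exact Finset.disjoint_left.1 (h a.1) (rx_mem.2 ⟨a, rfl, hv⟩)
  · intro h i
    rw [Finset.disjoint_left]
    intro v hv
    obtain ⟨a, -, ha⟩ := rx_mem.1 hv
    exact Finset.disjoint_left.1 (h a) ha

theorem rx_ak [NeZero p] (hp : p.Prime) (hζ : IsPrimitiveRoot ζ p) (D : RD0 K p ζ)
    (c : CR p m N) (b : Fin m → Kˣ) (f : Fin N → Finset (Pl K)) {v : Pl K} (hv : v ∉ D.S0)
    (k : Fin m) : D.LL v (akR D c b f k) =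
      D.LL v (b k) + ∑ j, ∑ w ∈ f j, c.x j k * D.LL v (D.pi w) := by
  unfold akR
  rw [LL_mul hp hζ D hv, aexp_LL_prod hp hζ D hv]
  congr 1
  refine Finset.sum_congr rfl fun i _ => ?_
  rw [aexp_LL_prod hp hζ D hv]
  exact Finset.sum_congr rfl fun w _ => aexp_LL_pow hp hζ D hv _ _

theorem rx_LL_ak [NeZero p] (hp : p.Prime) (hζ : IsPrimitiveRoot ζ p) (D : RD0 K p ζ)
    (c : CR p m N) (b : Fin m → Kˣ) (g : c.J → Finset (Pl K)) (hg : Dj g) {v : Pl K}
    (hv : v ∉ D.S0) (k : Fin m) :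
    D.LL v (akR D c b (unR c g) k) =
      D.LL v (b k) + ∑ a', c.x a'.1 k * ∑ w ∈ g a', D.LL v (D.pi w) := by
  rw [rx_ak hp hζ D c b _ hv k]
  congr 1
  rw [rx_sum_J]
  refine Finset.sum_congr rfl fun i _ => ?_
  unfold unR
  rw [Finset.sum_biUnion (rx_pair hg i)]
  refine Finset.sum_congr rfl fun θ _ => ?_
  rw [Finset.mul_sum]

theorem rx_phase [NeZero p] (hp : p.Prime) (hζ : IsPrimitiveRoot ζ p) (D : RD K p ζ)
    (c : CR p m N) (b : Fin m → Kˣ) (g : c.J → Finset (Pl K)) (hg : Dj g)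
    (hg0 : ∀ a, ∀ v ∈ g a, v ∉ D.S0) :
    ∑ a, ∑ v ∈ g a, dt (c.pd.θ a) (fun k => D.LL v (akR D.toRD0 c b (unR c g) k)) =
      ph D.toRD0 c.pd b g := by
  unfold ph
  rw [← Finset.sum_add_distrib]
  refine Finset.sum_congr rfl fun a _ => ?_
  have h1 : ∀ v ∈ g a, dt (c.pd.θ a) (fun k => D.LL v (akR D.toRD0 c b (unR c g) k)) =
      dt (c.pd.θ a) (fun k => D.LL v (b k)) +
        ∑ a', dt (c.pd.θ a) (c.pd.x a') * ∑ w ∈ g a', D.LL v (D.pi w) := by
    intro v hv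
    have hv0 := hg0 a v hv
    have h2 : (fun k => D.LL v (akR D.toRD0 c b (unR c g) k)) =
        fun k => D.LL v (b k) + ∑ a', c.pd.x a' k * ∑ w ∈ g a', D.LL v (D.pi w) := by
      funext k
      exact rx_LL_ak hp hζ D.toRD0 c b g hg hv0 k
    rw [h2]
    unfold dt
    simp only [mul_add, Finset.sum_add_distrib]
    congr 1
    simp only [Finset.mul_sum, Finset.sum_mul]
    rw [Finset.sum_comm]
    refine Finset.sum_congr rfl fun a' _ => ?_
    rw [Finset.sum_comm]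
    refine Finset.sum_congr rfl fun w _ => Finset.sum_congr rfl fun k _ => ?_
    rw [mul_assoc]
  rw [Finset.sum_congr rfl h1, Finset.sum_add_distrib]
  congr 1
  rw [Finset.sum_comm]
  refine Finset.sum_congr rfl fun a' _ => ?_
  rw [← Finset.mul_sum]
  congr 1
  unfold Lf pf
  refine Finset.sum_congr rfl fun v hv => ?_
  rw [aexp_LL_prod hp hζ D.toRD0 (hg0 a v hv)]

theorem rx_mem_GF {D : RD0 K p ζ} {X : ℝ} {n : Finset (Pl K)} :
    n ∈ GF D X ↔ nr n ≤ X ∧ ∀ v ∈ n, D.Gd v := by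
  unfold GF
  rw [Finset.mem_filter, mem_AF]

theorem rx_sum_filter [NeZero p] (c : CR p m N) (S : Finset c.J) (i : Fin N) (X : c.J → ℂ) :
    ∑ a ∈ S.filter (fun a => a.1 = i), X a =
      ∑ θ : {θ : Fin m → ZMod p // θ ∈ c.Θ i}, if (⟨i, θ⟩ : c.J) ∈ S then X ⟨i, θ⟩ else 0 := by
  have h1 : S.filter (fun a => a.1 = i) = Finset.univ.filter fun a : c.J => a.1 = i ∧ a ∈ S := by
    ext a
    simp only [Finset.mem_filter, Finset.mem_univ, true_and]
    tauto
  rw [h1, Finset.sum_filter, rx_sum_J, Finset.sum_eq_single i]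
  · refine Finset.sum_congr rfl fun θ _ => ?_
    by_cases h2 : (⟨i, θ⟩ : c.J) ∈ S
    · rw [if_pos h2, if_pos ⟨rfl, h2⟩]
    · rw [if_neg h2, if_neg fun h3 => h2 h3.2]
  · intro i' _ hne
    refine Finset.sum_eq_zero fun θ _ => ?_
    rw [if_neg fun h3 => hne h3.1]
  · intro h
    exact absurd (Finset.mem_univ i) h

theorem rx_inner [NeZero p] (hp : p.Prime) (D : RD0 K p ζ) (c : CR p m N) (S : Finset c.J)
    (Y : ℝ) (f : Fin N → Finset (Pl K)) (hf : ∀ i, f i ∈ GF D Y) (hdj : Dj f)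
    (F : Pl K → Fin m → ZMod p) :
    ∏ i, ∏ v ∈ f i, ∑ a ∈ S.filter (fun a => a.1 = i), ep p (dt (c.pd.θ a) (F v)) =
      ∑ g ∈ (Fintype.piFinset (fun _ : c.J => GF D Y)).filter
        (fun g => Dj g ∧ unR c g = f ∧ sup g ⊆ S),
        ep p (∑ a, ∑ v ∈ g a, dt (c.pd.θ a) (F v)) := by
  have hS : ∀ n ∈ GF D Y, ∀ n' ⊆ n, n' ∈ GF D Y := by
    intro n hn n' hn'
    rw [rx_mem_GF] at hn ⊢
    exact ⟨(nr_mono hn').trans hn.1, fun v hv => hn.2 v (hn' hv)⟩
  have h1 : ∏ i, ∏ v ∈ f i, ∑ a ∈ S.filter (fun a => a.1 = i), ep p (dt (c.pd.θ a) (F v)) =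
      ∏ i, ∏ v ∈ f i, ∑ θ : {θ : Fin m → ZMod p // θ ∈ c.Θ i},
        if (⟨i, θ⟩ : c.J) ∈ S then ep p (dt θ.1 (F v)) else 0 := by
    refine Finset.prod_congr rfl fun i _ => Finset.prod_congr rfl fun v _ => ?_
    exact rx_sum_filter c S i fun a => ep p (dt (c.pd.θ a) (F v))
  obtain ⟨GS, hGS, h3⟩ := aexp_multi f (fun i v (θ : {θ : Fin m → ZMod p // θ ∈ c.Θ i}) =>
    if (⟨i, θ⟩ : c.J) ∈ S then ep p (dt θ.1 (F v)) else 0)
  have h4 : ∑ GG ∈ GS, ∏ i, ∏ θ : {θ : Fin m → ZMod p // θ ∈ c.Θ i}, ∏ v ∈ GG i θ,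
      (if (⟨i, θ⟩ : c.J) ∈ S then ep p (dt θ.1 (F v)) else 0) =
      ∑ g ∈ (Fintype.piFinset (fun _ : c.J => GF D Y)).filter
        (fun g => Dj g ∧ unR c g = f),
        ∏ a : c.J, ∏ v ∈ g a, if a ∈ S then ep p (dt (c.pd.θ a) (F v)) else 0 := by
    refine Finset.sum_bij (fun GG _ => fun a : c.J => GG a.1 a.2) ?_ ?_ ?_ ?_
    · intro GG hGG
      have hG := (hGS GG).1 hGG
      refine Finset.mem_filter.2 ⟨Fintype.mem_piFinset.2
        fun a => hS _ (hf a.1) _ ((hG a.1).1 a.2), ?_, ?_⟩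
      · rintro ⟨i, θ⟩ ⟨i', θ'⟩ hne
        by_cases hii' : i = i'
        · subst hii'
          have hne' : θ ≠ θ' := by
            rintro rfl
            exact hne rfl
          exact (hG i).2.1 θ θ' hne'
        · exact Finset.disjoint_of_subset_left ((hG i).1 θ)
            (Finset.disjoint_of_subset_right ((hG i').1 θ') (hdj i i' hii'))
      · funext i
        ext v
        rw [rx_mem]
        constructor
        · rintro ⟨a, rfl, hv⟩
          exact (hG a.1).1 a.2 hv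
        · intro hv
          obtain ⟨θ, hθ⟩ := (hG i).2.2 v hv
          exact ⟨⟨i, θ⟩, rfl, hθ⟩
    · intro GG _ GG' _ h
      funext i θ
      exact congrFun h ⟨i, θ⟩
    · intro g hg
      obtain ⟨hg1, hg2, hg3⟩ := Finset.mem_filter.1 hg
      refine ⟨fun i θ => g ⟨i, θ⟩, (hGS _).2 fun i => ⟨fun θ => ?_, ?_, ?_⟩, rfl⟩
      · rw [← hg3]
        intro v hv
        exact rx_mem.2 ⟨⟨i, θ⟩, rfl, hv⟩
      · intro θ θ' hne
        apply hg2
        intro h
        apply hne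
        have := Sigma.mk.inj_iff.1 h
        exact eq_of_heq this.2
      · intro v hv
        rw [← hg3, rx_mem] at hv
        obtain ⟨a, rfl, hv⟩ := hv
        exact ⟨a.2, hv⟩
    · intro GG _
      rw [rx_prod_J]
      rfl
  have h5 : ∀ g : c.J → Finset (Pl K), (∏ a : c.J, ∏ v ∈ g a,
      if a ∈ S then ep p (dt (c.pd.θ a) (F v)) else 0) =
      if sup g ⊆ S then ep p (∑ a, ∑ v ∈ g a, dt (c.pd.θ a) (F v)) else 0 := by
    intro g
    by_cases hg : sup g ⊆ S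
    · rw [if_pos hg, aexp_ep_sum hp]
      refine Finset.prod_congr rfl fun a _ => ?_
      rw [aexp_ep_sum hp]
      refine Finset.prod_congr rfl fun v hv => ?_
      have ha : a ∈ S := by
        apply hg
        unfold sup
        rw [Finset.mem_filter]
        exact ⟨Finset.mem_univ _, fun h => by rw [h] at hv; exact absurd hv (Finset.notMem_empty _)⟩
      rw [if_pos ha]
    · rw [if_neg hg]
      obtain ⟨a, ha, haS⟩ := Finset.not_subset.1 hg
      unfold sup at ha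
      rw [Finset.mem_filter] at ha
      obtain ⟨v, hv⟩ := Finset.nonempty_iff_ne_empty.2 ha.2
      refine Finset.prod_eq_zero (Finset.mem_univ a) (Finset.prod_eq_zero hv ?_)
      rw [if_neg haS]
  rw [h1, h3, h4, Finset.sum_congr rfl fun g _ => h5 g, ← Finset.sum_filter, Finset.filter_filter]
  refine Finset.sum_congr ?_ fun _ _ => rfl
  ext g
  simp only [Finset.mem_filter]
  tauto

theorem rx_char [NeZero p] (hp : p.Prime) (Δ : Submodule (ZMod p) (Fin m → ZMod p))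
    (y : Fin m → ZMod p) :
    (((if ∀ δ ∈ Δ, dt δ y = 0 then (Nat.card Δ : ℝ) else 0 : ℝ)) : ℂ) =
      ∑ δ : {δ : Fin m → ZMod p // δ ∈ Δ}, ep p (dt δ.1 y) := by
  by_cases h : ∀ δ ∈ Δ, dt δ y = 0
  · rw [if_pos h]
    have h1 : ∀ δ : {δ : Fin m → ZMod p // δ ∈ Δ}, ep p (dt δ.1 y) = 1 := by
      intro δ
      rw [h δ.1 δ.2, ep_zero]
    rw [Finset.sum_congr rfl fun δ _ => h1 δ, Finset.sum_const, nsmul_eq_mul, mul_one,
      Finset.card_univ]
    have h2 : Nat.card Δ = Fintype.card {δ : Fin m → ZMod p // δ ∈ Δ} :=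
      Nat.card_eq_fintype_card
    rw [h2]
    push_cast
    rfl
  · rw [if_neg h]
    push Not at h
    obtain ⟨θ0, hθ0, hne⟩ := h
    have h1 : ∑ δ : {δ : Fin m → ZMod p // δ ∈ Δ}, ep p (dt δ.1 y) =
        ep p (dt θ0 y) * ∑ δ : {δ : Fin m → ZMod p // δ ∈ Δ}, ep p (dt δ.1 y) := by
      rw [Finset.mul_sum]
      have e := Equiv.sum_comp (Equiv.addLeft (⟨θ0, hθ0⟩ : Δ))
        (fun δ : Δ => ep p (dt δ.1 y))
      rw [← e]
      refine Finset.sum_congr rfl fun δ _ => ?_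
      rw [Equiv.coe_addLeft, Submodule.coe_add, aexp_dt_add, ep_add hp]
    have h2 : ep p (dt θ0 y) ≠ 1 := fun h3 => hne ((ep_eq_one hp _).1 h3)
    have h3 : (ep p (dt θ0 y) - 1) *
        ∑ δ : {δ : Fin m → ZMod p // δ ∈ Δ}, ep p (dt δ.1 y) = 0 := by
      rw [sub_mul, one_mul, ← h1, sub_self]
    rcases mul_eq_zero.1 h3 with h4 | h4
    · exact absurd (sub_eq_zero.1 h4) h2
    · rw [h4, Complex.ofReal_zero]

end H38.BB
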