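import Pool.Agent.H38.BB.CMer
import Pool.Agent.H38.BB.CChs
import Pool.Agent.H38.BB.CExp
import Pool.Agent.H63.MB.BPhA

/-!
# [H38 BB CUBT] upper bound for the main terms, 120-180 lines

`tw D N Δ b v = ∑_i #Δ_i [δ · (LL v (b k))_k = 0 for all δ ∈ Δ_i]`. `ubt`: if `b` is supported on `S0 ∪ E` and `b^δ` is not a `p`-th power for `0 ≠ δ ∈ Δ_i`, then `∑_{n ∈ GF Y, n ∩ E = ∅} ∏_{v ∈ n} tw v ≤ C (nr E)^η Y (1 + log Y)^{N-1}` for all `Y ≥ 1`.

Proof. `0 ≤ tw v ≤ A₀ = ∑_i #Δ_i`. For `1 ≤ Y ≤ 3` the sum is at most `#(AF K 3) (1 + A₀)^2` (`2^{#n} ≤ nr n ≤ 3`, so `#n ≤ 1`). Let `Y ≥ 3`, `t v = if v ∈ E then 0 else tw v`; the sum over the `n ∈ GF Y` with `n ∩ E = ∅` is at most `∑_{n ∈ GF Y} ∏_{v ∈ n} t v` (equal, all terms `≥ 0`). By `hr` and `mer`, with `s = 1 + 1/log Y ≤ 2`: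
`∑_{n} ≤ C₁ (Y / log Y) exp(∑_{v good, v ∉ E} tw v (nm v)^{-s})`. By `rx_char`, `tw v = ∑_i ∑_{δ ∈ Δ_i} Re ep(δ · (LL v (b k))_k)` (the left side is real). The terms `δ = 0` give `N ∑_{v good, v ∉ E} (nm v)^{-s} ≤ N PZ univ s ≤ N (log log Y + C₂)` (`pz_all`, `log (1/(s-1)) = log log Y`). For `δ ≠ 0`: `aph_rec2` (`MB/BPhA`) gives `κ` with
`δ · (LL v (b k))_k = fE D E μ κ v`, `μ w = lam w * dord b δ w`, for all good `v`. If `μ = 0` on `E` and `κ = 0` then `LL v (bp b δ) = δ · (LL v (b k))_k = 0` for all good `v` (`aph_bp`), contradiction to `D.non (bp b δ)` (`F = ∅`). So `chs` with `η / (A₀ + 1)` applies: the sum over `v` is `≤ η/(A₀+1) log (nr E) + C₃`. There are at most `A₀` pairs `(i, δ)`. Total exponent: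
`≤ N log log Y + η log (nr E) + C₄`, so the sum is `≤ C₅ (Y / log Y) (log Y)^N (nr E)^η`. All series converge absolutely (`pz_summable`), so the exchange of the finite sums and the series is allowed.
-/

set_option autoImplicit false

open scoped NumberField
open IsDedekindDomain
open scoped Classical

noncomputable section

namespace H38.BB

open H63.MA

variable {K : Type} [Field K] [NumberField K] {p : ℕ} {ζ : K}

theorem ubt_tw_re [NeZero p] (hp : p.Prime) (D : RD0 K p ζ) {m : ℕ} (N : ℕ)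
    (Δ : Fin N → Submodule (ZMod p) (Fin m → ZMod p)) (b : Fin m → Kˣ) (v : Pl K) :
    tw D N Δ b v = ∑ i, ∑ δ : {δ : Fin m → ZMod p // δ ∈ Δ i},
      (ep p (dt δ.1 (fun k => D.LL v (b k)))).re := by
  unfold tw
  refine Finset.sum_congr rfl fun i _ => ?_
  have h := congrArg Complex.re (rx_char hp (Δ i) (fun k => D.LL v (b k)))
  rw [Complex.ofReal_re, Complex.re_sum] at h
  rw [← h]
  congr 1

theorem ubt_re_le (p : ℕ) (a : ZMod p) : |(ep p a).re| ≤ 1 := by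
  have h := Complex.abs_re_le_norm (ep p a)
  rw [ep_norm] at h
  exact h

/-- the series attached to `θ` -/
theorem ubt_summable {m : ℕ} (D : RD0 K p ζ) (b : Fin m → Kˣ) (E : Finset (Pl K))
    (θ : Fin m → ZMod p) {s : ℝ} (hs : 1 < s) :
    Summable fun v : Pl K => if D.Gd v ∧ v ∉ E then
      (ep p (dt θ (fun k => D.LL v (b k)))).re * (nm v : ℝ) ^ (-s) else 0 := by
  refine Summable.of_norm_bounded (pz_summable K hs) fun v => ?_
  have h0 : 0 ≤ (nm v : ℝ) ^ (-s) := Real.rpow_nonneg (Nat.cast_nonneg _) _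
  split_ifs
  · rw [norm_mul, Real.norm_eq_abs, Real.norm_of_nonneg h0]
    calc |(ep p (dt θ (fun k => D.LL v (b k)))).re| * (nm v : ℝ) ^ (-s) ≤
        1 * (nm v : ℝ) ^ (-s) := mul_le_mul_of_nonneg_right (ubt_re_le _ _) h0
      _ = _ := one_mul _
  · rw [norm_zero]
    exact h0

theorem ubt_zero {m : ℕ} (D : RD0 K p ζ) (b : Fin m → Kˣ) (E : Finset (Pl K))
    {s : ℝ} (hs : 1 < s) :
    (∑' v : Pl K, if D.Gd v ∧ v ∉ E then
      (ep p (dt (0 : Fin m → ZMod p) (fun k => D.LL v (b k)))).re * (nm v : ℝ) ^ (-s) else 0) ≤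
      PZ (Set.univ : Set (Pl K)) s := by
  unfold PZ
  refine Summable.tsum_le_tsum (fun v => ?_) (ubt_summable D b E 0 hs)
    ((pz_summable K hs).indicator _)
  rw [Set.indicator_univ]
  have h0 : 0 ≤ (nm v : ℝ) ^ (-s) := Real.rpow_nonneg (Nat.cast_nonneg _) _
  split_ifs
  · have h1 := (abs_le.1 (ubt_re_le p (dt (0 : Fin m → ZMod p) (fun k => D.LL v (b k))))).2
    calc _ ≤ 1 * (nm v : ℝ) ^ (-s) := mul_le_mul_of_nonneg_right h1 h0
      _ = _ := one_mul _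
  · exact h0

theorem ubt_chs [NeZero p] (hp : p.Prime) (hζ : IsPrimitiveRoot ζ p) (D : RD K p ζ) {m : ℕ}
    (η C₃ : ℝ)
    (hchs : ∀ (E : Finset (Pl K)) (μ : Pl K → ZMod p) (κ : Fin D.r → ZMod p),
      (∀ w ∈ E, w ∉ D.S0) → ((∃ w ∈ E, μ w ≠ 0) ∨ κ ≠ 0) → ∀ s : ℝ, 1 < s → s ≤ 2 →
        (∑' v : Pl K, if D.Gd v ∧ v ∉ E then
          (ep p (fE D.toRD0 E μ κ v)).re * (nm v : ℝ) ^ (-s) else 0) ≤
          η * Real.log (nr E) + C₃)
    (b : Fin m → Kˣ) (E : Finset (Pl K)) (hb : BS2 D.toRD0 b E)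
    (θ : Fin m → ZMod p) (hθ : ¬ IsPow p (bp b θ)) {s : ℝ} (hs : 1 < s) (hs2 : s ≤ 2) :
    (∑' v : Pl K, if D.Gd v ∧ v ∉ E then
      (ep p (dt θ (fun k => D.LL v (b k)))).re * (nm v : ℝ) ^ (-s) else 0) ≤
      η * Real.log (nr E) + C₃ := by
  obtain ⟨κ, hκ⟩ := aph_rec2 D b E hb θ
  have hne : (∃ w ∈ E, D.lam w * dord b θ w ≠ 0) ∨ κ ≠ 0 := by
    by_contra hcon
    push Not at hcon
    obtain ⟨h1, h2⟩ := hcon
    obtain ⟨v, hv, _, _, hne⟩ := D.non (bp b θ) hθ ∅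
    apply hne
    rw [aph_bp hp hζ D.toRD0 b θ hv.1, hκ v hv, h2]
    have h3 : dt (0 : Fin D.r → ZMod p) (D.q v) = 0 := by simp [dt]
    rw [h3, add_zero]
    exact Finset.sum_eq_zero fun w hw => by rw [h1 w hw, zero_mul]
  have h := hchs E (fun w => D.lam w * dord b θ w) κ hb.1 hne s hs hs2
  refine le_trans (le_of_eq ?_) h
  refine tsum_congr fun v => ?_
  by_cases hv : D.Gd v ∧ v ∉ E
  · rw [if_pos hv, if_pos hv]
    have h3 : dt θ (fun k => D.LL v (b k)) =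
        fE D.toRD0 E (fun w => D.lam w * dord b θ w) κ v := by
      rw [hκ v hv.1]
      rfl
    rw [h3]
  · rw [if_neg hv, if_neg hv]

theorem ubt_three [NeZero p] (hp : p.Prime) (hζ : IsPrimitiveRoot ζ p) (D : RD K p ζ) (m N : ℕ)
    (hN : 1 ≤ N) (Δ : Fin N → Submodule (ZMod p) (Fin m → ZMod p)) (η : ℝ) (hη : 0 < η) :
    ∃ C : ℝ, 0 < C ∧ ∀ (b : Fin m → Kˣ) (E : Finset (Pl K)), BS2 D.toRD0 b E →
      (∀ i, ∀ δ ∈ Δ i, δ ≠ 0 → ¬ IsPow p (bp b δ)) → ∀ Y : ℝ, 3 ≤ Y →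
        ∑ n ∈ (GF D.toRD0 Y).filter (fun n => Disjoint n E), ∏ v ∈ n, tw D.toRD0 N Δ b v ≤
          C * nr E ^ η * Y * (1 + Real.log Y) ^ (N - 1) := by
  obtain ⟨A₀, hA₀⟩ : ∃ A₀ : ℝ, A₀ = ∑ i : Fin N, (Nat.card (Δ i) : ℝ) := ⟨_, rfl⟩
  have hA0 : 0 ≤ A₀ := by
    rw [hA₀]
    exact Finset.sum_nonneg fun i _ => Nat.cast_nonneg _
  obtain ⟨C₁, hC₁, hhr⟩ := hr K A₀ hA0
  obtain ⟨C₂, hC₂, hmer⟩ := mer K A₀ hA0
  obtain ⟨Cp, hCp⟩ := pz_all K
  obtain ⟨C₃, hC₃, hchs⟩ := chs hp hζ D (η / (A₀ + 1)) (by positivity)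
  obtain ⟨C₄, hC₄⟩ : ∃ C₄ : ℝ, C₄ = N * |Cp| + A₀ * C₃ + C₂ := ⟨_, rfl⟩
  refine ⟨C₁ * Real.exp C₄, by positivity, fun b E hb hpow Y hY => ?_⟩
  have hY0 : 0 < Y := by linarith
  have hL1 : 1 ≤ Real.log Y := by
    rw [Real.le_log_iff_exp_le hY0]
    linarith [Real.exp_one_lt_d9]
  have hL0 : 0 < Real.log Y := by linarith
  have hnrE : 1 ≤ nr E := one_le_nr E
  have hnrE0 : 0 < nr E := by linarith
  have hlE : 0 ≤ Real.log (nr E) := Real.log_nonneg hnrE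
  obtain ⟨s, hs⟩ : ∃ s : ℝ, s = 1 + 1 / Real.log Y := ⟨_, rfl⟩
  have hs1 : 1 < s := by
    rw [hs]
    have : 0 < 1 / Real.log Y := by positivity
    linarith
  have hs2 : s ≤ 2 := by
    rw [hs]
    have : 1 / Real.log Y ≤ 1 := by
      rw [div_le_one hL0]
      exact hL1
    linarith
  have htw : ∀ v, 0 ≤ tw D.toRD0 N Δ b v ∧ tw D.toRD0 N Δ b v ≤ A₀ := by
    intro v
    unfold tw
    constructor
    · refine Finset.sum_nonneg fun i _ => ?_
      split_ifs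
      · exact Nat.cast_nonneg _
      · exact le_rfl
    · rw [hA₀]
      refine Finset.sum_le_sum fun i _ => ?_
      split_ifs
      · exact le_rfl
      · exact Nat.cast_nonneg _
  obtain ⟨t, ht⟩ : ∃ t : Pl K → ℝ, t = fun v => if v ∈ E then 0 else tw D.toRD0 N Δ b v :=
    ⟨_, rfl⟩
  have htb : ∀ v, 0 ≤ t v ∧ t v ≤ A₀ := by
    intro v
    rw [ht]
    simp only
    split_ifs
    · exact ⟨le_rfl, hA0⟩
    · exact htw v
  have h1 : ∑ n ∈ (GF D.toRD0 Y).filter (fun n => Disjoint n E), ∏ v ∈ n, tw D.toRD0 N Δ b v ≤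
      ∑ n ∈ GF D.toRD0 Y, ∏ v ∈ n, t v := by
    have h2 : ∑ n ∈ (GF D.toRD0 Y).filter (fun n => Disjoint n E),
        ∏ v ∈ n, tw D.toRD0 N Δ b v =
        ∑ n ∈ (GF D.toRD0 Y).filter (fun n => Disjoint n E), ∏ v ∈ n, t v := by
      refine Finset.sum_congr rfl fun n hn => Finset.prod_congr rfl fun v hv => ?_
      rw [ht]
      simp only
      rw [if_neg (Finset.disjoint_left.1 (Finset.mem_filter.1 hn).2 hv)]
    rw [h2]
    refine Finset.sum_le_sum_of_subset_of_nonneg (Finset.filter_subset _ _) fun n _ _ => ?_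
    exact Finset.prod_nonneg fun v _ => (htb v).1
  refine h1.trans ((hhr p ζ D.toRD0 t htb Y (by linarith)).trans ?_)
  -- the series
  obtain ⟨G, hG⟩ : ∃ G : (Fin m → ZMod p) → Pl K → ℝ, G = fun θ v => if D.Gd v ∧ v ∉ E then
      (ep p (dt θ (fun k => D.LL v (b k)))).re * (nm v : ℝ) ^ (-s) else 0 := ⟨_, rfl⟩
  have hGs : ∀ θ, Summable (G θ) := by
    intro θ
    rw [hG]
    exact ubt_summable D.toRD0 b E θ hs1
  have hT : (∑' v : Pl K, if D.Gd v then t v * (nm v : ℝ) ^ (-(1 + 1 / Real.log Y)) else 0) =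
      ∑ i, ∑ δ : {δ : Fin m → ZMod p // δ ∈ Δ i}, ∑' v, G δ.1 v := by
    have h2 : ∀ v : Pl K, (if D.Gd v then t v * (nm v : ℝ) ^ (-(1 + 1 / Real.log Y)) else 0) =
        ∑ i, ∑ δ : {δ : Fin m → ZMod p // δ ∈ Δ i}, G δ.1 v := by
      intro v
      rw [← hs, ht, hG]
      simp only
      by_cases hv : D.Gd v
      · by_cases hE : v ∈ E
        · rw [if_pos hv, if_pos hE, zero_mul]
          refine (Finset.sum_eq_zero fun i _ => Finset.sum_eq_zero fun δ _ => ?_).symm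
          rw [if_neg (fun h => h.2 hE)]
        · rw [if_pos hv, if_neg hE, ubt_tw_re hp, Finset.sum_mul]
          refine Finset.sum_congr rfl fun i _ => ?_
          rw [Finset.sum_mul]
          refine Finset.sum_congr rfl fun δ _ => ?_
          rw [if_pos ⟨hv, hE⟩]
      · rw [if_neg hv]
        refine (Finset.sum_eq_zero fun i _ => Finset.sum_eq_zero fun δ _ => ?_).symm
        rw [if_neg (fun h => hv h.1)]
    rw [tsum_congr h2, Summable.tsum_finsetSum (fun i _ => summable_sum fun δ _ => hGs δ.1)]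
    refine Finset.sum_congr rfl fun i _ => ?_
    rw [Summable.tsum_finsetSum (fun δ _ => hGs δ.1)]
  have hη' : 0 ≤ η / (A₀ + 1) * Real.log (nr E) + C₃ := by positivity
  have hlog : Real.log (1 / (s - 1)) = Real.log (Real.log Y) := by
    rw [hs]
    congr 1
    rw [add_sub_cancel_left, one_div_one_div]
  have hG0 : ∑' v, G 0 v ≤ Real.log (Real.log Y) + |Cp| := by
    have h2 : ∑' v, G 0 v ≤ PZ (Set.univ : Set (Pl K)) s := by
      rw [hG]
      exact ubt_zero D.toRD0 b E hs1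
    have h3 := (abs_le.1 (hCp s hs1 hs2)).2
    rw [hlog] at h3
    have h4 := le_abs_self Cp
    linarith
  have hll : 0 ≤ Real.log (Real.log Y) := Real.log_nonneg hL1
  have hi : ∀ i : Fin N, ∑ δ : {δ : Fin m → ZMod p // δ ∈ Δ i}, ∑' v, G δ.1 v ≤
      (Real.log (Real.log Y) + |Cp|) +
        (Nat.card (Δ i) : ℝ) * (η / (A₀ + 1) * Real.log (nr E) + C₃) := by
    intro i
    have h2 : ∀ δ : {δ : Fin m → ZMod p // δ ∈ Δ i}, ∑' v, G δ.1 v ≤
        (if δ = ⟨0, (Δ i).zero_mem⟩ then Real.log (Real.log Y) + |Cp| else 0) +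
          (η / (A₀ + 1) * Real.log (nr E) + C₃) := by
      intro δ
      split_ifs with hδ
      · rw [hδ]
        linarith
      · rw [zero_add]
        have h3 : δ.1 ≠ 0 := fun h => hδ (Subtype.ext h)
        rw [hG]
        exact ubt_chs hp hζ D (η / (A₀ + 1)) C₃ hchs b E hb δ.1 (hpow i δ.1 δ.2 h3) hs1 hs2
    refine (Finset.sum_le_sum fun δ _ => h2 δ).trans ?_
    rw [Finset.sum_add_distrib, Finset.sum_ite_eq', if_pos (Finset.mem_univ _), Finset.sum_const,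
      nsmul_eq_mul, Finset.card_univ]
    have h4 : Nat.card (Δ i) = Fintype.card {δ : Fin m → ZMod p // δ ∈ Δ i} :=
      Nat.card_eq_fintype_card
    rw [h4]
  have hTb : (∑' v : Pl K, if D.Gd v then t v * (nm v : ℝ) ^ (-(1 + 1 / Real.log Y)) else 0) ≤
      N * Real.log (Real.log Y) + η * Real.log (nr E) + (N * |Cp| + A₀ * C₃) := by
    rw [hT]
    refine (Finset.sum_le_sum fun i _ => hi i).trans ?_
    rw [Finset.sum_add_distrib, ← Finset.sum_mul, ← hA₀, Finset.sum_const, Finset.card_univ,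
      Fintype.card_fin, nsmul_eq_mul]
    have h3 : A₀ * (η / (A₀ + 1) * Real.log (nr E)) ≤ η * Real.log (nr E) := by
      have h4 : A₀ * (η / (A₀ + 1)) ≤ η := by
        rw [mul_div_assoc', div_le_iff₀ (by linarith)]
        nlinarith
      calc A₀ * (η / (A₀ + 1) * Real.log (nr E)) = A₀ * (η / (A₀ + 1)) * Real.log (nr E) := by ring
        _ ≤ η * Real.log (nr E) := mul_le_mul_of_nonneg_right h4 hlE
    linarith
  have hexp : Real.exp (∑ v ∈ gdY D.toRD0 Y, t v / nm v) ≤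
      Real.log Y ^ N * nr E ^ η * Real.exp C₄ := by
    have h2 := (hmer p ζ D.toRD0 t htb Y hY).trans (add_le_add_left hTb C₂)
    have h3 : Real.log Y ^ N * nr E ^ η * Real.exp C₄ = Real.exp
        (N * Real.log (Real.log Y) + η * Real.log (nr E) + (N * |Cp| + A₀ * C₃) + C₂) := by
      rw [Real.rpow_def_of_pos hnrE0, mul_comm (Real.log (nr E)) η, add_assoc _ _ C₂,
        Real.exp_add, Real.exp_add, Real.exp_nat_mul, Real.exp_log hL0, hC₄]
    rw [h3]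
    exact Real.exp_le_exp.2 h2
  have h5 : 0 ≤ C₁ * (Y / Real.log Y) := by positivity
  refine (mul_le_mul_of_nonneg_left hexp h5).trans ?_
  have h6 : Real.log Y ^ N = Real.log Y ^ (N - 1) * Real.log Y := by
    rw [← pow_succ]
    congr 1
    omega
  have h7 : Real.log Y ^ (N - 1) ≤ (1 + Real.log Y) ^ (N - 1) :=
    pow_le_pow_left₀ hL0.le (by linarith) _
  have h8 : C₁ * (Y / Real.log Y) * (Real.log Y ^ N * nr E ^ η * Real.exp C₄) =
      (C₁ * Real.exp C₄ * nr E ^ η * Y) * Real.log Y ^ (N - 1) := by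
    rw [h6]
    field_simp
  rw [h8]
  refine mul_le_mul_of_nonneg_left h7 ?_
  have h9 : 0 ≤ nr E ^ η := Real.rpow_nonneg hnrE0.le _
  positivity

theorem ubt [NeZero p] (hp : p.Prime) (hζ : IsPrimitiveRoot ζ p) (D : RD K p ζ) (m N : ℕ)
    (hN : 1 ≤ N) (Δ : Fin N → Submodule (ZMod p) (Fin m → ZMod p)) (η : ℝ) (hη : 0 < η) :
    ∃ C : ℝ, 0 < C ∧ ∀ (b : Fin m → Kˣ) (E : Finset (Pl K)), BS2 D.toRD0 b E →
      (∀ i, ∀ δ ∈ Δ i, δ ≠ 0 → ¬ IsPow p (bp b δ)) → ∀ Y : ℝ, 1 ≤ Y →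
        ∑ n ∈ (GF D.toRD0 Y).filter (fun n => Disjoint n E), ∏ v ∈ n, tw D.toRD0 N Δ b v ≤
          C * nr E ^ η * Y * (1 + Real.log Y) ^ (N - 1) := by
  obtain ⟨C, hC, h3⟩ := ubt_three hp hζ D m N hN Δ η hη
  have hl3 : 0 ≤ Real.log 3 := Real.log_nonneg (by norm_num)
  obtain ⟨R, hR⟩ : ∃ R : ℝ, R = 3 * (1 + Real.log 3) ^ (N - 1) := ⟨_, rfl⟩
  have hR1 : 1 ≤ R := by
    rw [hR]
    have h1 : 1 ≤ (1 + Real.log 3) ^ (N - 1) := one_le_pow₀ (by linarith)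
    linarith
  refine ⟨C * R, by positivity, fun b E hb hpow Y hY => ?_⟩
  have hnr : 0 ≤ nr E ^ η := Real.rpow_nonneg (by linarith [one_le_nr E]) _
  have hlY : 0 ≤ Real.log Y := Real.log_nonneg hY
  have h1L : 1 ≤ (1 + Real.log Y) ^ (N - 1) := one_le_pow₀ (by linarith)
  rcases le_or_gt 3 Y with h | h
  · refine (h3 b E hb hpow Y h).trans ?_
    have h4 : 0 ≤ C * nr E ^ η * Y * (1 + Real.log Y) ^ (N - 1) := by positivity
    calc C * nr E ^ η * Y * (1 + Real.log Y) ^ (N - 1) ≤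
        (C * nr E ^ η * Y * (1 + Real.log Y) ^ (N - 1)) * R := le_mul_of_one_le_right h4 hR1
      _ = _ := by ring
  · have h4 : ∑ n ∈ (GF D.toRD0 Y).filter (fun n => Disjoint n E),
        ∏ v ∈ n, tw D.toRD0 N Δ b v ≤
        ∑ n ∈ (GF D.toRD0 3).filter (fun n => Disjoint n E), ∏ v ∈ n, tw D.toRD0 N Δ b v := by
      refine Finset.sum_le_sum_of_subset_of_nonneg ?_ fun n _ _ => ?_
      · intro n hn
        rw [Finset.mem_filter, rx_mem_GF] at hn ⊢
        exact ⟨⟨hn.1.1.trans h.le, hn.1.2⟩, hn.2⟩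
      · refine Finset.prod_nonneg fun v _ => ?_
        unfold tw
        refine Finset.sum_nonneg fun i _ => ?_
        split_ifs
        · exact Nat.cast_nonneg _
        · exact le_rfl
    refine h4.trans ((h3 b E hb hpow 3 le_rfl).trans ?_)
    have h5 : C * nr E ^ η * 3 * (1 + Real.log 3) ^ (N - 1) = C * R * nr E ^ η * 1 * 1 := by
      rw [hR]
      ring
    rw [h5]
    refine mul_le_mul (mul_le_mul_of_nonneg_left hY (by positivity)) h1L zero_le_one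
      (by positivity)

end H38.BB
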