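import Pool.Agent.H38.BB.CDec
import Pool.Agent.H38.BB.CUbt

/-!
# [H38 BB CUB] the final analytic upper bound, 150-220 lines

* `ub_mw`: `‖MW D c b E ϑ h Y‖ ≤ ∑_{n ∈ GF Y, n ∩ E = ∅} ∏_{v ∈ n} tw v` for `|h| ≤ 1`, where `tw` is formed with `Δ_i = Θ_i ∩ L0`: take absolute values (`|ep| = 1`, `wtR c.del f ≥ 0`); the families `f` (pairwise disjoint) with union `n` and `∏_i ∏_{v ∈ f i} a_i(v)` sum up to `∏_{v ∈ n} ∑_i a_i(v)`
  (`Finset.prod_univ_sum`/`Finset.prod_sum`: a pairwise disjoint family with union `n` is a function `n → Fin N`; or `aexp_split` in `MA/AExp` with `T = Fin N`). `n = ⋃ f i` is good with `nr n = ∏ nr (f i) ≤ Y`.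
* `ub_triv`: trivial bound `SW D c b E 1 Y ≤ C Y (1 + log Y)^A`: by `sw_rw` `|SW|` is at most the number of the pairwise disjoint `g ∈ (GF Y)^J` with `∏ nr (g a) ≤ Y`, and `af_tup_one` as in `sg_triv` (`MA/ATupA`).
* `ub`: Let `A₁` be the exponent of `ub_triv`, `A ∈ ℕ` with `A ≥ 1` and `A₁ ≤ A η`. If `Sp0 c b` fails there is `0 ≠ θ ∈ L0` with `b^θ` a `p`-th power, so `SpR c b f` fails for all `f` and `SW = 0`. Let `Sp0 c b` hold. Let `X₀` be as in `dec` (for this `A`). If `Y ≤ X₀`: `ub_triv` (`(1 + log Y)^{A₁} ≤ (1 + log X₀)^{A₁}`, `nr E ≥ 1`). If `Y ≥ X₀` and `nr E > (log Y)^A`: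
  `(1 + log Y)^{A₁} ≤ 2^{A₁} (log Y)^{A₁} ≤ 2^{A₁} (nr E)^{A₁ / A} ≤ 2^{A₁} (nr E)^η` and `ub_triv`. If `Y ≥ X₀`, `nr E ≤ (log Y)^A`: `dec` with `h = 1`: `SW ≤ ∑_{T ∈ JJ} |RW([· ⊆ T])| + C Y (log Y)^{N-1}`; every `T ∈ JJ` is `Jt c ϑ` with `ϑ` unlinked, in particular `ϑ i ∈ Θ i`; `mw_rw`, `ub_mw` and `ubt` for `Δ_i = Θ_i ∩ L0`
  (`Sp0` gives its hypothesis).
-/

set_option autoImplicit false

open scoped NumberField
open IsDedekindDomain
open scoped Classical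

noncomputable section

namespace H38.BB

open H63.MA

variable {K : Type} [Field K] [NumberField K] {p : ℕ} {ζ : K} {m N : ℕ}

theorem cub_inst {T X : Type} [Fintype T] (i1 i2 : DecidableEq T) (t : T → Finset X) :
    @Fintype.piFinset T i1 _ (fun _ => X) t = @Fintype.piFinset T i2 _ (fun _ => X) t := by
  have h := Subsingleton.elim i1 i2
  subst h
  rfl

theorem cub_split (n : Finset (Pl K)) (a : Fin N → Pl K → ℝ) :
    ∏ v ∈ n, ∑ t, a t v =
      ∑ G ∈ (Fintype.piFinset fun _ : Fin N => n.powerset).filter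
        (fun G => Dj G ∧ Finset.univ.biUnion G = n), ∏ t, ∏ v ∈ G t, a t v := by
  have h := aexp_split n (fun v t => ((a t v : ℝ) : ℂ))
  apply Complex.ofReal_injective
  rw [Complex.ofReal_prod, Complex.ofReal_sum]
  have e1 : ∏ v ∈ n, ((∑ t, a t v : ℝ) : ℂ) = ∏ v ∈ n, ∑ t, ((a t v : ℝ) : ℂ) :=
    Finset.prod_congr rfl fun v _ => Complex.ofReal_sum _ _
  rw [e1, h]
  refine Finset.sum_congr ?_ fun G _ => ?_
  · ext G
    constructor
    · intro hG
      have h1 := Finset.mem_filter.1 hG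
      refine Finset.mem_filter.2 ⟨?_, h1.2⟩
      rw [cub_inst _ (fun a b => Classical.propDecidable (a = b))]
      exact h1.1
    · intro hG
      have h1 := Finset.mem_filter.1 hG
      refine Finset.mem_filter.2 ⟨?_, h1.2⟩
      rw [cub_inst _ (instDecidableEqFin N)]
      exact h1.1
  · rw [Complex.ofReal_prod]
    exact Finset.prod_congr rfl fun t _ => (Complex.ofReal_prod _ _).symm

theorem cub_nr (f : Fin N → Finset (Pl K)) (hf : Dj f) :
    nr (Finset.univ.biUnion f) = ∏ i, nr (f i) := by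
  unfold nr
  rw [Finset.prod_biUnion]
  intro i _ j _ hij
  exact hf i j hij

theorem cub_wt0 (c : CR p m N) (f : Fin N → Finset (Pl K)) (F : Pl K → Fin m → ZMod p) :
    0 ≤ wtR c f F := by
  unfold wtR
  refine Finset.prod_nonneg fun i _ => Finset.prod_nonneg fun v _ => ?_
  split_ifs
  · exact Nat.cast_nonneg _
  · exact le_rfl

theorem ub_mw [NeZero p] (D : RD0 K p ζ) (c : CR p m N)
    (b : Fin m → Kˣ) (E : Finset (Pl K)) (ϑ : Fin N → Fin m → ZMod p)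
    (h : (Fin N → Fin D.r → ZMod p) → ℂ) (hh : ∀ q, ‖h q‖ ≤ 1) (Y : ℝ) :
    ‖MW D c b E ϑ h Y‖ ≤
      ∑ n ∈ (GF D Y).filter (fun n => Disjoint n E), ∏ v ∈ n, tw D N c.del.Θ b v := by
  have hw : ∀ f ∈ Fintype.piFinset (fun _ : Fin N => GF D Y),
      ‖(if Dj f ∧ (∀ i, Disjoint (f i) E) ∧ ∏ i, nr (f i) ≤ Y then
        h (fun i => qf D (f i)) *
          (ep p (∑ i, ∑ v ∈ f i, dt (ϑ i) (fun k => D.LL v (akR D c b f k))) *
            ((wtR c.del f (fun v k => D.LL v (b k)) : ℝ) : ℂ)) else 0)‖ ≤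
      if Dj f ∧ (∀ i, Disjoint (f i) E) ∧ ∏ i, nr (f i) ≤ Y then
        wtR c.del f (fun v k => D.LL v (b k)) else 0 := by
    intro f _
    split_ifs with hc
    · rw [norm_mul, norm_mul, ep_norm, one_mul, Complex.norm_real,
        Real.norm_of_nonneg (cub_wt0 _ _ _)]
      exact mul_le_of_le_one_left (cub_wt0 _ _ _) (hh _)
    · rw [norm_zero]
  unfold MW
  refine (norm_sum_le _ _).trans ((Finset.sum_le_sum hw).trans ?_)
  rw [← Finset.sum_filter]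
  have hmap : ∀ f ∈ (Fintype.piFinset (fun _ : Fin N => GF D Y)).filter
      (fun f => Dj f ∧ (∀ i, Disjoint (f i) E) ∧ ∏ i, nr (f i) ≤ Y),
      Finset.univ.biUnion f ∈ (GF D Y).filter (fun n => Disjoint n E) := by
    intro f hf
    rw [Finset.mem_filter, Fintype.mem_piFinset] at hf
    obtain ⟨hf1, hf2, hf3, hf4⟩ := hf
    rw [Finset.mem_filter, atupa_mem_GF]
    refine ⟨⟨?_, ?_⟩, ?_⟩
    · rw [cub_nr f hf2]; exact hf4
    · intro v hv
      obtain ⟨i, -, hi⟩ := Finset.mem_biUnion.1 hv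
      exact (atupa_mem_GF.1 (hf1 i)).2 v hi
    · rw [Finset.disjoint_biUnion_left]
      exact fun i _ => hf3 i
  rw [← Finset.sum_fiberwise_of_maps_to hmap]
  refine Finset.sum_le_sum fun n _ => ?_
  have htw : ∏ v ∈ n, tw D N c.del.Θ b v = ∑ G ∈ (Fintype.piFinset fun _ : Fin N =>
      n.powerset).filter (fun G => Dj G ∧ Finset.univ.biUnion G = n),
      wtR c.del G (fun v k => D.LL v (b k)) := by
    unfold tw wtR
    exact cub_split n _
  rw [htw]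
  refine Finset.sum_le_sum_of_subset_of_nonneg ?_ fun f _ _ => cub_wt0 _ _ _
  intro f hf
  rw [Finset.mem_filter, Finset.mem_filter] at hf
  obtain ⟨⟨-, hf2, -, -⟩, hf5⟩ := hf
  rw [Finset.mem_filter, Fintype.mem_piFinset]
  refine ⟨fun i => ?_, hf2, hf5⟩
  rw [Finset.mem_powerset, ← hf5]
  exact Finset.subset_biUnion_of_mem f (Finset.mem_univ i)

theorem ub_triv [NeZero p] (hp : p.Prime) (hζ : IsPrimitiveRoot ζ p) (D : RD K p ζ)
    (c : CR p m N) : ∃ (C : ℝ) (A : ℕ), 0 < C ∧ ∀ Y : ℝ, 1 ≤ Y → ∀ (b : Fin m → Kˣ)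
      (E : Finset (Pl K)), SW D.toRD0 c b E (fun _ => 1) Y ≤ C * Y * (1 + Real.log Y) ^ A := by
  have key : ∀ Y : ℝ, ∀ (b : Fin m → Kˣ) (E : Finset (Pl K)),
      SW D.toRD0 c b E (fun _ => 1) Y ≤
      (((Fintype.piFinset fun _ : c.J => AF K Y).filter (fun g => ∏ a, nr (g a) ≤ Y)).card : ℝ) := by
    intro Y b E
    have h1 : SW D.toRD0 c b E (fun _ => 1) Y ≤ ‖((SW D.toRD0 c b E (fun _ => 1) Y : ℝ) : ℂ)‖ := by
      rw [Complex.norm_real]
      exact Real.le_norm_self _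
    refine h1.trans ?_
    rw [sw_rw hp hζ D c b E (fun _ => 1) Y]
    unfold RW
    refine (norm_sum_le _ _).trans ?_
    have h2 : ∀ g ∈ Fintype.piFinset (fun _ : c.J => GF D.toRD0 Y),
        ‖(if Dj g ∧ (∀ a, Disjoint (g a) E) ∧ ∏ a, nr (g a) ≤ Y then
          (if SpA c b (sup g) then (1 : ℂ) else 0) * ((((1 : ℝ)) : ℂ) * ep p (ph D.toRD0 c.pd b g))
            else 0)‖ ≤ if ∏ a, nr (g a) ≤ Y then (1 : ℝ) else 0 := by
      intro g _
      split_ifs with a1 a2 a3 a4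
      · rw [one_mul, Complex.ofReal_one, one_mul, ep_norm]
      · exact absurd a1.2.2 a3
      · rw [zero_mul, norm_zero]; exact zero_le_one
      · rw [zero_mul, norm_zero]
      · rw [norm_zero]; exact zero_le_one
      · rw [norm_zero]
    refine (Finset.sum_le_sum h2).trans ?_
    rw [Finset.sum_boole]
    norm_cast
    refine Finset.card_le_card fun g hg => ?_
    rw [Finset.mem_filter, Fintype.mem_piFinset] at hg ⊢
    exact ⟨fun a => mem_AF.2 ((atupa_le_prod g a).trans hg.2), hg.2⟩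
  by_cases hJ : Nonempty c.J
  · obtain ⟨C, hC, h⟩ := af_tup_one K c.J
    exact ⟨C, Fintype.card c.J - 1, hC, fun Y hY b E => (key Y b E).trans (h Y hY)⟩
  · rw [not_nonempty_iff] at hJ
    refine ⟨1, 0, one_pos, fun Y hY b E => (key Y b E).trans ?_⟩
    rw [pow_zero, mul_one, one_mul]
    have h0 : ((Fintype.piFinset fun _ : c.J => AF K Y).filter
        (fun g => ∏ a, nr (g a) ≤ Y)).card ≤ 1 := by
      refine Finset.card_le_one.2 fun g _ g' _ => ?_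
      exact Subsingleton.elim _ _
    have : ((((Fintype.piFinset fun _ : c.J => AF K Y).filter
        (fun g => ∏ a, nr (g a) ≤ Y)).card : ℕ) : ℝ) ≤ 1 := by exact_mod_cast h0
    linarith

theorem ub [NeZero p] (hp : p.Prime) (hp2 : MOne p K) (hζ : IsPrimitiveRoot ζ p) (D : RD K p ζ)
    (c : CR p m N) (hN : 1 ≤ N) (η : ℝ) (hη : 0 < η) :
    ∃ C : ℝ, 0 < C ∧ ∀ (b : Fin m → Kˣ) (E : Finset (Pl K)), BS2 D.toRD0 b E →
      ∀ Y : ℝ, 1 ≤ Y → SW D.toRD0 c b E (fun _ => 1) Y ≤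
        C * nr E ^ η * Y * (1 + Real.log Y) ^ (N - 1) := by
  obtain ⟨C₁, A₁, hC₁, htriv⟩ := ub_triv hp hζ D c
  obtain ⟨A, hA⟩ : ∃ A : ℕ, (A₁ : ℝ) / η ≤ A := exists_nat_ge _
  have hA' : (A₁ : ℝ) ≤ A * η := by rwa [div_le_iff₀ hη] at hA
  obtain ⟨C₂, X₀, hC₂, hX₀, hdec⟩ := dec hp hp2 hζ D c hN A
  obtain ⟨C₃, hC₃, hubt⟩ := ubt hp hζ D m N hN c.del.Θ η hη
  have hL0 : 0 ≤ Real.log X₀ := Real.log_nonneg (by linarith)
  obtain ⟨C, hCdef⟩ : ∃ C : ℝ, C = C₁ * (1 + Real.log X₀) ^ A₁ + C₁ * 2 ^ A₁ +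
      (C₂ + (JJ c).card * C₃) := ⟨_, rfl⟩
  have hq1 : 0 < C₁ * (1 + Real.log X₀) ^ A₁ := by positivity
  have hq2 : 0 < C₁ * 2 ^ A₁ := by positivity
  have hq3 : 0 < C₂ + (JJ c).card * C₃ := by positivity
  have hC : 0 < C := by rw [hCdef]; linarith
  refine ⟨C, hC, fun b E hb Y hY => ?_⟩
  have hY0 : 0 < Y := by linarith
  have hLY : 0 ≤ Real.log Y := Real.log_nonneg hY
  have hE1 : 1 ≤ nr E := one_le_nr E
  have hEη : 1 ≤ nr E ^ η := Real.one_le_rpow hE1 hη.le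
  have hLp : 1 ≤ (1 + Real.log Y) ^ (N - 1) := one_le_pow₀ (by linarith)
  -- general finishing step
  have fin : ∀ C' : ℝ, C' ≤ C → ∀ S : ℝ, S ≤ C' * nr E ^ η * Y * (1 + Real.log Y) ^ (N - 1) →
      S ≤ C * nr E ^ η * Y * (1 + Real.log Y) ^ (N - 1) := by
    intro C' hC' S hS
    refine hS.trans ?_
    have : 0 ≤ nr E ^ η * Y * (1 + Real.log Y) ^ (N - 1) := by positivity
    nlinarith
  have fin1 : ∀ C' : ℝ, 0 ≤ C' → C' ≤ C → ∀ S : ℝ, S ≤ C' * Y →
      S ≤ C * nr E ^ η * Y * (1 + Real.log Y) ^ (N - 1) := by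
    intro C' hC'0 hC' S hS
    refine fin C' hC' S (hS.trans ?_)
    have h1 : C' * Y * 1 ≤ C' * Y * (nr E ^ η * (1 + Real.log Y) ^ (N - 1)) := by
      refine mul_le_mul_of_nonneg_left ?_ (by positivity)
      exact one_le_mul_of_one_le_of_one_le hEη hLp
    calc C' * Y = C' * Y * 1 := by ring
      _ ≤ _ := h1
      _ = _ := by ring
  by_cases h0 : Sp0 c b
  swap
  · unfold Sp0 at h0
    push Not at h0
    obtain ⟨θ, hθ1, hθ2, hθ3⟩ := h0
    have hSW : SW D.toRD0 c b E (fun _ => 1) Y = 0 := by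
      unfold SW
      refine Finset.sum_eq_zero fun f _ => ?_
      rw [if_neg]
      rintro ⟨-, -, -, hS⟩
      rcases hS θ hθ2 with ⟨i, -, hi⟩ | hi
      · exact hi (hθ1 i)
      · exact hi hθ3
    rw [hSW]
    positivity
  rcases le_total Y X₀ with hYX | hYX
  · refine fin1 (C₁ * (1 + Real.log X₀) ^ A₁) hq1.le (by rw [hCdef]; linarith) _ ?_
    refine (htriv Y hY b E).trans ?_
    have h1 : (1 + Real.log Y) ^ A₁ ≤ (1 + Real.log X₀) ^ A₁ := by
      refine pow_le_pow_left₀ (by linarith) ?_ _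
      linarith [Real.log_le_log hY0 hYX]
    calc C₁ * Y * (1 + Real.log Y) ^ A₁ ≤ C₁ * Y * (1 + Real.log X₀) ^ A₁ :=
          mul_le_mul_of_nonneg_left h1 (by positivity)
      _ = _ := by ring
  have hY3 : 3 ≤ Y := hX₀.trans hYX
  have hL1 : 1 ≤ Real.log Y := by
    rw [Real.le_log_iff_exp_le hY0]
    exact (Real.exp_one_lt_d9.le.trans (by norm_num)).trans hY3
  rcases lt_or_ge (Real.log Y ^ A) (nr E) with hEY | hEY
  · have h1 : (1 + Real.log Y) ^ A₁ ≤ 2 ^ A₁ * nr E ^ η := by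
      have h2 : (1 + Real.log Y) ^ A₁ ≤ (2 * Real.log Y) ^ A₁ :=
        pow_le_pow_left₀ (by linarith) (by linarith) _
      have h3 : Real.log Y ^ A₁ ≤ nr E ^ η := by
        calc Real.log Y ^ A₁ = Real.log Y ^ (A₁ : ℝ) := (Real.rpow_natCast _ _).symm
          _ ≤ Real.log Y ^ ((A : ℝ) * η) := Real.rpow_le_rpow_of_exponent_le hL1 hA'
          _ = (Real.log Y ^ (A : ℝ)) ^ η := Real.rpow_mul (by linarith) _ _
          _ = (Real.log Y ^ A) ^ η := by rw [Real.rpow_natCast]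
          _ ≤ nr E ^ η := Real.rpow_le_rpow (by positivity) hEY.le hη.le
      rw [mul_pow] at h2
      exact h2.trans (mul_le_mul_of_nonneg_left h3 (by positivity))
    refine fin (C₁ * 2 ^ A₁) (by rw [hCdef]; linarith) _ ?_
    refine (htriv Y hY b E).trans ?_
    have h2 : C₁ * Y * (1 + Real.log Y) ^ A₁ ≤ C₁ * Y * (2 ^ A₁ * nr E ^ η) :=
      mul_le_mul_of_nonneg_left h1 (by positivity)
    refine h2.trans ?_
    have h3 : C₁ * 2 ^ A₁ * nr E ^ η * Y * 1 ≤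
        C₁ * 2 ^ A₁ * nr E ^ η * Y * (1 + Real.log Y) ^ (N - 1) :=
      mul_le_mul_of_nonneg_left hLp (by positivity)
    calc C₁ * Y * (2 ^ A₁ * nr E ^ η) = C₁ * 2 ^ A₁ * nr E ^ η * Y * 1 := by ring
      _ ≤ _ := h3
  · refine fin (C₂ + (JJ c).card * C₃) (by rw [hCdef]; linarith) _ ?_
    have hd := hdec Y hYX b E hb hEY h0 (fun _ => 1) (fun q => by simp)
    have h1 : SW D.toRD0 c b E (fun _ => 1) Y ≤ ‖((SW D.toRD0 c b E (fun _ => 1) Y : ℝ) : ℂ)‖ := by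
      rw [Complex.norm_real]
      exact Real.le_norm_self _
    have hT : ∀ T ∈ JJ c, ‖RW D.toRD0 c b E (fun S => if S ⊆ T then 1 else 0)
        (fun q => (((fun _ => 1 : (Fin N → Fin D.r → ZMod p) → ℝ) q : ℝ) : ℂ)) Y‖ ≤
        C₃ * nr E ^ η * Y * (1 + Real.log Y) ^ (N - 1) := by
      intro T hT
      unfold JJ at hT
      obtain ⟨ϑ, hϑ, rfl⟩ := Finset.mem_image.1 hT
      have hun : Unl c ϑ := (Finset.mem_filter.1 hϑ).2
      rw [← mw_rw hp hζ D c b E ϑ hun.1 _ Y]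
      refine (ub_mw D.toRD0 c b E ϑ _ (fun q => by simp) Y).trans ?_
      exact hubt b E hb (fun i δ hδ hδ0 => h0 δ hδ.2 hδ0) Y hY
    have h2 : ‖∑ T ∈ JJ c, RW D.toRD0 c b E (fun S => if S ⊆ T then 1 else 0)
        (fun q => (((fun _ => 1 : (Fin N → Fin D.r → ZMod p) → ℝ) q : ℝ) : ℂ)) Y‖ ≤
        (JJ c).card * (C₃ * nr E ^ η * Y * (1 + Real.log Y) ^ (N - 1)) := by
      refine (norm_sum_le _ _).trans ((Finset.sum_le_sum hT).trans ?_)
      rw [Finset.sum_const, nsmul_eq_mul]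
    have h3 : C₂ * Y * Real.log Y ^ (N - 1) * Real.log Y ^ (-(1 / 2) : ℝ) ≤
        C₂ * nr E ^ η * Y * (1 + Real.log Y) ^ (N - 1) := by
      have h4 : Real.log Y ^ (-(1 / 2) : ℝ) ≤ 1 :=
        Real.rpow_le_one_of_one_le_of_nonpos hL1 (by norm_num)
      have h5 : Real.log Y ^ (N - 1) ≤ (1 + Real.log Y) ^ (N - 1) :=
        pow_le_pow_left₀ hLY (by linarith) _
      have h6 : C₂ * Y * Real.log Y ^ (N - 1) * Real.log Y ^ (-(1 / 2) : ℝ) ≤
          C₂ * Y * Real.log Y ^ (N - 1) * 1 :=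
        mul_le_mul_of_nonneg_left h4 (by positivity)
      have h7 : C₂ * Y * Real.log Y ^ (N - 1) ≤ C₂ * Y * (1 + Real.log Y) ^ (N - 1) :=
        mul_le_mul_of_nonneg_left h5 (by positivity)
      have h8 : C₂ * Y * (1 + Real.log Y) ^ (N - 1) * 1 ≤
          C₂ * Y * (1 + Real.log Y) ^ (N - 1) * nr E ^ η :=
        mul_le_mul_of_nonneg_left hEη (by positivity)
      calc _ ≤ _ := h6
        _ = C₂ * Y * Real.log Y ^ (N - 1) := by ring
        _ ≤ _ := h7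
        _ = C₂ * Y * (1 + Real.log Y) ^ (N - 1) * 1 := by ring
        _ ≤ _ := h8
        _ = _ := by ring
    refine h1.trans ?_
    have h9 := norm_sub_norm_le ((SW D.toRD0 c b E (fun _ => 1) Y : ℝ) : ℂ)
      (∑ T ∈ JJ c, RW D.toRD0 c b E (fun S => if S ⊆ T then 1 else 0)
        (fun q => (((fun _ => 1 : (Fin N → Fin D.r → ZMod p) → ℝ) q : ℝ) : ℂ)) Y)
    calc ‖((SW D.toRD0 c b E (fun _ => 1) Y : ℝ) : ℂ)‖ ≤
          C₂ * Y * Real.log Y ^ (N - 1) * Real.log Y ^ (-(1 / 2) : ℝ) +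
          (JJ c).card * (C₃ * nr E ^ η * Y * (1 + Real.log Y) ^ (N - 1)) := by linarith
      _ ≤ C₂ * nr E ^ η * Y * (1 + Real.log Y) ^ (N - 1) +
          (JJ c).card * (C₃ * nr E ^ η * Y * (1 + Real.log Y) ^ (N - 1)) := by linarith
      _ = _ := by ring

end H38.BB
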