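import Pool.Agent.H38.BB.CDef
import Pool.Agent.H63.MA.PzS
import Pool.Agent.H63.MA.APh

/-!
# [H38 BB CFLD] a field in which the elements b^δ are p-th powers, 150-220 lines

`b k` of order `0` outside `S0`, `Δ` a subspace of `(ZMod p)^m`. There is a finite extension `M / K`, `[M:K] ≤ #Δ`, such that every prime `w` of `M` of prime norm over `v ∉ S0` has `nm v = nm w` and `δ · (LL v (b k))_k = 0` for all `δ ∈ Δ`.

Proof. Let `δ_1, …, δ_d` be a basis of `Δ`, `c_j = bp b δ_j ∈ Kˣ`. In an algebraic closure `Ω` of `K` choose `z_j` with `z_j^p = c_j`; `M = K(z_1, …, z_d)` (`IntermediateField.adjoin K (Set.range z)`, a number field: finite over `K`; `NumberField.of_module_finite` / `NumberField.of_intermediateField`). `[M:K] ≤ p^d = #Δ`: induction on `d`, each `z_j` is a root of `X^p - c_j`, so adjoining it to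
a field has degree `≤ p` (`IntermediateField.finrank_adjoin_le…`, or `Module.finrank_mul_finrank` and `IntermediateField.adjoin_simple…`/`minpoly.natDegree_le`). (It may be easier to construct `M` by induction on `d` as a tower of types, proving at the same time `[M:K] ≤ p^d` and that all `c_j` are `p`-th powers in `M`.)
For `δ = ∑ a_j δ_j`, `bp b δ = ∏_k (b k)^{(δ k).val}` and `(δ k).val ≡ ∑_j (a_j).val (δ_j k).val` modulo `p`, so `bp b δ` is `∏ c_j^{(a_j).val}` times a `p`-th power of `Kˣ`, hence a `p`-th power in `M`, `bp b δ = y^p`.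
Let `w` be over `v ∉ S0`, `nm w = ℓ` prime. `nm w` is a power of `nm v` with exponent `≥ 1` (`𝓞 K / v` embeds into `𝓞 M / w`; see `MA/PzS`, `MA/PZb`, or `Ideal.absNorm`/`Ideal.inertiaDeg` lemmas), so `nm v = nm w` and `𝓞 K / v → 𝓞 M / w` is bijective. `x = bp b δ` has order `0` at `v` (hypothesis), so `y` has order `0` at `w`. Choose `r ∈ Kˣ` of order `0` at `v` with
`y ≡ r` modulo `w` (bijectivity of the residue fields; `y` is a quotient of integers prime to `w`). Then `x ≡ r^p` modulo `w`, so modulo `v`, i.e. `x r^{-p}` is `One1` at `v` (compare the use of `one1_over` in `MA/PzS`), so `lg v x = lg v (r^p) = 0` (`lg_one1`, `lg_mul`, `lg_zpow` or the corresponding lemmas in `MA/SymA`, `MA/SymB`), `LL v x = lg v x` as `ord v x = 0`, and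
`LL v (bp b δ) = δ · (LL v (b k))_k` (`aph_bp`). Note that `v ∤ p` as `v ∉ S0` (`D.above`).
`over_card`: at most `[M:K]` primes of `M` lie over a prime `v` of `K` (`∑ e f = [M:K]`: `Ideal.sum_ramification_inertia`; see how `over_finite` in `MA/PzS` or `pzb_card_above` in `MA/PZb` is proved).
-/

set_option autoImplicit false

open scoped NumberField
open IsDedekindDomain
open scoped Classical

noncomputable section

namespace H38.BB

open H63.MA

private theorem cfld_liesOver {K : Type} [Field K] [NumberField K] {M : Type} [Field M]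
    [NumberField M] [Algebra K M] {w : Pl M} {v : Pl K} (h : Over w v) :
    w.asIdeal.LiesOver v.asIdeal := ⟨h.symm⟩

theorem over_card {K : Type} [Field K] [NumberField K] {M : Type} [Field M] [NumberField M]
    [Algebra K M] (v : Pl K) (F : Finset (Pl M)) (hF : ∀ w ∈ F, Over w v) :
    F.card ≤ Module.finrank K M := by
  have : v.asIdeal.IsMaximal := v.isMaximal
  have hinj0 : Function.Injective (algebraMap (𝓞 K) (𝓞 M)) :=
    FaithfulSMul.algebraMap_injective (𝓞 K) (𝓞 M)
  have hnz : NoZeroSMulDivisors (𝓞 K) (𝓞 M) := by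
    refine ⟨fun {c x} h => ?_⟩
    rw [Algebra.smul_def] at h
    rcases mul_eq_zero.1 h with h' | h'
    · exact Or.inl (hinj0 (by rw [h', map_zero]))
    · exact Or.inr h'
  have h1 := Ideal.card_primesOverFinset_le_finrank (R := 𝓞 K) (S := 𝓞 M) (K := K) (L := M)
    (p := v.asIdeal) v.ne_bot
  refine le_trans ?_ h1
  have hinj : Function.Injective (fun w : Pl M => w.asIdeal) := fun _ _ h => HeightOneSpectrum.ext h
  rw [← Finset.card_image_of_injective F hinj]
  apply Finset.card_le_card
  intro Q hQ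
  obtain ⟨w, hw, rfl⟩ := Finset.mem_image.1 hQ
  have := cfld_liesOver (hF w hw)
  rw [IsDedekindDomain.mem_primesOverFinset_iff v.ne_bot]
  exact ⟨w.isPrime, this⟩

private theorem cfld_lt_one {K : Type} [Field K] [NumberField K] {M : Type} [Field M]
    [NumberField M] [Algebra K M] {w : Pl M} {v : Pl K} (h : Over w v) (x : K) :
    w.valuation M (algebraMap K M x) = 1 → v.valuation K x = 1 := by
  intro h1
  have hx : x ≠ 0 := by
    rintro rfl
    rw [map_zero, map_zero] at h1
    exact zero_ne_one h1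
  obtain ⟨e, he, hord⟩ := ord_inc (K := K) (L := M) h
  have h2 : ord w (inc K M (Units.mk0 x hx)) = 0 := by
    rw [ord_eq_zero_iff]
    exact h1
  rw [hord] at h2
  have h3 : ord v (Units.mk0 x hx) = 0 := by
    rcases mul_eq_zero.1 h2 with h4 | h4
    · have : e = 0 := by exact_mod_cast h4
      omega
    · exact h4
  rw [ord_eq_zero_iff] at h3
  exact h3

/-- residue degree one: every `w`-unit of `M` is congruent to a `v`-unit of `K` -/
private theorem cfld_res {K : Type} [Field K] [NumberField K] {L : Type} [Field L]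
    [NumberField L] [Algebra K L] {w : Pl L} {v : Pl K} (h : Over w v)
    (hf : w.asIdeal.inertiaDeg (𝓞 K) = 1) (z : Lˣ) (hz : ord w z = 0) :
    ∃ r : Kˣ, ord v r = 0 ∧ One1 w (z * (inc K L r)⁻¹) := by
  have := cfld_liesOver h
  have hz1 : w.valuation L (z : L) = 1 := (ord_eq_zero_iff w z).mp hz
  obtain ⟨a, ha⟩ := w.exists_valuation_sub_lt_of_integer (K := L) (x := (z : L)) hz1.le 1
  rw [Units.val_one] at ha
  -- the residue field map is surjective
  have : v.asIdeal.IsMaximal := v.isMaximal
  have : w.asIdeal.IsMaximal := w.isMaximal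
  let : Field (𝓞 K ⧸ v.asIdeal) := Ideal.Quotient.field v.asIdeal
  let : Field (𝓞 L ⧸ w.asIdeal) := Ideal.Quotient.field w.asIdeal
  have hfr : Module.finrank (𝓞 K ⧸ v.asIdeal) (𝓞 L ⧸ w.asIdeal) = 1 := by
    rw [← Ideal.inertiaDeg_eq_of_isMaximal v.asIdeal w.asIdeal, hf]
  have hsurj : Function.Surjective (algebraMap (𝓞 K ⧸ v.asIdeal) (𝓞 L ⧸ w.asIdeal)) :=
    (Algebra.finrank_eq_one_iff_bijective_algebraMap.mp hfr).2
  obtain ⟨t', ht'⟩ := hsurj (Ideal.Quotient.mk w.asIdeal a)
  obtain ⟨t, rfl⟩ := Ideal.Quotient.mk_surjective t'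
  have ht : a - algebraMap (𝓞 K) (𝓞 L) t ∈ w.asIdeal := by
    rw [← Ideal.Quotient.eq, ← ht']
    rfl
  have h2 : w.valuation L (algebraMap (𝓞 L) L (a - algebraMap (𝓞 K) (𝓞 L) t)) < 1 :=
    (w.valuation_lt_one_iff_mem _).mpr ht
  have h3 : algebraMap (𝓞 L) L (algebraMap (𝓞 K) (𝓞 L) t) =
      algebraMap K L (algebraMap (𝓞 K) K t) := by
    rw [← IsScalarTower.algebraMap_apply (𝓞 K) (𝓞 L) L,
      ← IsScalarTower.algebraMap_apply (𝓞 K) K L]
  rw [map_sub, h3] at h2
  set tK : K := algebraMap (𝓞 K) K t with htK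
  -- z is close to t
  have h4 : w.valuation L ((z : L) - algebraMap K L tK) < 1 := by
    have e : (z : L) - algebraMap K L tK =
        -(algebraMap (𝓞 L) L a - z) + (algebraMap (𝓞 L) L a - algebraMap K L tK) := by ring
    rw [e]
    apply Valuation.map_add_lt _ _ h2
    rwa [Valuation.map_neg]
  have h5 : w.valuation L (algebraMap K L tK) = 1 := by
    have e : algebraMap K L tK = (z : L) - ((z : L) - algebraMap K L tK) := by ring
    rw [e, Valuation.map_sub_eq_of_lt_left _ (by rw [hz1]; exact h4), hz1]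
  have h6 : v.valuation K tK = 1 := cfld_lt_one h tK h5
  have htK0 : tK ≠ 0 := by
    intro h0
    rw [h0, map_zero] at h6
    exact zero_ne_one h6
  refine ⟨Units.mk0 tK htK0, ?_, ?_⟩
  · rw [ord_eq_zero_iff]
    exact h6
  · unfold One1
    have e : (((z * (inc K L (Units.mk0 tK htK0))⁻¹ : Lˣ) : L)) - 1 =
        ((z : L) - algebraMap K L tK) * (algebraMap K L tK)⁻¹ := by
      have h7 : algebraMap K L tK ≠ 0 := by
        intro h0
        rw [h0, map_zero] at h5
        exact zero_ne_one h5
      have h8 : ((inc K L (Units.mk0 tK htK0) : Lˣ) : L) = algebraMap K L tK := rfl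
      rw [Units.val_mul, Units.val_inv_eq_inv_val, h8, sub_mul, mul_inv_cancel₀ h7]
    rw [e, map_mul, map_inv₀, h5, inv_one, mul_one]
    exact h4

/-- a tower in which the given elements become `p`-th powers -/
private theorem cfld_tower {K : Type} [Field K] [NumberField K] {p : ℕ} {ζ : K} (hp : p.Prime)
    (hζ : IsPrimitiveRoot ζ p) (n : ℕ) : ∀ c : Fin n → Kˣ,
    ∃ (M : Type) (_ : Field M) (_ : NumberField M) (_ : Algebra K M),
      Module.finrank K M ≤ p ^ n ∧ ∀ j, IsPow p (inc K M (c j)) := by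
  induction n with
  | zero =>
    intro c
    refine ⟨K, inferInstance, inferInstance, Algebra.id K, ?_, fun j => j.elim0⟩
    rw [Module.finrank_self, pow_zero]
  | succ n ih =>
    intro c
    obtain ⟨M, i1, i2, i3, hM, hc⟩ := ih fun j => c j.castSucc
    by_cases hl : IsPow p (inc K M (c (Fin.last n)))
    · refine ⟨M, i1, i2, i3, hM.trans (Nat.pow_le_pow_right hp.pos (Nat.le_succ n)), ?_⟩
      intro j
      refine Fin.lastCases hl (fun i => hc i) j
    · have hζM : IsPrimitiveRoot (algebraMap K M ζ) p :=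
        hζ.map_of_injective (algebraMap K M).injective
      obtain ⟨L, j1, j2, j3, ⟨H⟩⟩ := kum_exists hp hζM hl
      let aKL : Algebra K L := ((algebraMap M L).comp (algebraMap K M)).toAlgebra
      have hT : IsScalarTower K M L := IsScalarTower.of_algebraMap_eq fun x => rfl
      have hinc : ∀ x : Kˣ, inc K L x = inc M L (inc K M x) := by
        intro x
        apply Units.ext
        rfl
      refine ⟨L, j1, j2, aKL, ?_, ?_⟩
      · rw [← Module.finrank_mul_finrank K M L, H.deg, pow_succ]
        exact Nat.mul_le_mul_right p hM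
      · intro j
        rw [hinc]
        refine Fin.lastCases ?_ (fun i => ?_) j
        · refine ⟨H.γ, ?_⟩
          exact kumc_γ hp hζM H
        · obtain ⟨y, hy⟩ := hc i
          refine ⟨inc M L y, ?_⟩
          rw [← map_pow, hy]

theorem fld {K : Type} [Field K] [NumberField K] {p : ℕ} {ζ : K} {m : ℕ} (hp : p.Prime)
    (hζ : IsPrimitiveRoot ζ p) (D : RD0 K p ζ) (b : Fin m → Kˣ)
    (hb : ∀ k v, v ∉ D.S0 → ord v (b k) = 0) (Δ : Submodule (ZMod p) (Fin m → ZMod p)) :
    ∃ (M : Type) (_ : Field M) (_ : NumberField M) (_ : Algebra K M),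
      Module.finrank K M ≤ Nat.card Δ ∧
      ∀ (w : Pl M) (v : Pl K), Over w v → (nm w).Prime → v ∉ D.S0 →
        nm v = nm w ∧ ∀ δ ∈ Δ, dt δ (fun k => D.LL v (b k)) = 0 := by
  have : Fact p.Prime := ⟨hp⟩
  let B := Module.finBasis (ZMod p) Δ
  obtain ⟨M, i1, i2, i3, hM, hc⟩ := cfld_tower hp hζ (Module.finrank (ZMod p) Δ)
    fun j => bp b (B j : Fin m → ZMod p)
  refine ⟨M, i1, i2, i3, ?_, ?_⟩
  · have h1 : Nat.card Δ = p ^ Module.finrank (ZMod p) Δ := by
      rw [Module.natCard_eq_pow_finrank (K := ZMod p) (V := Δ), Nat.card_zmod]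
    rw [h1]
    exact hM
  · intro w v h hw hv
    have hva : ¬ Above p v := fun h' => hv (D.above v h')
    have hlo := cfld_liesOver h
    have hnm : nm w = nm v ^ w.asIdeal.inertiaDeg (𝓞 K) :=
      (Ideal.absNorm_pow_inertiaDeg v.asIdeal w.asIdeal).symm
    have hf : w.asIdeal.inertiaDeg (𝓞 K) = 1 := by
      rw [hnm] at hw
      exact Nat.Prime.eq_one_of_pow hw
    rw [hf, pow_one] at hnm
    refine ⟨hnm.symm, ?_⟩
    have hbas : ∀ j, dt (B j : Fin m → ZMod p) (fun k => D.LL v (b k)) = 0 := by
      intro j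
      rw [← aph_bp hp hζ D b _ hv]
      have hord : ord v (bp b (B j : Fin m → ZMod p)) = 0 := by
        unfold bp
        rw [ord_prod]
        apply Finset.sum_eq_zero
        intro k _
        rw [ord_pow, hb k v hv, mul_zero]
      obtain ⟨y, hy⟩ := hc j
      obtain ⟨e, he, hoe⟩ := ord_inc (K := K) (L := M) h
      have hyo : ord w y = 0 := by
        have h1 : (p : ℤ) * ord w y = 0 := by
          rw [← ord_pow, hy, hoe, hord, mul_zero]
        rcases mul_eq_zero.1 h1 with h2 | h2
        · exact absurd (by exact_mod_cast h2) hp.ne_zero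
        · exact h2
      obtain ⟨r, hr, h1⟩ := cfld_res h hf y hyo
      have hspl : Spl p ζ v (bp b (B j : Fin m → ZMod p)) := by
        rw [spl_iff hp hζ hva]
        refine ⟨r, ?_⟩
        rw [← one1_over h]
        have h2 := one1_zpow h1 (p : ℤ)
        have h3 : (y * (inc K M r)⁻¹) ^ (p : ℤ) =
            inc K M (bp b (B j : Fin m → ZMod p) * (r ^ p)⁻¹) := by
          rw [zpow_natCast, mul_pow, hy, map_mul, map_inv, map_pow, inv_pow]
        rwa [h3] at h2
      obtain ⟨π, hπ⟩ := exists_unif v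
      have h4 := hspl π
      rw [B_unit hp hζ hva hord, hπ, Int.cast_one, one_mul] at h4
      rw [LL_unit hp hζ D hv hord]
      exact h4
    intro δ hδ
    have hlin : ∀ x : Δ, dt (x : Fin m → ZMod p) (fun k => D.LL v (b k)) = 0 := by
      intro x
      have h5 : (x : Fin m → ZMod p) = ∑ j, B.repr x j • (B j : Fin m → ZMod p) := by
        have h6 := congrArg (Submodule.subtype Δ) (B.sum_repr x)
        rw [map_sum] at h6
        simp only [map_smul] at h6
        exact h6.symm
      rw [h5]
      unfold dt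
      simp only [Finset.sum_apply, Pi.smul_apply, smul_eq_mul, Finset.sum_mul]
      rw [Finset.sum_comm]
      apply Finset.sum_eq_zero
      intro j _
      have h7 := hbas j
      unfold dt at h7
      rw [← mul_zero (B.repr x j), ← h7, Finset.mul_sum]
      exact Finset.sum_congr rfl fun k _ => by ring
    exact hlin ⟨δ, hδ⟩

end H38.BB
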