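import Pool.Agent.H63.MB.BDef
import Pool.Agent.H63.MA.AKSum

/-!
# BB-CDEF: definitions for the analytic part (all transitive representations, class 2)

As `MA/ACmb`, `MA/AExp`, `MB/BDef`, but for class data `CR` without the spanning hypothesis `all` of `CD`.
* `CR p m N`: classes `i ∈ Fin N` with vectors `x i` and subspaces `Θ i ⊆ (x i)^⊥`.
* `L0 c`: the vectors orthogonal to all `x i`; `del c`: the same classes with `Θ i ∩ L0` in place of `Θ i`.
* `Jt c ϑ`: the refined indices `(i, θ)` with `θ - ϑ i ∈ L0`; `Unl c ϑ`: pairwise unlinked; `JJ c`: the set of all `Jt c ϑ`, `ϑ` unlinked.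
* `SW D c b E h Y`: the sum over the families `f` of good primes outside `E` of `h (classes) * wt c f`, with the spanning condition `SpF'`.
* `RW D c b E ω h Y`: the sum over the refined families `g` with a weight `ω` of the support.
* `MW D c b E ϑ h Y`: the sum over the families `f` with the phase of `ϑ` and the weight of `del c`.
* `Full c S`: `S` contains one element of every class, pairwise unlinked and unlinked with all of `S`.
-/

set_option autoImplicit false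

open scoped NumberField
open IsDedekindDomain
open scoped Classical

noncomputable section

namespace H38.BB

open H63.MA

/-- class data -/
structure CR (p m N : ℕ) where
  x : Fin N → Fin m → ZMod p
  Θ : Fin N → Submodule (ZMod p) (Fin m → ZMod p)
  self : ∀ i, ∀ θ ∈ Θ i, dt θ (x i) = 0

/-- the index set of the refined families -/
def CR.J {p m N : ℕ} (c : CR p m N) : Type := Σ i : Fin N, {θ : Fin m → ZMod p // θ ∈ c.Θ i}

instance {p m N : ℕ} [NeZero p] (c : CR p m N) : Fintype c.J :=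
  inferInstanceAs (Fintype (Σ i : Fin N, {θ : Fin m → ZMod p // θ ∈ c.Θ i}))

/-- the phase data of a class datum -/
def CR.pd {p m N : ℕ} (c : CR p m N) : PD p m c.J where
  x a := c.x a.1
  θ a := a.2.1
  self a := c.self a.1 _ a.2.2

/-- the vectors orthogonal to all `x i` -/
def CR.L0 {p m N : ℕ} (c : CR p m N) : Submodule (ZMod p) (Fin m → ZMod p) where
  carrier := {δ | ∀ i, dt δ (c.x i) = 0}
  add_mem' := by
    intro a b ha hb i
    have h : dt (a + b) (c.x i) = dt a (c.x i) + dt b (c.x i) := by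
      simp only [dt, Pi.add_apply, add_mul, Finset.sum_add_distrib]
    rw [h, ha i, hb i, add_zero]
  zero_mem' := by
    intro i
    simp [dt]
  smul_mem' := by
    intro r a ha i
    have h : dt (r • a) (c.x i) = r * dt a (c.x i) := by
      simp only [dt, Pi.smul_apply, smul_eq_mul, Finset.mul_sum, mul_assoc]
    rw [h, ha i, mul_zero]

/-- the class data with `Θ i ∩ L0` -/
def CR.del {p m N : ℕ} (c : CR p m N) : CR p m N where
  x := c.x
  Θ i := c.Θ i ⊓ c.L0
  self i θ h := c.self i θ h.1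

/-- the refined indices near `ϑ` -/
def Jt {p m N : ℕ} [NeZero p] (c : CR p m N) (ϑ : Fin N → Fin m → ZMod p) : Finset c.J :=
  Finset.univ.filter fun a => a.2.1 - ϑ a.1 ∈ c.L0

/-- `ϑ` is a family of elements of the `Θ i`, pairwise unlinked -/
def Unl {p m N : ℕ} (c : CR p m N) (ϑ : Fin N → Fin m → ZMod p) : Prop :=
  (∀ i, ϑ i ∈ c.Θ i) ∧ ∀ i j, dt (ϑ i) (c.x j) + dt (ϑ j) (c.x i) = 0

/-- all the sets `Jt c ϑ` for unlinked `ϑ` -/
def JJ {p m N : ℕ} [NeZero p] (c : CR p m N) : Finset (Finset c.J) :=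
  (Finset.univ.filter fun ϑ : Fin N → Fin m → ZMod p => Unl c ϑ).image fun ϑ => Jt c ϑ

/-- full supports -/
def Full {p m N : ℕ} (c : CR p m N) (S : Finset c.J) : Prop :=
  ∃ Lg : Finset c.J, Lg ⊆ S ∧ (∀ i, ∃ a ∈ Lg, a.1 = i) ∧
    (∀ a ∈ Lg, ∀ a' ∈ Lg, a.1 = a'.1 → a = a') ∧ ∀ a ∈ Lg, ∀ a' ∈ S, c.pd.lk a a' = 0

variable {K : Type} [Field K] [NumberField K] {p : ℕ} {ζ : K} {m N : ℕ}

/-- the union over a class -/
def unR [NeZero p] (c : CR p m N) (g : c.J → Finset (Pl K)) (i : Fin N) : Finset (Pl K) :=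
  Finset.univ.biUnion fun θ : {θ : Fin m → ZMod p // θ ∈ c.Θ i} => g ⟨i, θ⟩

/-- the weight -/
def wtR (c : CR p m N) (f : Fin N → Finset (Pl K)) (F : Pl K → Fin m → ZMod p) : ℝ :=
  ∏ i, ∏ v ∈ f i, if ∀ θ ∈ c.Θ i, dt θ (F v) = 0 then (Nat.card (c.Θ i) : ℝ) else 0

/-- the Kummer generators attached to a family -/
def akR (D : RD0 K p ζ) (c : CR p m N) (b : Fin m → Kˣ) (f : Fin N → Finset (Pl K)) (k : Fin m) :
    Kˣ := b k * ∏ i, ∏ w ∈ f i, D.pi w ^ (c.x i k).val

/-- the spanning condition for a family -/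
def SpR (c : CR p m N) (b : Fin m → Kˣ) (f : Fin N → Finset (Pl K)) : Prop :=
  ∀ θ : Fin m → ZMod p, θ ≠ 0 → (∃ i, f i ≠ ∅ ∧ dt θ (c.x i) ≠ 0) ∨ ¬ IsPow p (bp b θ)

/-- the spanning condition for a support -/
def SpA (c : CR p m N) (b : Fin m → Kˣ) (S : Finset c.J) : Prop :=
  ∀ θ : Fin m → ZMod p, θ ≠ 0 → (∃ a ∈ S, dt θ (c.pd.x a) ≠ 0) ∨ ¬ IsPow p (bp b θ)

/-- `b` is independent modulo `p`-th powers on `L0` -/
def Sp0 (c : CR p m N) (b : Fin m → Kˣ) : Prop :=
  ∀ θ ∈ c.L0, θ ≠ 0 → ¬ IsPow p (bp b θ)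

/-- the support of a refined family -/
def sup [NeZero p] {c : CR p m N} (g : c.J → Finset (Pl K)) : Finset c.J :=
  Finset.univ.filter fun a => g a ≠ ∅

/-- the classes of a refined family -/
def clR [NeZero p] (D : RD0 K p ζ) (c : CR p m N) (q : c.J → Fin D.r → ZMod p) (i : Fin N) :
    Fin D.r → ZMod p := ∑ θ : {θ : Fin m → ZMod p // θ ∈ c.Θ i}, q ⟨i, θ⟩

/-- the weighted sum over the families -/
def SW (D : RD0 K p ζ) (c : CR p m N) (b : Fin m → Kˣ) (E : Finset (Pl K))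
    (h : (Fin N → Fin D.r → ZMod p) → ℝ) (Y : ℝ) : ℝ :=
  ∑ f ∈ Fintype.piFinset (fun _ : Fin N => GF D Y),
    if Dj f ∧ (∀ i, Disjoint (f i) E) ∧ ∏ i, nr (f i) ≤ Y ∧ SpR c b f then
      h (fun i => qf D (f i)) * wtR c f (fun v k => D.LL v (akR D c b f k)) else 0

/-- the sum over the refined families with a weight of the support -/
def RW [NeZero p] (D : RD0 K p ζ) (c : CR p m N) (b : Fin m → Kˣ) (E : Finset (Pl K))
    (ω : Finset c.J → ℂ) (h : (Fin N → Fin D.r → ZMod p) → ℂ) (Y : ℝ) : ℂ :=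
  ∑ g ∈ Fintype.piFinset (fun _ : c.J => GF D Y),
    if Dj g ∧ (∀ a, Disjoint (g a) E) ∧ ∏ a, nr (g a) ≤ Y then
      ω (sup g) * (h (clR D c fun a => qf D (g a)) * ep p (ph D c.pd b g)) else 0

/-- the main term of `ϑ` -/
def MW (D : RD0 K p ζ) (c : CR p m N) (b : Fin m → Kˣ) (E : Finset (Pl K))
    (ϑ : Fin N → Fin m → ZMod p) (h : (Fin N → Fin D.r → ZMod p) → ℂ) (Y : ℝ) : ℂ :=
  ∑ f ∈ Fintype.piFinset (fun _ : Fin N => GF D Y),
    if Dj f ∧ (∀ i, Disjoint (f i) E) ∧ ∏ i, nr (f i) ≤ Y then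
      h (fun i => qf D (f i)) *
        (ep p (∑ i, ∑ v ∈ f i, dt (ϑ i) (fun k => D.LL v (akR D c b f k))) *
          ((wtR c.del f (fun v k => D.LL v (b k)) : ℝ) : ℂ)) else 0

/-- the weight of a prime -/
def tw (D : RD0 K p ζ) (N : ℕ) (Δ : Fin N → Submodule (ZMod p) (Fin m → ZMod p))
    (b : Fin m → Kˣ) (v : Pl K) : ℝ :=
  ∑ i : Fin N, if ∀ δ ∈ Δ i, dt δ (fun k => D.LL v (b k)) = 0 then (Nat.card (Δ i) : ℝ) else 0

end H38.BB
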