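import Pool.Agent.H63.MA.AUp

/-!
# [H38 BB ABLK] abstract block decomposition, 150-200 lines (adaptation of the proof of `aup` in `MA/AUp`)

`Ψ` is any function of the families `g : J → GF D Y` with `|Ψ| ≤ 1`. If in every block `(Lg, s)` (large variables `Lg`, small variables `s`) either `#Lg < N` or the sum over the block is `≤ Y / sn / log Y`, then the whole sum is `≤ C Y (log Y)^{N-1} (log Y)^{-1/2}`.

Proof (copy the proof of `aup`). `B = max 2 B₁`, `A' = max (max A B) 1`, `z j = (log Y)^{A' B^j}`: monotone, `z j ≥ 1`, `z (j+1) = (z j)^B ≥ (z j)^{B₁}`, `z (j+1) ≥ (log Y)^{B₁}`, `z j ≥ (log Y)^A`, and `z j ≤ Y` for `j ≤ #J` if `Y` is large (`aup_large`). Apply `athr` to `w g = if ∏ nr (g a) ≤ Y then Ψ g else 0`.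
In the block `(j, Lg, s)`, `s ∈ SmF D z j Lg`: `s l = ∅` for `l ∈ Lg`, `s l` good with `nr (s l) ≤ z j` for `l ∉ Lg`. Use the hypothesis with `z₁ = z j`, `z₂ = z (j+1)`.
* Small blocks: `∑_s Y / sn / log Y ≤ C Y (1 + log (z j))^{#J} / log Y` (`smf_sum`, `af_inv`) and `(1 + log (z j))^{#J} ≤ (log Y)^{1/2}` for large `Y` (in the style of `aup_large`: `(log log Y)^n = o((log Y)^{1/2})`).
* `#Lg < N`, `Lg ≠ ∅` (so `N ≥ 2`): the number of terms is `≤ C (Y / sn) (1 + log Y)^{#Lg - 1} ≤ C (Y / sn) (1 + log Y)^{N-2}` (`tn_le_one`; the families in the block with `∏ nr ≤ Y` are in `(fam K Y Lg Lg s).filter (∏ nr ≤ Y)`), the sum over `s` is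
  `≤ C Y (1 + log Y)^{N-2} (1 + log (z j))^{#J} ≤ C' Y (log Y)^{N-2} (log Y)^{1/2} = C' Y (log Y)^{N-1} (log Y)^{-1/2}`.
* `Lg = ∅`: at most one term for every `s`, and the number of `s ∈ SmF` is `≤ (C z j)^{#J} ≤ √Y ≤ Y (log Y)^{-1/2}` for large `Y` (`af_card`, `aup_large`).
The number of the pairs `(j, Lg)` is at most `(#J + 1) 2^{#J}`.
-/

set_option autoImplicit false

open scoped NumberField
open IsDedekindDomain
open scoped Classical

noncomputable section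

namespace H38.BB

open H63.MA

theorem ablk_card {K : Type} [Field K] [NumberField K] {p : ℕ} {ζ : K} (D : RD0 K p ζ) {J : Type}
    [Fintype J] (Y z₂ : ℝ) (Ψ : (J → Finset (Pl K)) → ℂ) (hΨ : ∀ g, ‖Ψ g‖ ≤ 1) (Lg : Finset J)
    (s : J → Finset (Pl K)) :
    ‖∑ g ∈ Fintype.piFinset (fun a => if a ∈ Lg then GF D Y else {s a}),
      if (∀ a ∈ Lg, z₂ < nr (g a)) ∧ ∏ a, nr (g a) ≤ Y then Ψ g else 0‖ ≤
      (((fam K Y Lg Lg s).filter fun g => ∏ a, nr (g a) ≤ Y).card : ℝ) := by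
  have h1 : ∀ g ∈ Fintype.piFinset (fun a => if a ∈ Lg then GF D Y else {s a}),
      ‖(if (∀ a ∈ Lg, z₂ < nr (g a)) ∧ ∏ a, nr (g a) ≤ Y then Ψ g else 0)‖ ≤
        if g ∈ (fam K Y Lg Lg s).filter (fun g => ∏ a, nr (g a) ≤ Y) then (1 : ℝ) else 0 := by
    intro g hg
    by_cases h2 : (∀ a ∈ Lg, z₂ < nr (g a)) ∧ ∏ a, nr (g a) ≤ Y
    · rw [if_pos h2, if_pos]
      · exact hΨ g
      rw [Finset.mem_filter]
      refine ⟨?_, h2.2⟩
      rw [fam, Fintype.mem_piFinset]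
      intro a
      have h3 := (Fintype.mem_piFinset.1 hg) a
      by_cases ha : a ∈ Lg
      · rw [if_pos ha] at h3 ⊢
        exact (Finset.mem_filter.1 h3).1
      · rw [if_neg ha] at h3 ⊢
        rw [if_neg ha]
        exact h3
    · rw [if_neg h2, norm_zero]
      split_ifs
      · exact zero_le_one
      · exact le_rfl
  refine (norm_sum_le _ _).trans ((Finset.sum_le_sum h1).trans ?_)
  rw [Finset.sum_ite_mem, Finset.sum_const, nsmul_eq_mul, mul_one]
  exact_mod_cast Finset.card_le_card Finset.inter_subset_right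

theorem ablk_one {K : Type} [Field K] [NumberField K] {p : ℕ} {ζ : K} (D : RD0 K p ζ) {J : Type}
    [Fintype J] (Y z₂ : ℝ) (Ψ : (J → Finset (Pl K)) → ℂ) (hΨ : ∀ g, ‖Ψ g‖ ≤ 1)
    (s : J → Finset (Pl K)) :
    ‖∑ g ∈ Fintype.piFinset (fun a => if a ∈ (∅ : Finset J) then GF D Y else {s a}),
      if (∀ a ∈ (∅ : Finset J), z₂ < nr (g a)) ∧ ∏ a, nr (g a) ≤ Y then Ψ g else 0‖ ≤ 1 := by
  refine (norm_sum_le _ _).trans ?_
  have h1 : ∀ g ∈ Fintype.piFinset (fun a => if a ∈ (∅ : Finset J) then GF D Y else {s a}),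
      ‖(if (∀ a ∈ (∅ : Finset J), z₂ < nr (g a)) ∧ ∏ a, nr (g a) ≤ Y then Ψ g else 0)‖ ≤ 1 := by
    intro g _
    split_ifs
    · exact hΨ g
    · rw [norm_zero]
      exact zero_le_one
  refine (Finset.sum_le_card_nsmul _ _ _ h1).trans ?_
  rw [Fintype.card_piFinset]
  have h2 : ∀ a : J, (if a ∈ (∅ : Finset J) then GF D Y else {s a}).card = 1 := by
    intro a
    rw [if_neg (Finset.notMem_empty a), Finset.card_singleton]
  simp only [h2, Finset.prod_const_one, one_smul]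
  exact le_rfl

theorem ablk {K : Type} [Field K] [NumberField K] {p : ℕ} {ζ : K} (D : RD0 K p ζ) {J : Type}
    [Fintype J] (N : ℕ) (hN : 1 ≤ N) (B₁ A : ℕ) :
    ∃ C X₀ : ℝ, 0 < C ∧ 3 ≤ X₀ ∧ ∀ Y : ℝ, X₀ ≤ Y → ∀ Ψ : (J → Finset (Pl K)) → ℂ,
      (∀ g, ‖Ψ g‖ ≤ 1) →
      (∀ z₁ z₂ : ℝ, 1 ≤ z₁ → z₁ ^ B₁ ≤ z₂ → Real.log Y ^ B₁ ≤ z₂ → Real.log Y ^ A ≤ z₁ →
        ∀ (Lg : Finset J) (s : J → Finset (Pl K)), (∀ l ∈ Lg, s l = ∅) →
          (∀ l, l ∉ Lg → (∀ v ∈ s l, D.Gd v) ∧ nr (s l) ≤ z₁) →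
          Lg.card < N ∨
          ‖∑ g ∈ Fintype.piFinset (fun a => if a ∈ Lg then GF D Y else {s a}),
            if (∀ a ∈ Lg, z₂ < nr (g a)) ∧ ∏ a, nr (g a) ≤ Y then Ψ g else 0‖ ≤
              Y / sn Lg s * (Real.log Y)⁻¹) →
      ‖∑ g ∈ Fintype.piFinset (fun _ : J => GF D Y),
        if ∏ a, nr (g a) ≤ Y then Ψ g else 0‖ ≤
        C * Y * Real.log Y ^ (N - 1) * Real.log Y ^ (-(1 / 2) : ℝ) := by
  obtain ⟨C1, hC1, htn⟩ := tn_le_one K (J := J)
  obtain ⟨C2, hC2, hsm⟩ := smf_sum K (J := J) (af_inv K)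
  obtain ⟨C0', hC0', haf'⟩ := af_card K
  obtain ⟨C0, hC0⟩ : ∃ C0 : ℝ, C0 = max C0' 1 := ⟨_, rfl⟩
  have hC01 : 1 ≤ C0 := by rw [hC0]; exact le_max_right _ _
  have haf : ∀ y : ℝ, 1 ≤ y → ((AF K y).card : ℝ) ≤ C0 * y := by
    intro y hy
    refine (haf' y hy).trans (mul_le_mul_of_nonneg_right ?_ (by linarith))
    rw [hC0]
    exact le_max_left _ _
  obtain ⟨B, hB⟩ : ∃ B : ℕ, B = max 2 B₁ := ⟨_, rfl⟩
  have hB2 : 2 ≤ B := by rw [hB]; exact le_max_left _ _
  have hBa : B₁ ≤ B := by rw [hB]; exact le_max_right _ _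
  obtain ⟨A', hA'⟩ : ∃ A' : ℕ, A' = max A 1 := ⟨_, rfl⟩
  have hA'A : A ≤ A' := by rw [hA']; exact le_max_left _ _
  have hA'1 : 1 ≤ A' := by rw [hA']; exact le_max_right _ _
  obtain ⟨n, hn⟩ : ∃ n : ℕ, n = Fintype.card J := ⟨_, rfl⟩
  obtain ⟨X₀, hX₀3, hlarge⟩ := aup_large (A' * B ^ n) (n * 2) C0 hC01
  refine ⟨((n : ℝ) + 1) * 2 ^ n * ((1 + C1) * C2 * 2 ^ (N - 1) + 1), X₀, by positivity,
    hX₀3, fun Y hY Ψ hΨ hyp => ?_⟩
  have hY3 : 3 ≤ Y := hX₀3.trans hY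
  have hY0 : 0 < Y := by linarith
  have hL1 : 1 ≤ Real.log Y := by
    rw [Real.le_log_iff_exp_le hY0]
    linarith [Real.exp_one_lt_d9]
  obtain ⟨L, hL⟩ : ∃ L : ℝ, L = Real.log Y := ⟨_, rfl⟩
  obtain ⟨hl1, hl2, hl3⟩ := hlarge Y hY
  have hLY : L ≤ Y := by
    rw [hL]
    exact (Real.log_le_sub_one_of_pos hY0).trans (by linarith)
  rw [← hL] at hl1 hl2 hl3 hL1 hyp
  have hL0 : 0 < L := by linarith
  -- the square root of `L`
  obtain ⟨q, hq⟩ : ∃ q : ℝ, q = Real.sqrt L := ⟨_, rfl⟩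
  have hq0 : 0 < q := by rw [hq]; exact Real.sqrt_pos.2 hL0
  have hqq : q * q = L := by rw [hq]; exact Real.mul_self_sqrt hL0.le
  have hq1 : 1 ≤ q := by rw [hq]; exact Real.one_le_sqrt.2 hL1
  have hLq : L ^ (-(1 / 2) : ℝ) = q⁻¹ := by
    rw [Real.rpow_neg hL0.le, hq, Real.sqrt_eq_rpow]
  have hqY : q ≤ Real.sqrt Y := by
    rw [hq]
    exact Real.sqrt_le_sqrt hLY
  obtain ⟨z, hz⟩ : ∃ z : ℕ → ℝ, z = fun j => L ^ (A' * B ^ j) := ⟨_, rfl⟩
  have hzj : ∀ j, z j = L ^ (A' * B ^ j) := fun j => by rw [hz]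
  have hzm : Monotone z := by
    intro i j hij
    rw [hzj, hzj]
    exact pow_le_pow_right₀ hL1 (Nat.mul_le_mul_left _ (Nat.pow_le_pow_right (by omega) hij))
  have hz1 : ∀ j, 1 ≤ z j := fun j => by rw [hzj]; exact one_le_pow₀ hL1
  have hzX : ∀ j, j ≤ Fintype.card J → z j ≤ Y := by
    intro j hj
    refine (hzm hj).trans ?_
    rw [hzj, ← hn]
    exact hl1
  have hzs : ∀ j, z (j + 1) = z j ^ B := by
    intro j
    rw [hzj, hzj, ← pow_mul, pow_succ, mul_assoc]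
  have hzB : ∀ j, z j ^ B₁ ≤ z (j + 1) := by
    intro j
    rw [hzs]
    exact pow_le_pow_right₀ (hz1 j) hBa
  have hLz : ∀ j, L ^ B₁ ≤ z (j + 1) := by
    intro j
    rw [hzj]
    refine pow_le_pow_right₀ hL1 (hBa.trans ?_)
    calc B = 1 * B ^ 1 := by ring
      _ ≤ A' * B ^ (j + 1) := Nat.mul_le_mul hA'1 (Nat.pow_le_pow_right (by omega) (by omega))
  have hEz : ∀ j, L ^ A ≤ z j := by
    intro j
    rw [hzj]
    refine pow_le_pow_right₀ hL1 (hA'A.trans ?_)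
    exact Nat.le_mul_of_pos_right _ (Nat.pow_pos (by omega))
  obtain ⟨U, hU⟩ : ∃ U : ℝ, U = (1 + C1) * Y * (1 + L) ^ (N - 1) / L := ⟨_, rfl⟩
  have h1L : 1 ≤ (1 + L) ^ (N - 1) := one_le_pow₀ (by linarith)
  have hU0 : 0 ≤ U := by rw [hU]; positivity
  have hblock : ∀ (j : ℕ) (Lg : Finset J), ∀ s ∈ SmF D z j Lg,
      ‖∑ g ∈ Fintype.piFinset (fun a => if a ∈ Lg then GF D Y else {s a}),
      if ∀ a ∈ Lg, z (j + 1) < nr (g a) then
        (if ∏ a, nr (g a) ≤ Y then Ψ g else 0) else 0‖ ≤ U * (sn Lg s)⁻¹ + 1 := by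
    intro j Lg s hs
    have hcomb : ∀ g : J → Finset (Pl K), (if ∀ a ∈ Lg, z (j + 1) < nr (g a) then
        (if ∏ a, nr (g a) ≤ Y then Ψ g else 0) else 0) =
        if (∀ a ∈ Lg, z (j + 1) < nr (g a)) ∧ ∏ a, nr (g a) ≤ Y then Ψ g else 0 := by
      intro g
      by_cases h1 : ∀ a ∈ Lg, z (j + 1) < nr (g a)
      · rw [if_pos h1]
        by_cases h2 : ∏ a, nr (g a) ≤ Y
        · rw [if_pos h2, if_pos ⟨h1, h2⟩]
        · rw [if_neg h2, if_neg (fun h => h2 h.2)]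
      · rw [if_neg h1, if_neg (fun h => h1 h.1)]
    rw [Finset.sum_congr rfl fun g _ => hcomb g]
    have hsn : 1 ≤ sn Lg s := by
      rw [sn]
      calc (1 : ℝ) = ∏ a ∈ Finset.univ.filter (fun a => a ∉ Lg), (1 : ℝ) :=
            (Finset.prod_const_one).symm
        _ ≤ _ := Finset.prod_le_prod (fun _ _ => zero_le_one) fun a _ => one_le_nr _
    have hsn0 : 0 < sn Lg s := by linarith
    have hUs : 0 ≤ U * (sn Lg s)⁻¹ := mul_nonneg hU0 (inv_nonneg.2 hsn0.le)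
    rw [SmF, Finset.mem_filter, Fintype.mem_piFinset] at hs
    have hs1 : ∀ l, l ∉ Lg → (∀ v ∈ s l, D.Gd v) ∧ nr (s l) ≤ z j := by
      intro l hl
      have := hs.1 l
      rw [if_neg hl, GF, Finset.mem_filter, mem_AF] at this
      exact ⟨this.2, this.1⟩
    have hs2 : ∀ l ∈ Lg, s l = ∅ := by
      intro l hl
      have := hs.1 l
      rw [if_pos hl, Finset.mem_singleton] at this
      exact this
    rcases hyp (z j) (z (j + 1)) (hz1 j) (hzB j) (hLz j) (hEz j) Lg s hs2 hs1 with hc | hc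
    · rcases Finset.eq_empty_or_nonempty Lg with hLe | hLn
      · rw [hLe] at hUs ⊢
        have := ablk_one D Y (z (j + 1)) Ψ hΨ s
        linarith
      · have h4 := (ablk_card D Y (z (j + 1)) Ψ hΨ Lg s).trans
          (htn Lg s Y Y (by linarith) hY0 le_rfl hLn)
        rw [← hL] at h4
        have h5 : (1 + L) ^ (Lg.card - 1) * L ≤ (1 + L) ^ (N - 1) := by
          have h6 : Lg.card - 1 + 1 ≤ N - 1 := by
            have := Finset.Nonempty.card_pos hLn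
            omega
          calc (1 + L) ^ (Lg.card - 1) * L ≤ (1 + L) ^ (Lg.card - 1) * (1 + L) :=
                mul_le_mul_of_nonneg_left (by linarith) (by positivity)
            _ = (1 + L) ^ (Lg.card - 1 + 1) := (pow_succ _ _).symm
            _ ≤ _ := pow_le_pow_right₀ (by linarith) h6
        have h6 : C1 * Y / sn Lg s * (1 + L) ^ (Lg.card - 1) ≤ U * (sn Lg s)⁻¹ := by
          have h7 : C1 * Y / sn Lg s * (1 + L) ^ (Lg.card - 1) =
              (C1 * Y * (1 + L) ^ (Lg.card - 1)) * (sn Lg s)⁻¹ := by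
            field_simp
          rw [h7, hU]
          refine mul_le_mul_of_nonneg_right ?_ (inv_nonneg.2 hsn0.le)
          rw [le_div_iff₀ hL0]
          have h8 : C1 * Y * ((1 + L) ^ (Lg.card - 1) * L) ≤ C1 * Y * (1 + L) ^ (N - 1) :=
            mul_le_mul_of_nonneg_left h5 (by positivity)
          have h9 : 0 ≤ Y * (1 + L) ^ (N - 1) := by positivity
          linarith
        linarith
    · have h2 : Y / sn Lg s * L⁻¹ = (Y / L) * (sn Lg s)⁻¹ := by
        field_simp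
      rw [h2] at hc
      have h3 : (Y / L) * (sn Lg s)⁻¹ ≤ U * (sn Lg s)⁻¹ := by
        refine mul_le_mul_of_nonneg_right ?_ (inv_nonneg.2 hsn0.le)
        rw [hU]
        apply div_le_div_of_nonneg_right _ hL0.le
        have h3 : 1 * Y * 1 ≤ (1 + C1) * Y * (1 + L) ^ (N - 1) :=
          mul_le_mul (mul_le_mul_of_nonneg_right (by linarith) hY0.le) h1L zero_le_one
            (by positivity)
        linarith
      linarith
  obtain ⟨W, hW⟩ : ∃ W : ℝ, W = ((1 + C1) * C2 * 2 ^ (N - 1) + 1) * (Y * L ^ (N - 1) * q⁻¹) :=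
    ⟨_, rfl⟩
  have hLN : 1 ≤ L ^ (N - 1) := one_le_pow₀ hL1
  have hsum : ∀ (j : ℕ), j ≤ n → ∀ (Lg : Finset J),
      ∑ s ∈ SmF D z j Lg, (U * (sn Lg s)⁻¹ + 1) ≤ W := by
    intro j hj Lg
    rw [Finset.sum_add_distrib, ← Finset.mul_sum]
    have h1 : ∑ s ∈ SmF D z j Lg, (sn Lg s)⁻¹ ≤ C2 * q := by
      have h2 := hsm p ζ D z j Lg (hz1 j)
      have h3 : (1 + Real.log (z j)) ^ Fintype.card J ≤ q := by
        have h4 : z j ≤ L ^ (A' * B ^ n) := by
          rw [← hzj]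
          exact hzm hj
        have h5 := Real.log_le_log (by linarith [hz1 j]) h4
        have h6 : (1 + Real.log (z j)) ^ n ≤ (1 + Real.log (L ^ (A' * B ^ n))) ^ n :=
          pow_le_pow_left₀ (by linarith [Real.log_nonneg (hz1 j)]) (by linarith) n
        rw [← hn, hq]
        refine h6.trans ((le_abs_self _).trans (Real.abs_le_sqrt ?_))
        rw [← pow_mul]
        exact hl2
      exact h2.trans (mul_le_mul_of_nonneg_left h3 hC2.le)
    have h3 : ∑ s ∈ SmF D z j Lg, (1 : ℝ) ≤ Real.sqrt Y := by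
      rw [Finset.sum_const, nsmul_eq_mul, mul_one]
      refine le_trans ?_ hl3
      have h4 : ((SmF D z j Lg).card : ℝ) ≤
          ((Fintype.piFinset fun a => if a ∈ Lg then {∅} else GF D (z j)).card : ℝ) := by
        exact_mod_cast Finset.card_le_card (Finset.filter_subset _ _)
      refine h4.trans ?_
      rw [Fintype.card_piFinset]
      push_cast
      have h7 : 1 ≤ C0 * L ^ (A' * B ^ n) :=
        one_le_mul_of_one_le_of_one_le hC01 (one_le_pow₀ hL1)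
      have h5 : ∀ a ∈ (Finset.univ : Finset J),
          (((if a ∈ Lg then {∅} else GF D (z j)).card : ℕ) : ℝ) ≤
            C0 * L ^ (A' * B ^ n) := by
        intro a _
        by_cases ha : a ∈ Lg
        · rw [if_pos ha, Finset.card_singleton, Nat.cast_one]
          exact h7
        · rw [if_neg ha]
          have h8 : ((GF D (z j)).card : ℝ) ≤ ((AF K (z j)).card : ℝ) := by
            exact_mod_cast Finset.card_le_card (Finset.filter_subset _ _)
          have h9 : z j ≤ L ^ (A' * B ^ n) := by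
            rw [← hzj]
            exact hzm hj
          exact (h8.trans (haf _ (hz1 j))).trans
            (mul_le_mul_of_nonneg_left h9 (by linarith))
      refine (Finset.prod_le_prod (fun _ _ => Nat.cast_nonneg _) h5).trans ?_
      rw [Finset.prod_const, Finset.card_univ, ← hn]
      exact pow_le_pow_right₀ h7 (by omega)
    have h4 : U * ∑ s ∈ SmF D z j Lg, (sn Lg s)⁻¹ ≤ U * (C2 * q) :=
      mul_le_mul_of_nonneg_left h1 hU0
    have h5 : U * (C2 * q) = (1 + C1) * C2 * (Y * (1 + L) ^ (N - 1) * q⁻¹) := by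
      rw [hU, ← hqq]
      field_simp
    have h6 : Y * (1 + L) ^ (N - 1) * q⁻¹ ≤ 2 ^ (N - 1) * (Y * L ^ (N - 1) * q⁻¹) := by
      have h7 : (1 + L) ^ (N - 1) ≤ 2 ^ (N - 1) * L ^ (N - 1) := by
        rw [← mul_pow]
        exact pow_le_pow_left₀ (by linarith) (by linarith) _
      have h8 : 0 ≤ Y * q⁻¹ := by positivity
      have h9 := mul_le_mul_of_nonneg_left h7 h8
      calc Y * (1 + L) ^ (N - 1) * q⁻¹ = Y * q⁻¹ * (1 + L) ^ (N - 1) := by ring
        _ ≤ Y * q⁻¹ * (2 ^ (N - 1) * L ^ (N - 1)) := h9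
        _ = _ := by ring
    have h7 : Real.sqrt Y ≤ Y * L ^ (N - 1) * q⁻¹ := by
      have h8 : Real.sqrt Y * q ≤ Y := by
        calc Real.sqrt Y * q ≤ Real.sqrt Y * Real.sqrt Y :=
              mul_le_mul_of_nonneg_left hqY (Real.sqrt_nonneg _)
          _ = Y := Real.mul_self_sqrt hY0.le
      rw [← div_eq_mul_inv, le_div_iff₀ hq0]
      exact h8.trans (le_mul_of_one_le_right hY0.le hLN)
    have h8 : (1 + C1) * C2 * (Y * (1 + L) ^ (N - 1) * q⁻¹) ≤
        (1 + C1) * C2 * (2 ^ (N - 1) * (Y * L ^ (N - 1) * q⁻¹)) :=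
      mul_le_mul_of_nonneg_left h6 (by positivity)
    rw [hW]
    linarith
  rw [athr D z hzm Y hzX, ← hL, hLq]
  have htot : ∀ j ∈ Finset.range (Fintype.card J + 1), ∀ Lg ∈ (Finset.univ : Finset (Finset J)),
      ‖∑ s ∈ SmF D z j Lg,
        ∑ g ∈ Fintype.piFinset (fun a => if a ∈ Lg then GF D Y else {s a}),
        if ∀ a ∈ Lg, z (j + 1) < nr (g a) then
        (if ∏ a, nr (g a) ≤ Y then Ψ g else 0) else 0‖ ≤ W := by
    intro j hj Lg _
    refine (norm_sum_le _ _).trans ((Finset.sum_le_sum fun s hs => hblock j Lg s hs).trans ?_)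
    apply hsum j
    rw [Finset.mem_range] at hj
    omega
  refine (norm_sum_le _ _).trans ((Finset.sum_le_card_nsmul _ _ (2 ^ n * W) fun j hj => ?_).trans ?_)
  · refine (norm_sum_le _ _).trans ((Finset.sum_le_card_nsmul _ _ W (htot j hj)).trans ?_)
    rw [Finset.card_univ, Fintype.card_finset, nsmul_eq_mul, ← hn]
    push_cast
    exact le_rfl
  · rw [Finset.card_range, nsmul_eq_mul, ← hn, hW]
    push_cast
    refine le_of_eq ?_
    ring

end H38.BB
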