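import Pool.Agent.H38.BB.CExp
import Pool.Agent.H38.BB.ABlk
import Pool.Agent.H63.MB.BKM

/-!
# [H38 BB CPSI] main terms twisted by class characters, 180-260 lines

`b` of order `0` outside `S0`, `Sp0 c b`, `Δ_i = Θ_i ∩ L0`, `UW ψ Y = ∑_f ep(∑_i ψ_i · qf (f i)) ∏_i ∏_{v ∈ f i} #Δ_i [Δ_i · (LL v (b k))_k = 0]`. `psi`: either `UW ψ = UW 0` or `UW ψ` is small.

Proof. By `aph_rec2` with `E = ∅` choose for `δ ∈ (ZMod p)^m` a `κ δ ∈ (ZMod p)^r` with `δ · (LL v (b k))_k = κ δ · q v` for all good `v`. Let `A_i` be the statement: there is `δ ∈ Δ_i` with `ψ_i · q v = δ · (LL v (b k))_k` for all good `v`.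
* If `A_i` holds for all `i`: for a family `f` with nonzero weight, `δ_i · (LL v (b k))_k = 0` for `v ∈ f i`, so `ψ_i · qf (f i) = 0`: the terms of `UW ψ` and `UW 0` agree.
* Suppose `A_{i₀}` fails. Expand (`rx_char`, `rx_inner` for the class data `c.del` and `S = univ`, as in `sw_rw`): `UW ψ Y = ∑_g ep(∑_a (ψ_{a.1} + κ θ_a) · qf (g a))`, the sum over the pairwise disjoint `g : c.del.J → GF Y`, `∏ nr (g a) ≤ Y`. Put `χ a = ψ_{a.1} + κ θ_a`. Apply `ablk` to `J = c.del.J`, `Ψ g = [Dj g] ep(∑_a χ a · qf (g a))`, `A = 0`.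
  Let `(Lg, s)` be a block. If `χ a ≠ 0` for some `a ∈ Lg`: the sum over `g a` is small: `bkm_outer` (`MB/BKM`; `E = ∅`, `t = 1`, constants of `lemA` and `ks`) with `Ψ' g = ep(∑_a χ a · qf (g a))`; its hypothesis `BkmPhase` holds with `μ = 0`, `κ = χ a ≠ 0`, `H = 1` (`fE … 0 κ v = κ · q v`, `aph_dt_qf`); then `akb_num` gives `≤ Y / sn / log Y` if `B₁` is large (exactly as in
  `kpm2`, `kpb2`).
  Otherwise `χ a = 0` for all `a ∈ Lg`, so `ψ_{a.1} · q v = -κ θ_a · q v = (-θ_a) · (LL v (b k))_k` for all good `v` and `-θ_a ∈ Δ_{a.1}`: `A_{a.1}` holds, so `a.1 ≠ i₀`. If `a, a' ∈ Lg` are in the same class then `(θ_a - θ_{a'}) · (LL v (b k))_k = 0` for all good `v`, i.e. `LL v (bp b (θ_a - θ_{a'})) = 0` (`aph_bp`); by `D.non` (`F = ∅`) `bp b (θ_a - θ_{a'})` is a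
  `p`-th power, so `θ_a = θ_{a'}` by `Sp0` (`θ_a - θ_{a'} ∈ L0`). So `a ↦ a.1` is injective on `Lg` and omits `i₀`: `#Lg < N`.
-/

set_option autoImplicit false

open scoped NumberField
open IsDedekindDomain
open scoped Classical

noncomputable section

namespace H38.BB

open H63.MA

variable {K : Type} [Field K] [NumberField K] {p : ℕ} {ζ : K} {m N : ℕ}

/-- the main term twisted by class characters -/
def UW (D : RD0 K p ζ) (c : CR p m N) (b : Fin m → Kˣ) (ψ : Fin N → Fin D.r → ZMod p) (Y : ℝ) :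
    ℂ :=
  ∑ f ∈ Fintype.piFinset (fun _ : Fin N => GF D Y),
    if Dj f ∧ ∏ i, nr (f i) ≤ Y then
      ep p (∑ i, dt (ψ i) (qf D (f i))) * ((wtR c.del f (fun v k => D.LL v (b k)) : ℝ) : ℂ)
    else 0

/-- exchange of the sums over the families and the refined families -/
theorem psi_ex [NeZero p] (D : RD0 K p ζ) (c : CR p m N) (T : (c.J → Finset (Pl K)) → ℂ) (Y : ℝ) :
    ∑ f ∈ Fintype.piFinset (fun _ : Fin N => GF D Y),
      (if Dj f ∧ ∏ i, nr (f i) ≤ Y then
        ∑ g ∈ (Fintype.piFinset (fun _ : c.J => GF D Y)).filter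
          (fun g => Dj g ∧ unR c g = f ∧ sup g ⊆ Finset.univ), T g else 0) =
    ∑ g ∈ Fintype.piFinset (fun _ : c.J => GF D Y),
      if ∏ a, nr (g a) ≤ Y then (if Dj g then T g else 0) else 0 := by
  have h1 : ∀ f ∈ Fintype.piFinset (fun _ : Fin N => GF D Y),
      (if Dj f ∧ ∏ i, nr (f i) ≤ Y then
        ∑ g ∈ (Fintype.piFinset (fun _ : c.J => GF D Y)).filter
          (fun g => Dj g ∧ unR c g = f ∧ sup g ⊆ Finset.univ), T g else 0) =
      ∑ g ∈ Fintype.piFinset (fun _ : c.J => GF D Y),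
        if f = unR c g then (if ∏ a, nr (g a) ≤ Y then (if Dj g then T g else 0) else 0)
        else 0 := by
    intro f _
    split_ifs with h
    · rw [Finset.sum_filter]
      apply Finset.sum_congr rfl
      intro g _
      by_cases hf : f = unR c g
      · by_cases hg : Dj g
        · have h2 : ∏ a, nr (g a) ≤ Y := by
            rw [← rx_nr c g hg, ← hf]
            exact h.2
          rw [if_pos ⟨hg, hf.symm, Finset.subset_univ _⟩, if_pos hf, if_pos h2, if_pos hg]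
        · rw [if_neg (fun hc => hg hc.1), if_pos hf, if_neg hg]
          split_ifs <;> rfl
      · rw [if_neg (fun hc => hf hc.2.1.symm), if_neg hf]
    · symm
      apply Finset.sum_eq_zero
      intro g _
      by_cases hf : f = unR c g
      · rw [if_pos hf]
        by_cases hg : Dj g
        · rw [if_neg]
          intro h2
          apply h
          rw [hf]
          refine ⟨rx_dj hg, ?_⟩
          rw [rx_nr c g hg]
          exact h2
        · rw [if_neg hg]
          split_ifs <;> rfl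
      · rw [if_neg hf]
  rw [Finset.sum_congr rfl h1, Finset.sum_comm]
  apply Finset.sum_congr rfl
  intro g hg
  rw [Fintype.mem_piFinset] at hg
  by_cases hmem : unR c g ∈ Fintype.piFinset (fun _ : Fin N => GF D Y)
  · rw [Finset.sum_ite_eq' , if_pos hmem]
  · rw [Finset.sum_ite_eq', if_neg hmem]
    by_cases hY : ∏ a, nr (g a) ≤ Y
    · by_cases hd : Dj g
      · exfalso
        apply hmem
        rw [Fintype.mem_piFinset]
        intro i
        rw [akb_mem_GF]
        constructor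
        · refine le_trans ?_ hY
          rw [← rx_nr c g hd]
          have h2 : ∀ j ∈ Finset.univ, (1 : ℝ) ≤ nr (unR c g j) := fun j _ => one_le_nr _
          rw [← Finset.mul_prod_erase Finset.univ _ (Finset.mem_univ i)]
          refine le_mul_of_one_le_right (zero_le_one.trans (one_le_nr _)) ?_
          exact Finset.prod_induction _ (fun x : ℝ => 1 ≤ x)
            (fun _ _ ha hb => one_le_mul_of_one_le_of_one_le ha hb) le_rfl
            (fun j _ => one_le_nr _)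
        · intro v hv
          obtain ⟨a, _, hva⟩ := rx_mem.1 hv
          exact ((akb_mem_GF D).1 (hg a)).2 v hva
      · rw [if_neg hd]
        split_ifs <;> rfl
    · rw [if_neg hY]

theorem psi_dt_neg {r : ℕ} (x y : Fin r → ZMod p) : dt (-x) y = -dt x y := by
  unfold dt
  rw [← Finset.sum_neg_distrib]
  exact Finset.sum_congr rfl fun i _ => by rw [Pi.neg_apply, neg_mul]

theorem psi_dt_sub {r : ℕ} (x x' y : Fin r → ZMod p) : dt (x - x') y = dt x y - dt x' y := by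
  unfold dt
  rw [← Finset.sum_sub_distrib]
  exact Finset.sum_congr rfl fun i _ => by rw [Pi.sub_apply, sub_mul]

theorem psi_dt_add {r : ℕ} (x x' y : Fin r → ZMod p) : dt (x + x') y = dt x y + dt x' y := by
  unfold dt
  rw [← Finset.sum_add_distrib]
  exact Finset.sum_congr rfl fun i _ => by rw [Pi.add_apply, add_mul]

theorem psi_dt_sum {r : ℕ} {ι : Type} (s : Finset ι) (x : Fin r → ZMod p)
    (y : ι → Fin r → ZMod p) : dt x (∑ i ∈ s, y i) = ∑ i ∈ s, dt x (y i) := by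
  unfold dt
  rw [Finset.sum_comm]
  refine Finset.sum_congr rfl fun i _ => ?_
  rw [Finset.sum_apply, Finset.mul_sum]

theorem psi_sum_sigma [NeZero p] {M : Type} [AddCommMonoid M] (c : CR p m N) (F : c.J → M) :
    ∑ a : c.J, F a = ∑ i : Fin N, ∑ θ : {θ : Fin m → ZMod p // θ ∈ c.Θ i}, F ⟨i, θ⟩ :=
  Fintype.sum_sigma F

/-- the twisted main term as a sum over refined families -/
theorem psi_rw [NeZero p] (hp : p.Prime) (D : RD K p ζ) (c : CR p m N) (b : Fin m → Kˣ)
    (κ : (Fin m → ZMod p) → Fin D.r → ZMod p)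
    (hκ : ∀ θ v, D.Gd v → dt θ (fun k => D.LL v (b k)) = dt (κ θ) (D.q v))
    (ψ : Fin N → Fin D.r → ZMod p) (Y : ℝ) :
    ∑ f ∈ Fintype.piFinset (fun _ : Fin N => GF D.toRD0 Y),
      (if Dj f ∧ ∏ i, nr (f i) ≤ Y then
        ep p (∑ i, dt (ψ i) (qf D.toRD0 (f i))) *
          ((wtR c f (fun v k => D.LL v (b k)) : ℝ) : ℂ)
      else 0) =
    ∑ g ∈ Fintype.piFinset (fun _ : c.J => GF D.toRD0 Y),
      if ∏ a, nr (g a) ≤ Y then
        (if Dj g then ep p (∑ a, dt (ψ a.1 + κ a.2.1) (qf D.toRD0 (g a))) else 0) else 0 := by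
  rw [← psi_ex D.toRD0 c (fun g => ep p (∑ a, dt (ψ a.1 + κ a.2.1) (qf D.toRD0 (g a)))) Y]
  apply Finset.sum_congr rfl
  intro f hf
  rw [Fintype.mem_piFinset] at hf
  by_cases h : Dj f ∧ ∏ i, nr (f i) ≤ Y
  swap
  · rw [if_neg h, if_neg h]
  rw [if_pos h, if_pos h]
  have h1 : ((wtR c f (fun v k => D.LL v (b k)) : ℝ) : ℂ) =
      ∏ i, ∏ v ∈ f i, ∑ a ∈ Finset.univ.filter (fun a : c.J => a.1 = i),
        ep p (dt (c.pd.θ a) (fun k => D.LL v (b k))) := by
    unfold wtR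
    rw [Complex.ofReal_prod]
    apply Finset.prod_congr rfl
    intro i _
    rw [Complex.ofReal_prod]
    apply Finset.prod_congr rfl
    intro v _
    refine Eq.trans (by congr) ((rx_char hp (c.Θ i) (fun k => D.LL v (b k))).trans ?_)
    symm
    rw [Finset.sum_filter, psi_sum_sigma, Finset.sum_eq_single i]
    · apply Finset.sum_congr rfl
      intro θ _
      rw [if_pos rfl]
      rfl
    · intro j _ hj
      apply Finset.sum_eq_zero
      intro θ _
      rw [if_neg]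
      exact hj
    · intro hi
      exact absurd (Finset.mem_univ _) hi
  rw [h1, rx_inner hp D.toRD0 c Finset.univ Y f hf h.1 (fun v k => D.LL v (b k)),
    Finset.mul_sum]
  apply Finset.sum_congr rfl
  intro g hg
  rw [Finset.mem_filter, Fintype.mem_piFinset] at hg
  obtain ⟨hg1, hg2, hg3, _⟩ := hg
  rw [← ep_add hp]
  congr 1
  have e1 : ∀ i, dt (ψ i) (qf D.toRD0 (f i)) =
      ∑ θ : {θ : Fin m → ZMod p // θ ∈ c.Θ i}, dt (ψ i) (qf D.toRD0 (g ⟨i, θ⟩)) := by
    intro i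
    rw [← hg3, rx_qf D.toRD0 c g hg2 i]
    unfold clR
    exact psi_dt_sum _ _ _
  have e2 : ∀ a : c.J, ∑ v ∈ g a, dt (c.pd.θ a) (fun k => D.LL v (b k)) =
      dt (κ a.2.1) (qf D.toRD0 (g a)) := by
    intro a
    rw [← aph_dt_qf]
    apply Finset.sum_congr rfl
    intro v hv
    exact hκ _ v (((akb_mem_GF D.toRD0).1 (hg1 a)).2 v hv)
  rw [Finset.sum_congr rfl fun i _ => e1 i, Finset.sum_congr rfl fun a _ => e2 a,
    ← psi_sum_sigma c (fun a : c.J => dt (ψ a.1) (qf D.toRD0 (g a))), ← Finset.sum_add_distrib]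
  apply Finset.sum_congr rfl
  intro a _
  rw [psi_dt_add]

theorem psi [NeZero p] (hp : p.Prime) (hζ : IsPrimitiveRoot ζ p) (D : RD K p ζ) (c : CR p m N)
    (hN : 1 ≤ N) (b : Fin m → Kˣ) (hb : BS2 D.toRD0 b ∅) (h0 : Sp0 c b)
    (ψ : Fin N → Fin D.r → ZMod p) :
    (∀ Y : ℝ, UW D.toRD0 c b ψ Y = UW D.toRD0 c b 0 Y) ∨
      ∃ C X₀ : ℝ, 0 < C ∧ 3 ≤ X₀ ∧ ∀ Y : ℝ, X₀ ≤ Y →
        ‖UW D.toRD0 c b ψ Y‖ ≤ C * Y * Real.log Y ^ (N - 1) * Real.log Y ^ (-(1 / 2) : ℝ) := by
  have hrec : ∀ θ : Fin m → ZMod p, ∃ κ : Fin D.r → ZMod p, ∀ v, D.Gd v →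
      dt θ (fun k => D.LL v (b k)) = dt κ (D.q v) := by
    intro θ
    obtain ⟨κ, hκ⟩ := aph_rec2 D b ∅ hb θ
    refine ⟨κ, fun v hv => ?_⟩
    rw [hκ v hv, Finset.sum_empty, zero_add]
  choose κ hκ using hrec
  by_cases hA : ∀ i, ∃ δ ∈ c.del.Θ i, ∀ v, D.Gd v →
      dt (ψ i) (D.q v) = dt δ (fun k => D.LL v (b k))
  · left
    intro Y
    unfold UW
    apply Finset.sum_congr rfl
    intro f hf
    rw [Fintype.mem_piFinset] at hf
    by_cases h : Dj f ∧ ∏ i, nr (f i) ≤ Y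
    swap
    · rw [if_neg h, if_neg h]
    rw [if_pos h, if_pos h]
    by_cases hw : wtR c.del f (fun v k => D.LL v (b k)) = 0
    · rw [hw, Complex.ofReal_zero, mul_zero, mul_zero]
    congr 2
    apply Finset.sum_congr rfl
    intro i _
    have e0 : dt ((0 : Fin N → Fin D.r → ZMod p) i) (qf D.toRD0 (f i)) = 0 := by
      unfold dt
      simp
    rw [e0]
    obtain ⟨δ, hδ, hδv⟩ := hA i
    rw [← aph_dt_qf]
    apply Finset.sum_eq_zero
    intro v hv
    rw [hδv v (((akb_mem_GF D.toRD0).1 (hf i)).2 v hv)]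
    by_contra hne
    apply hw
    unfold wtR
    apply Finset.prod_eq_zero (Finset.mem_univ i)
    apply Finset.prod_eq_zero hv
    rw [if_neg]
    intro hall
    exact hne (hall δ hδ)
  right
  obtain ⟨i₀, hi₀⟩ := not_forall.1 hA
  obtain ⟨C₁, A₁, δ, hC₁, hA₁, hδ, hδ1, hlem⟩ := lemA hp hζ D
  obtain ⟨blk, hblk⟩ : ∃ blk : c.del.J → Fin 1, blk = fun _ => 0 := ⟨_, rfl⟩
  obtain ⟨C₂, A₂, hC₂, hA₂, hks⟩ := ks K blk
  obtain ⟨B₁, X₁, hX₁, hnum⟩ := akb_num (2 * C₁ * C₂)
    (((Fintype.card c.del.J : ℝ) + 1) * (A₁ + 1)) A₂ δ 1 (by positivity) (by positivity) hA₂ hδ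
  obtain ⟨C, X₀, hC, hX₀, hmain⟩ := ablk D.toRD0 (J := c.del.J) N hN B₁ 0
  refine ⟨C, max X₀ X₁, hC, hX₀.trans (le_max_left _ _), ?_⟩
  intro Y hY
  have hY0 : X₀ ≤ Y := (le_max_left _ _).trans hY
  have hY1 : X₁ ≤ Y := (le_max_right _ _).trans hY
  have hY3 : 3 ≤ Y := hX₀.trans hY0
  obtain ⟨χ, hχ⟩ : ∃ χ : c.del.J → Fin D.r → ZMod p, ∀ a, χ a = ψ a.1 + κ a.2.1 :=
    ⟨_, fun _ => rfl⟩
  obtain ⟨Φ, hΦ⟩ : ∃ Φ : (c.del.J → Finset (Pl K)) → ℂ, ∀ g, Φ g =
      ep p (∑ a, dt (χ a) (qf D.toRD0 (g a))) := ⟨_, fun _ => rfl⟩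
  obtain ⟨Ψ, hΨ⟩ : ∃ Ψ : (c.del.J → Finset (Pl K)) → ℂ, ∀ g, Ψ g =
      if Dj g then Φ g else 0 := ⟨_, fun _ => rfl⟩
  have hUW : UW D.toRD0 c b ψ Y = ∑ g ∈ Fintype.piFinset (fun _ : c.del.J => GF D.toRD0 Y),
      if ∏ a, nr (g a) ≤ Y then Ψ g else 0 := by
    unfold UW
    rw [psi_rw hp D c.del b κ hκ ψ Y]
    apply Finset.sum_congr rfl
    intro g _
    rw [hΨ, hΦ]
    simp only [hχ]
  rw [hUW]
  have hΨ1 : ∀ g, ‖Ψ g‖ ≤ 1 := by
    intro g
    rw [hΨ]
    split_ifs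
    · rw [hΦ, ep_norm]
    · rw [norm_zero]
      exact zero_le_one
  refine hmain Y hY0 Ψ hΨ1 ?_
  intro z₁ z₂ hz₁ hB1 hB2 _ Lg s hsL hs
  by_cases hex : ∃ a ∈ Lg, χ a ≠ 0
  · right
    obtain ⟨a, ha, hχa⟩ := hex
    have hz₂ : 1 ≤ z₂ := (one_le_pow₀ hz₁).trans hB1
    have hsum : ∑ g ∈ Fintype.piFinset (fun a => if a ∈ Lg then GF D.toRD0 Y else {s a}),
        (if (∀ a ∈ Lg, z₂ < nr (g a)) ∧ ∏ a, nr (g a) ≤ Y then Ψ g else 0) =
        ∑ g ∈ Fintype.piFinset (fun a => if a ∈ Lg then GF D.toRD0 Y else {s a}),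
        (if Cond2 ∅ blk (fun _ => Y) Lg z₂ g then Φ g else 0) := by
      apply Finset.sum_congr rfl
      intro g _
      have hiff : Cond2 ∅ blk (fun _ => Y) Lg z₂ g ↔
          ((∀ a ∈ Lg, z₂ < nr (g a)) ∧ ∏ a, nr (g a) ≤ Y) ∧ Dj g := by
        unfold Cond2 Cond
        constructor
        · rintro ⟨⟨c1, c2, c3⟩, _⟩
          refine ⟨⟨c2, ?_⟩, c1⟩
          have := c3 0
          rwa [hblk, Finset.filter_true_of_mem (fun _ _ => rfl)] at this
        · rintro ⟨⟨c2, c3⟩, c1⟩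
          refine ⟨⟨c1, c2, ?_⟩, fun _ => Finset.disjoint_empty_right _⟩
          intro i
          rw [hblk, Finset.filter_true_of_mem (fun _ _ => Subsingleton.elim _ _)]
          exact c3
      by_cases hc : Cond2 ∅ blk (fun _ => Y) Lg z₂ g
      · rw [if_pos hc, if_pos (hiff.1 hc).1, hΨ, if_pos (hiff.1 hc).2]
      · rw [if_neg hc]
        by_cases hc2 : (∀ a ∈ Lg, z₂ < nr (g a)) ∧ ∏ a, nr (g a) ≤ Y
        · rw [if_pos hc2, hΨ, if_neg]
          intro hd
          exact hc (hiff.2 ⟨hc2, hd⟩)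
        · rw [if_neg hc2]
    rw [hsum]
    have hnr0 : nr (∅ : Finset (Pl K)) ≤ z₁ := by
      have : nr (∅ : Finset (Pl K)) = 1 := by
        unfold nr
        rw [Finset.prod_empty]
      rw [this]
      exact hz₁
    have hout := bkm_outer D blk C₁ A₁ δ hC₁ hA₁ hδ hδ1 hlem C₂ A₂ hks Y z₁ z₂ (by linarith)
      hz₁ hz₂ (fun _ => Y) (fun _ => ⟨by linarith, le_rfl⟩) ∅
      (fun v hv => absurd hv (Finset.notMem_empty v)) hnr0 Lg s hs Φ a ha (by
        intro g _ _
        refine ⟨fun _ => 0, χ a, fun _ => 1,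
          ∑ l ∈ Finset.univ.erase a, dt (χ l) (qf D.toRD0 (g l)),
          fun _ => by rw [norm_one], Or.inr ⟨fun _ => rfl, hχa⟩, ?_⟩
        intro n _
        rw [hΦ, one_mul, ← ep_add hp]
        congr 1
        rw [← Finset.add_sum_erase _ _ (Finset.mem_univ a), add_comm]
        congr 1
        · apply Finset.sum_congr rfl
          intro l hl
          rw [Function.update_of_ne (Finset.ne_of_mem_erase hl)]
        · rw [Function.update_self, ← aph_dt_qf]
          apply Finset.sum_congr rfl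
          intro v _
          unfold fE dt
          simp)
    refine hout.trans ?_
    have hprod : ∏ _i : Fin 1, Y = Y := by
      rw [Finset.prod_const, Finset.card_univ, Fintype.card_fin, pow_one]
    rw [hprod]
    have hsn : 0 < sn Lg s := aks_sn_pos Lg s
    apply mul_le_mul_of_nonneg_left _ (div_nonneg (by linarith) hsn.le)
    have := hnum Y z₁ z₂ hY1 hz₁ hB1 hB2
    rwa [Real.rpow_neg_one] at this
  · left
    have hχ0 : ∀ a ∈ Lg, χ a = 0 := by
      intro a ha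
      by_contra hc
      exact hex ⟨a, ha, hc⟩
    have hkey : ∀ a ∈ Lg, ∀ v, D.Gd v →
        dt (ψ a.1) (D.q v) = -dt a.2.1 (fun k => D.LL v (b k)) := by
      intro a ha v hv
      have h1 := hχ0 a ha
      rw [hχ] at h1
      have h2 : dt (ψ a.1 + κ a.2.1) (D.q v) = 0 := by
        rw [h1]
        unfold dt
        simp
      rw [psi_dt_add, ← hκ _ v hv] at h2
      exact eq_neg_of_add_eq_zero_left h2
    have hne : ∀ a ∈ Lg, a.1 ≠ i₀ := by
      intro a ha hai
      apply hi₀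
      refine ⟨-a.2.1, ?_, ?_⟩
      · rw [← hai]
        exact Submodule.neg_mem _ a.2.2
      · intro v hv
        rw [psi_dt_neg, ← hkey a ha v hv, hai]
    have hinj : Set.InjOn (fun a : c.del.J => a.1) Lg := by
      intro a ha a' ha' haa
      have haa' : a.1 = a'.1 := haa
      have ha1 : a ∈ Lg := ha
      have ha2 : a' ∈ Lg := ha'
      have hz : ∀ v, D.Gd v → D.LL v (bp b (a.2.1 - a'.2.1)) = 0 := by
        intro v hv
        rw [aph_bp hp hζ D.toRD0 b _ hv.1, psi_dt_sub]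
        have h1 := hkey a ha1 v hv
        have h2 := hkey a' ha2 v hv
        have h3 : dt a.2.1 (fun k => D.LL v (b k)) = dt a'.2.1 (fun k => D.LL v (b k)) :=
          neg_injective (h1.symm.trans
            ((congrArg (fun i => dt (ψ i) (D.q v)) haa').trans h2))
        rw [h3, sub_self]
      have hθ : a.2.1 = a'.2.1 := by
        by_contra hθ
        have hL : a.2.1 - a'.2.1 ∈ c.L0 := c.L0.sub_mem a.2.2.2 a'.2.2.2
        obtain ⟨v, hv, _, _, hv4⟩ := D.non _ (h0 _ hL (sub_ne_zero.2 hθ)) ∅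
        exact hv4 (hz v hv)
      obtain ⟨i, θ, hθ1⟩ := a
      obtain ⟨i', θ', hθ1'⟩ := a'
      change i = i' at haa'
      subst haa'
      change θ = θ' at hθ
      subst hθ
      rfl
    have hcard : (Lg.image (fun a : c.del.J => a.1)).card = Lg.card :=
      Finset.card_image_of_injOn hinj
    have hsub : Lg.image (fun a : c.del.J => a.1) ⊆ Finset.univ.erase i₀ := by
      intro i hi
      obtain ⟨a, ha, rfl⟩ := Finset.mem_image.1 hi
      exact Finset.mem_erase.2 ⟨hne a ha, Finset.mem_univ _⟩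
    have h1 := Finset.card_le_card hsub
    rw [hcard, Finset.card_erase_of_mem (Finset.mem_univ _), Finset.card_univ,
      Fintype.card_fin] at h1
    omega

end H38.BB
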