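import Pool.Agent.H38.BB.CFld
import Pool.Agent.H38.BB.RdOf
import Pool.Agent.H63.MA.ACntB
import Pool.Agent.H63.MA.ACntC

/-!
# [H38 BB CSIN] lower bound in one variable, 150-220 lines

`sing`: for `T ≥ T₀` and `y ≥ y₁(T)`: `∑_{n} ∏_{v ∈ n} #Δ [Δ · (LL v (b k))_k = 0] ≥ c (log T)^{-3} y`, the sum over the sets `n ∈ GF D y` with all `v ∈ n` of norm `> T` and `y/2 < nr n`.

Proof. Let `M` be the field of `fld`, `ζ' = algebraMap K M ζ` (primitive), `D' : RD M p ζ'` with `S0(D')` containing the (finitely many: `over_finite`) primes of `M` over the primes of `S0(D)` (`exists_RD_of` in `BB/RdOf`). `acntb_one D'.toRD0` gives `κ, T₀`: for `T ≥ T₀`, `F = S0(D') ∪ {w : nm w ≤ T}` and `y ≥ y₁`: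
`#{𝔫 ∈ GF D' y : 𝔫 ∩ F = ∅, y/2 < nr 𝔫} ≥ κ ∏_{w ∈ F} (1 - 1/nm w) y ≥ c₁ (log T)^{-3} y` (`mert_low` for `M`; for `T` large the norms of the primes in `S0(D')` are `≤ T`).
Let `β : Pl M → Pl K` be the prime below (`pzs_bel` in `MA/PzS`). For `w ∉ F` of prime norm: `v = β w ∉ S0(D)`, and by `fld`: `nm v = nm w > T` (so `v` is good), and `Δ · (LL v (b k))_k = 0`. Call `𝔫` simple if `β` is injective on `𝔫`. For simple `𝔫`, `n = β(𝔫)` is in `GF D y`, `nr n = nr 𝔫 > y/2`, all `v ∈ n` have norm `> T` and `∏_{v ∈ n} #Δ [...] = #Δ^{#n}`;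
the number of the simple `𝔫` with `β(𝔫) = n` is `≤ #Δ^{#n}` (for each `v ∈ n` at most `[M:K] ≤ #Δ` primes `w`: `over_card`). So the sum is at least the number of the simple `𝔫`. The `𝔫` which are not simple contain `w ≠ w'` over the same `v`, `nm v = nm w = nm w' > T`; removing them, at most `∑_{v, T < nm v} #Δ² C₂ y / (nm v)²` (`af_card` for `M`; `0` if
`y < (nm v)²`, compare `acntc_bad` in `MA/ACntC`, `buf_mem` in `MB/BUf`) `≤ C₃ T^{-1/2} y`, as `∑_v (nm v)^{-3/2}` converges (`pz_summable`). For `T` large this is `≤ (c₁/2) (log T)^{-3} y`.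
-/

set_option autoImplicit false

open scoped NumberField
open IsDedekindDomain
open scoped Classical

noncomputable section

namespace H38.BB

open H63.MA

/-- number of sets containing two given primes -/
theorem csin_two {K : Type} [Field K] [NumberField K] {C : ℝ} (hC : 0 < C)
    (h : ∀ y : ℝ, 1 ≤ y → ((AF K y).card : ℝ) ≤ C * y) {w w' : Pl K} (hne : w ≠ w') {y : ℝ}
    (hy : 0 ≤ y) :
    (((AF K y).filter fun n => w ∈ n ∧ w' ∈ n).card : ℝ) ≤
      C * y * (nm w : ℝ)⁻¹ * (nm w' : ℝ)⁻¹ := by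
  have hv : (0 : ℝ) < (nm w : ℝ) := by exact_mod_cast (zero_lt_one.trans (one_lt_nm w))
  have h1 : ((AF K y).filter fun n => w ∈ n ∧ w' ∈ n).card ≤
      ((AF K (y / nm w)).filter fun n => w' ∈ n).card := by
    refine Finset.card_le_card_of_injOn (fun n => n.erase w) ?_ ?_
    · intro n hn
      rw [Finset.mem_coe, Finset.mem_filter, mem_AF] at hn
      rw [Finset.mem_coe, Finset.mem_filter, mem_AF, le_div_iff₀ hv]
      have h2 : nr n = nm w * nr (n.erase w) := by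
        unfold nr
        exact (Finset.mul_prod_erase n _ hn.2.1).symm
      refine ⟨?_, Finset.mem_erase.2 ⟨hne.symm, hn.2.2⟩⟩
      rw [mul_comm, ← h2]
      exact hn.1
    · intro n hn n' hn' hnn
      rw [Finset.mem_coe, Finset.mem_filter] at hn hn'
      exact Finset.erase_injOn' w hn.2.1 hn'.2.1 hnn
  have h2 := acntc_mem hC h w' (y := y / nm w) (by positivity)
  have h3 : (((AF K y).filter fun n => w ∈ n ∧ w' ∈ n).card : ℝ) ≤
      (((AF K (y / nm w)).filter fun n => w' ∈ n).card : ℝ) := by exact_mod_cast h1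
  refine h3.trans (h2.trans (le_of_eq ?_))
  rw [div_eq_mul_inv]
  ring

/-- number of the simple sets with a given image -/
theorem csin_fib {V W : Type} (β : W → V) (n : Finset V) (O : V → Finset W)
    (q : ℕ) (hq : ∀ v, (O v).card ≤ q) (G : Finset (Finset W))
    (hG : ∀ g ∈ G, Set.InjOn β g ∧ g.image β = n ∧ ∀ w ∈ g, w ∈ O (β w)) :
    G.card ≤ q ^ n.card := by
  have h1 : G ⊆ (n.pi O).image (fun φ => n.attach.image fun v => φ v.1 v.2) := by
    intro g hg
    obtain ⟨h2, h3, h4⟩ := hG g hg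
    have hex : ∀ v ∈ n, ∃ w ∈ g, β w = v := by
      intro v hv
      rw [← h3] at hv
      obtain ⟨w, hw, hwv⟩ := Finset.mem_image.1 hv
      exact ⟨w, hw, hwv⟩
    choose φ hφ1 hφ2 using hex
    rw [Finset.mem_image]
    refine ⟨φ, ?_, ?_⟩
    · rw [Finset.mem_pi]
      intro v hv
      have h5 := h4 _ (hφ1 v hv)
      rw [hφ2 v hv] at h5
      exact h5
    · ext w
      rw [Finset.mem_image]
      constructor
      · rintro ⟨v, -, rfl⟩
        exact hφ1 _ _
      · intro hw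
        have hv : β w ∈ n := by
          rw [← h3]
          exact Finset.mem_image_of_mem β hw
        exact ⟨⟨β w, hv⟩, Finset.mem_attach _ _, h2 (hφ1 _ hv) hw (hφ2 _ hv)⟩
  refine (Finset.card_le_card h1).trans (Finset.card_image_le.trans ?_)
  rw [Finset.card_pi]
  exact (Finset.prod_le_prod' fun v _ => hq v).trans (by rw [Finset.prod_const])

/-- the choice of `T` -/
theorem csin_T (c₀ A : ℝ) (hc : 0 < c₀) (hA : 0 ≤ A) :
    ∃ T₂ : ℝ, 3 ≤ T₂ ∧ ∀ T : ℝ, T₂ ≤ T →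
      A * T ^ (-(1 / 2) : ℝ) ≤ c₀ * Real.log T ^ (-3 : ℝ) / 2 := by
  have h1 := isLittleO_log_rpow_rpow_atTop (3 : ℝ) (by norm_num : (0 : ℝ) < 1 / 2)
  have hpos : 0 < c₀ / (2 * (A + 1)) := by positivity
  have h2 := (h1.def hpos).and (Filter.eventually_ge_atTop (3 : ℝ))
  obtain ⟨T₂, hT₂⟩ := Filter.eventually_atTop.1 h2
  refine ⟨max 3 T₂, le_max_left _ _, fun T hT => ?_⟩
  obtain ⟨hT1, hT3⟩ := hT₂ T ((le_max_right _ _).trans hT)
  have hT0 : (0 : ℝ) < T := by linarith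
  have hL : 0 < Real.log T := Real.log_pos (by linarith)
  rw [Real.norm_of_nonneg (Real.rpow_nonneg hL.le _),
    Real.norm_of_nonneg (Real.rpow_nonneg hT0.le _)] at hT1
  have h3 : Real.log T ^ (-3 : ℝ) = (Real.log T ^ (3 : ℝ))⁻¹ := Real.rpow_neg hL.le _
  have hLN : 0 < Real.log T ^ (3 : ℝ) := Real.rpow_pos_of_pos hL _
  have hTh : 0 < T ^ (1 / 2 : ℝ) := Real.rpow_pos_of_pos hT0 _
  rw [h3, Real.rpow_neg hT0.le, ← div_eq_mul_inv, ← div_eq_mul_inv, div_div, div_le_div_iff₀ hTh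
    (by positivity)]
  calc A * (Real.log T ^ (3 : ℝ) * 2)
      ≤ (A + 1) * (Real.log T ^ (3 : ℝ) * 2) := by
        have : 0 ≤ Real.log T ^ (3 : ℝ) * 2 := by positivity
        nlinarith
    _ ≤ (A + 1) * (c₀ / (2 * (A + 1)) * T ^ (1 / 2 : ℝ) * 2) := by gcongr
    _ = c₀ * T ^ (1 / 2 : ℝ) := by
        field_simp

theorem sing {K : Type} [Field K] [NumberField K] {p : ℕ} {ζ : K} {m : ℕ} (hp : p.Prime)
    (hp2 : MOne p K) (hζ : IsPrimitiveRoot ζ p) (D : RD0 K p ζ) (b : Fin m → Kˣ)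
    (hb : ∀ k v, v ∉ D.S0 → ord v (b k) = 0) (Δ : Submodule (ZMod p) (Fin m → ZMod p)) :
    ∃ c T₀ : ℝ, 0 < c ∧ 3 ≤ T₀ ∧ ∀ T : ℝ, T₀ ≤ T → ∃ y₁ : ℝ, 1 ≤ y₁ ∧ ∀ y : ℝ, y₁ ≤ y →
      c * Real.log T ^ (-3 : ℝ) * y ≤
        ∑ n ∈ (GF D y).filter (fun n => (∀ v ∈ n, T < (nm v : ℝ)) ∧ y / 2 < nr n),
          ∏ v ∈ n, if ∀ δ ∈ Δ, dt δ (fun k => D.LL v (b k)) = 0 then (Nat.card Δ : ℝ) else 0 := by
  have hpz : NeZero p := ⟨hp.ne_zero⟩
  obtain ⟨M, iF, iN, iA, hfin, hM⟩ := fld hp hζ D b hb Δ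
  have hζM : IsPrimitiveRoot (algebraMap K M ζ) p :=
    hζ.map_of_injective (algebraMap K M).injective
  obtain ⟨D', hD', -⟩ := exists_RD0_of M hp (mone_map hp2 M) hζM
    (D.S0.biUnion fun v => (over_finite (L := M) v).toFinset)
  obtain ⟨κ, T1, hκ, hone⟩ := acntb_one D'
  obtain ⟨cM, hcM, hmert⟩ := mert_low M
  obtain ⟨CA, hCA, hcard⟩ := af_card M
  have hS0 : 0 ≤ ∑' v : Pl K, (nm v : ℝ) ^ (-(3 / 2) : ℝ) :=
    tsum_nonneg fun v => Real.rpow_nonneg (Nat.cast_nonneg _) _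
  set S : ℝ := ∑' v : Pl K, (nm v : ℝ) ^ (-(3 / 2) : ℝ) with hS
  set q : ℕ := Nat.card Δ with hq
  obtain ⟨T2, hT23, hT2⟩ := csin_T (κ * cM) ((q : ℝ) ^ 2 * CA * S) (by positivity) (by positivity)
  set β : Pl M → Pl K := pzs_bel K with hβ
  set O : Pl K → Finset (Pl M) := fun v => (over_finite (L := M) v).toFinset with hO
  have hmO : ∀ w v, w ∈ O v ↔ Over w v := by
    intro w v
    rw [hO]
    simp only [Set.Finite.mem_toFinset]
    rfl
  have hcO : ∀ v, (O v).card ≤ q := by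
    intro v
    exact (over_card v (O v) fun w hw => (hmO w v).1 hw).trans hfin
  refine ⟨κ * cM / 2, max T2 (max T1 (∑ v ∈ D'.S0, (nm v : ℝ))), by positivity,
    hT23.trans (le_max_left _ _), fun T hT => ?_⟩
  have hTT2 : T2 ≤ T := (le_max_left _ _).trans hT
  have hT3 : 3 ≤ T := hT23.trans hTT2
  have hT0 : 0 < T := by linarith
  have hT1 : T1 ≤ T := ((le_max_left _ _).trans (le_max_right _ _)).trans hT
  have hTS : ∑ v ∈ D'.S0, (nm v : ℝ) ≤ T :=
    ((le_max_right _ _).trans (le_max_right _ _)).trans hT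
  set F : Finset (Pl M) := D'.S0 ∪ (acntb_fin M T).toFinset with hF
  have hmF : ∀ v, v ∈ F ↔ v ∈ D'.S0 ∨ (nm v : ℝ) ≤ T := by
    intro v
    rw [hF, Finset.mem_union, Set.Finite.mem_toFinset]
    rfl
  have hFT : ∀ v ∈ F, (nm v : ℝ) ≤ T := by
    intro v hv
    rcases (hmF v).1 hv with h | h
    · have h1 := Finset.single_le_sum (f := fun v : Pl M => (nm v : ℝ))
        (fun v _ => Nat.cast_nonneg _) h
      exact h1.trans hTS
    · exact h
  have hP := hmert T hT3 F hFT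
  obtain ⟨y1, hy11, hy1⟩ := hone T hT1 F hmF
  refine ⟨y1, hy11, fun y hy => ?_⟩
  have hy0 : 0 < y := by linarith
  have hcnt := hy1 y hy
  set G : Finset (Finset (Pl M)) := (GF D' y).filter fun n => Disjoint n F ∧ y / 2 < nr n with hG
  -- the primes in the sets of `G`
  have hprime : ∀ g ∈ G, ∀ w ∈ g, T < (nm w : ℝ) ∧ β w ∉ D.S0 ∧ (nm (β w)).Prime ∧
      nm (β w) = nm w ∧ ∀ δ ∈ Δ, dt δ (fun k => D.LL (β w) (b k)) = 0 := by
    intro g hg w hw
    rw [hG, Finset.mem_filter, GF, Finset.mem_filter] at hg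
    obtain ⟨⟨-, hg1⟩, hg2, -⟩ := hg
    have hwF : w ∉ F := Finset.disjoint_left.1 hg2 hw
    rw [hmF] at hwF
    push Not at hwF
    have hgd := hg1 w hw
    have hbel : Over w (β w) := pzs_bel_over w
    have hv : β w ∉ D.S0 := by
      intro hv
      exact hwF.1 (hD' w (Finset.mem_biUnion.2 ⟨β w, hv, (hmO w (β w)).2 hbel⟩))
    obtain ⟨h1, h2⟩ := hM w (β w) hbel hgd.2 hv
    exact ⟨hwF.2, hv, by rw [h1]; exact hgd.2, h1, h2⟩
  -- the simple sets
  set Gs : Finset (Finset (Pl M)) := G.filter fun g => Set.InjOn β g with hGs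
  set Gb : Finset (Finset (Pl M)) := G.filter fun g => ¬ Set.InjOn β g with hGb
  have hsplit : Gs.card + Gb.card = G.card := Finset.card_filter_add_card_filter_not _
  set wt : Pl K → ℝ := fun v =>
    if ∀ δ ∈ Δ, dt δ (fun k => D.LL v (b k)) = 0 then (q : ℝ) else 0 with hwt
  have hwt0 : ∀ v, 0 ≤ wt v := by
    intro v
    rw [hwt]
    dsimp only
    split_ifs
    · exact Nat.cast_nonneg _
    · exact le_rfl
  set Nn : Finset (Finset (Pl K)) :=
    (GF D y).filter (fun n => (∀ v ∈ n, T < (nm v : ℝ)) ∧ y / 2 < nr n) with hNn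
  have hmap : ∀ g ∈ Gs, g.image β ∈ Nn := by
    intro g hg
    rw [hGs, Finset.mem_filter] at hg
    obtain ⟨hgG, hinj⟩ := hg
    have hpr := hprime g hgG
    have hnr : nr (g.image β) = nr g := by
      unfold nr
      rw [Finset.prod_image hinj]
      exact Finset.prod_congr rfl fun w hw => by rw [(hpr w hw).2.2.2.1]
    rw [hG, Finset.mem_filter, GF, Finset.mem_filter, mem_AF] at hgG
    rw [hNn, Finset.mem_filter, GF, Finset.mem_filter, mem_AF, hnr]
    refine ⟨⟨hgG.1.1, fun v hv => ?_⟩, fun v hv => ?_, hgG.2.2⟩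
    · obtain ⟨w, hw, rfl⟩ := Finset.mem_image.1 hv
      exact ⟨(hpr w hw).2.1, (hpr w hw).2.2.1⟩
    · obtain ⟨w, hw, rfl⟩ := Finset.mem_image.1 hv
      rw [(hpr w hw).2.2.2.1]
      exact (hpr w hw).1
  have hfib : ∀ n ∈ Nn, ((Gs.filter fun g => g.image β = n).card : ℝ) ≤ ∏ v ∈ n, wt v := by
    intro n _
    by_cases hemp : (Gs.filter fun g => g.image β = n) = ∅
    · rw [hemp, Finset.card_empty, Nat.cast_zero]
      exact Finset.prod_nonneg fun v _ => hwt0 v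
    · obtain ⟨g₀, hg₀⟩ := Finset.nonempty_iff_ne_empty.2 hemp
      rw [Finset.mem_filter, hGs, Finset.mem_filter] at hg₀
      obtain ⟨⟨hg1, hg2⟩, hg3⟩ := hg₀
      have hw : ∀ v ∈ n, wt v = q := by
        intro v hv
        rw [← hg3] at hv
        obtain ⟨w, hw, rfl⟩ := Finset.mem_image.1 hv
        rw [hwt]
        dsimp only
        rw [if_pos (hprime g₀ hg1 w hw).2.2.2.2]
      rw [Finset.prod_congr rfl hw, Finset.prod_const]
      have h1 := csin_fib β n O q hcO (Gs.filter fun g => g.image β = n) ?_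
      · exact_mod_cast h1
      · intro g hg
        rw [Finset.mem_filter, hGs, Finset.mem_filter] at hg
        exact ⟨hg.1.2, hg.2, fun w _ => (hmO w (β w)).2 (pzs_bel_over w)⟩
  have hsimple : (Gs.card : ℝ) ≤ ∑ n ∈ Nn, ∏ v ∈ n, wt v := by
    rw [Finset.card_eq_sum_card_fiberwise hmap, Nat.cast_sum]
    exact Finset.sum_le_sum hfib
  -- the sets which are not simple
  set V : Finset (Pl K) := (G.biUnion id).image β with hV
  have hVT : ∀ v ∈ V, T < (nm v : ℝ) := by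
    intro v hv
    rw [hV] at hv
    obtain ⟨w, hw, rfl⟩ := Finset.mem_image.1 hv
    obtain ⟨g, hg, hwg⟩ := Finset.mem_biUnion.1 hw
    have := hprime g hg w hwg
    rw [this.2.2.2.1]
    exact this.1
  set P : Pl K → Finset (Pl M × Pl M) := fun v =>
    ((O v).filter fun w => nm v = nm w).offDiag with hPd
  have hPc : ∀ v, ((P v).card : ℝ) ≤ (q : ℝ) ^ 2 := by
    intro v
    have h1 : (P v).card ≤ q ^ 2 := by
      rw [hPd]
      dsimp only
      rw [Finset.offDiag_card]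
      refine (Nat.sub_le _ _).trans ?_
      rw [sq]
      have h2 : ((O v).filter fun w => nm v = nm w).card ≤ q :=
        (Finset.card_filter_le _ _).trans (hcO v)
      exact Nat.mul_le_mul h2 h2
    exact_mod_cast h1
  have hbsub : Gb ⊆ V.biUnion fun v => (P v).biUnion fun x =>
      (AF M y).filter fun g => x.1 ∈ g ∧ x.2 ∈ g := by
    intro g hg
    rw [hGb, Finset.mem_filter] at hg
    obtain ⟨hg1, hg2⟩ := hg
    unfold Set.InjOn at hg2
    push Not at hg2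
    obtain ⟨w, hw, w', hw', hww, hne⟩ := hg2
    rw [Finset.mem_coe] at hw hw'
    rw [Finset.mem_biUnion]
    refine ⟨β w, ?_, ?_⟩
    · rw [hV]
      exact Finset.mem_image_of_mem β (Finset.mem_biUnion.2 ⟨g, hg1, hw⟩)
    · rw [Finset.mem_biUnion]
      refine ⟨(w, w'), ?_, ?_⟩
      · rw [hPd]
        dsimp only
        rw [Finset.mem_offDiag, Finset.mem_filter, Finset.mem_filter]
        refine ⟨⟨(hmO _ _).2 (pzs_bel_over w), (hprime g hg1 w hw).2.2.2.1⟩,
          ⟨?_, ?_⟩, hne⟩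
        · rw [hww]
          exact (hmO _ _).2 (pzs_bel_over w')
        · rw [hww]
          exact (hprime g hg1 w' hw').2.2.2.1
      · rw [Finset.mem_filter]
        refine ⟨?_, hw, hw'⟩
        rw [hG, Finset.mem_filter, GF, Finset.mem_filter] at hg1
        exact hg1.1.1
  have hbad : (Gb.card : ℝ) ≤ (q : ℝ) ^ 2 * CA * S * T ^ (-(1 / 2) : ℝ) * y := by
    have h1 : (Gb.card : ℝ) ≤ ∑ v ∈ V, ∑ x ∈ P v,
        (((AF M y).filter fun g => x.1 ∈ g ∧ x.2 ∈ g).card : ℝ) := by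
      have h2 := (Finset.card_le_card hbsub).trans Finset.card_biUnion_le
      have h3 : ∑ v ∈ V, ((P v).biUnion fun x =>
          (AF M y).filter fun g => x.1 ∈ g ∧ x.2 ∈ g).card ≤
          ∑ v ∈ V, ∑ x ∈ P v, ((AF M y).filter fun g => x.1 ∈ g ∧ x.2 ∈ g).card :=
        Finset.sum_le_sum fun v _ => Finset.card_biUnion_le
      exact_mod_cast h2.trans h3
    have h4 : ∀ v ∈ V, ∑ x ∈ P v, (((AF M y).filter fun g => x.1 ∈ g ∧ x.2 ∈ g).card : ℝ) ≤
        (q : ℝ) ^ 2 * CA * y * (nm v : ℝ)⁻¹ ^ 2 := by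
      intro v _
      have h5 : ∀ x ∈ P v, (((AF M y).filter fun g => x.1 ∈ g ∧ x.2 ∈ g).card : ℝ) ≤
          CA * y * (nm v : ℝ)⁻¹ ^ 2 := by
        intro x hx
        rw [hPd] at hx
        dsimp only at hx
        rw [Finset.mem_offDiag, Finset.mem_filter, Finset.mem_filter] at hx
        refine (csin_two hCA hcard hx.2.2 hy0.le).trans (le_of_eq ?_)
        rw [← hx.1.2, ← hx.2.1.2]
        ring
      refine (Finset.sum_le_sum h5).trans ?_
      rw [Finset.sum_const, nsmul_eq_mul]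
      have h6 : 0 ≤ CA * y * (nm v : ℝ)⁻¹ ^ 2 := by positivity
      calc ((P v).card : ℝ) * (CA * y * (nm v : ℝ)⁻¹ ^ 2) ≤
            (q : ℝ) ^ 2 * (CA * y * (nm v : ℝ)⁻¹ ^ 2) := mul_le_mul_of_nonneg_right (hPc v) h6
        _ = _ := by ring
    refine (h1.trans (Finset.sum_le_sum h4)).trans ?_
    rw [← Finset.mul_sum]
    have h7 := acntc_sum hT0 V hVT
    calc (q : ℝ) ^ 2 * CA * y * ∑ v ∈ V, (nm v : ℝ)⁻¹ ^ 2 ≤
          (q : ℝ) ^ 2 * CA * y * (T ^ (-(1 / 2) : ℝ) * S) :=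
          mul_le_mul_of_nonneg_left h7 (by positivity)
      _ = _ := by ring
  have hlow : κ * (cM * Real.log T ^ (-3 : ℝ)) * y ≤ (G.card : ℝ) := by
    refine le_trans ?_ hcnt
    exact mul_le_mul_of_nonneg_right (mul_le_mul_of_nonneg_left hP hκ.le) hy0.le
  have hT2' := mul_le_mul_of_nonneg_right (hT2 T hTT2) hy0.le
  have hsplit' : (Gs.card : ℝ) + Gb.card = G.card := by exact_mod_cast hsplit
  have hfinal : κ * cM / 2 * Real.log T ^ (-3 : ℝ) * y ≤ (Gs.card : ℝ) := by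
    linarith
  refine hfinal.trans (hsimple.trans (le_of_eq ?_))
  refine Finset.sum_congr rfl fun n _ => Finset.prod_congr rfl fun v _ => ?_
  rw [hwt]
  dsimp only
  congr

end H38.BB
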