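import Pool.Agent.H38.BB.CDef
import Pool.Agent.H63.MA.ALowC

/-!
# [H38 BB CTUP] lower bound for tuples from the lower bound in one variable, 180-260 lines

`a i v ∈ [0, A₀]`, `F_i(n) = ∏_{v ∈ n} a i v`. Hypotheses: `∑_{n ∈ GF y} F_i(n) ≤ C y`, and the lower bound in one variable (over the sets `n` with all norms `> T` and `y/2 < nr n ≤ y`). `tup`: `∑_{f ∈ (GF X)^N, disjoint, ∏ nr (f i) ≤ X} ∏_i F_i(f i) ≥ c X (log X)^{N-1}`.

Proof. (1) Boxes. Let `T` be large (to be chosen) and `y : Fin N → ℝ`, `y i ≥ y₁ = max of the y₁(T)`. Let `G_i` be the set of the `n ∈ GF (y i)` with all norms `> T`, `y i / 2 < nr n`. `∑_{f ∈ ∏ G_i} ∏ F_i(f i) = ∏_i ∑_{n ∈ G_i} F_i(n) ≥ (c (log T)^{-3})^N ∏ y i`. The families `f ∈ ∏ G_i` which are not pairwise disjoint have some `i ≠ j`, `v ∈ f i ∩ f j`, `nm v > T`; for given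
`i, j, v` their total weight is at most `A₀² (C y_i / nm v) (C y_j / nm v) ∏_{l ≠ i,j} (C y_l)` (`∑_{n ∈ GF y, v ∈ n} F(n) ≤ A₀ ∑_{n' ∈ GF (y / nm v)} F(n') ≤ A₀ C y / nm v`, where `n' = n.erase v`; if `y < nm v` there is no such `n`). The sum over `v`, `i ≠ j` is `≤ N² A₀² C^N ∏ y_i ∑_{nm v > T} (nm v)^{-2} ≤ C' T^{-1/2} ∏ y_i` (`pz_summable` with `s = 3/2`).
For `T` large this is `≤ 1/2 (c (log T)^{-3})^N ∏ y i` (a power of `log T` against `T^{1/2}`). Fix such a `T`: every box contributes `≥ c₁ ∏ y i` with pairwise disjoint `f`.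
(2) Dyadic sum: for `k : Fin N → ℕ` with `y i = 2^{k i}`, `2^{k i} ≥ y₁` and `∏ 2^{k i} ≤ X` the boxes (`2^{k i - 1} < nr (f i) ≤ 2^{k i}`) are disjoint sets of families with `∏ nr (f i) ≤ X`. The number of `k` with `k i ≥ k₀` and `∑ k i = K`, `K = ⌊log X / log 2⌋`, is `≥ c₂ K^{N-1}` for `K` large (choose `k i ∈ [k₀, K / N]` for `i < N - 1` freely, and the last one is determined and
`≥ K / N ≥ k₀`), each contributes `≥ c₁ 2^K ≥ c₁ X / 2`. (Compare `MA/ALowC`: `alowcY`, `alowc_sum` and its use of boxes; its lemmas may be used.)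
-/

set_option autoImplicit false

open scoped NumberField
open IsDedekindDomain
open scoped Classical

noncomputable section

namespace H38.BB

open H63.MA

theorem ctup_mem_GF {K : Type} [Field K] [NumberField K] {p : ℕ} {ζ : K} (D : RD0 K p ζ)
    {y : ℝ} {n : Finset (Pl K)} : n ∈ GF D y ↔ nr n ≤ y ∧ ∀ v ∈ n, D.Gd v := by
  unfold GF
  rw [Finset.mem_filter, mem_AF]

/-- the sum over the sets which contain `v` -/
theorem ctup_one {K : Type} [Field K] [NumberField K] {p : ℕ} {ζ : K} (D : RD0 K p ζ)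
    (a : Pl K → ℝ) {A C : ℝ} (hA : 0 ≤ A) (hC : 0 ≤ C) (ha : ∀ v, 0 ≤ a v ∧ a v ≤ A)
    (hup : ∀ y : ℝ, 1 ≤ y → ∑ n ∈ GF D y, ∏ v ∈ n, a v ≤ C * y) (v : Pl K) {y : ℝ}
    (hy : 0 ≤ y) :
    ∑ n ∈ (GF D y).filter (fun n => v ∈ n), ∏ v ∈ n, a v ≤ C * y * (A * (nm v : ℝ)⁻¹) := by
  have hv : (0 : ℝ) < (nm v : ℝ) := by exact_mod_cast (zero_lt_one.trans (one_lt_nm v))
  have hw : ∀ n : Finset (Pl K), 0 ≤ ∏ v ∈ n, a v := fun n =>
    Finset.prod_nonneg fun v _ => (ha v).1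
  by_cases hvy : (nm v : ℝ) ≤ y
  · have h1 : ∑ n ∈ (GF D y).filter (fun n => v ∈ n), ∏ v ∈ n, a v ≤
        ∑ n ∈ (GF D y).filter (fun n => v ∈ n), A * ∏ v ∈ n.erase v, a v := by
      refine Finset.sum_le_sum fun n hn => ?_
      rw [← Finset.mul_prod_erase n _ (Finset.mem_filter.1 hn).2]
      exact mul_le_mul_of_nonneg_right (ha v).2 (hw _)
    have h2 : ∑ n ∈ (GF D y).filter (fun n => v ∈ n), ∏ v ∈ n.erase v, a v ≤
        ∑ n ∈ GF D (y / nm v), ∏ v ∈ n, a v := by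
      have hinj : Set.InjOn (fun n : Finset (Pl K) => n.erase v)
          ((GF D y).filter (fun n => v ∈ n) : Finset (Finset (Pl K))) := by
        intro n hn n' hn' hnn
        rw [Finset.mem_coe, Finset.mem_filter] at hn hn'
        exact Finset.erase_injOn' v hn.2 hn'.2 hnn
      rw [← Finset.sum_image (f := fun n : Finset (Pl K) => ∏ v ∈ n, a v) hinj]
      refine Finset.sum_le_sum_of_subset_of_nonneg ?_ fun n _ _ => hw n
      intro n hn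
      obtain ⟨n', hn', rfl⟩ := Finset.mem_image.1 hn
      rw [Finset.mem_filter, ctup_mem_GF] at hn'
      rw [ctup_mem_GF, le_div_iff₀ hv]
      have h2 : nr n' = nm v * nr (n'.erase v) := by
        unfold nr
        exact (Finset.mul_prod_erase n' _ hn'.2).symm
      rw [mul_comm, ← h2]
      exact ⟨hn'.1.1, fun w hw => hn'.1.2 w (Finset.mem_of_mem_erase hw)⟩
    have h3 := hup (y / nm v) (by rw [le_div_iff₀ hv]; linarith)
    rw [← Finset.mul_sum] at h1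
    calc _ ≤ A * ∑ n ∈ (GF D y).filter (fun n => v ∈ n), ∏ v ∈ n.erase v, a v := h1
      _ ≤ A * (C * (y / nm v)) := mul_le_mul_of_nonneg_left (h2.trans h3) hA
      _ = C * y * (A * (nm v : ℝ)⁻¹) := by
        rw [div_eq_mul_inv]
        ring
  · have h1 : (GF D y).filter (fun n => v ∈ n) = ∅ := by
      rw [Finset.filter_eq_empty_iff]
      intro n hn hvn
      rw [ctup_mem_GF] at hn
      apply hvy
      have h2 : nr {v} ≤ nr n := nr_mono (Finset.singleton_subset_iff.2 hvn)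
      have h3 : nr ({v} : Finset (Pl K)) = nm v := by
        unfold nr
        rw [Finset.prod_singleton]
      rw [h3] at h2
      exact h2.trans hn.1
    rw [h1, Finset.sum_empty]
    positivity

/-- the families with a common element in two members -/
theorem ctup_pair {K : Type} [Field K] [NumberField K] {p : ℕ} {ζ : K} (D : RD0 K p ζ) {N : ℕ}
    (a : Fin N → Pl K → ℝ) {A C : ℝ} (hA : 0 ≤ A) (hC : 0 ≤ C)
    (ha : ∀ i v, 0 ≤ a i v ∧ a i v ≤ A)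
    (hup : ∀ i, ∀ y : ℝ, 1 ≤ y → ∑ n ∈ GF D y, ∏ v ∈ n, a i v ≤ C * y) (Y : Fin N → ℝ)
    (hY : ∀ i, 1 ≤ Y i) (R : Fin N → Finset (Finset (Pl K))) (hR : ∀ i, R i ⊆ GF D (Y i))
    {i j : Fin N} (hij : i ≠ j) (v : Pl K) :
    ∑ f ∈ (Fintype.piFinset R).filter (fun f => v ∈ f i ∧ v ∈ f j), ∏ l, ∏ v ∈ f l, a l v ≤
      (∏ l, C * Y l) * (A ^ 2 * (nm v : ℝ)⁻¹ ^ 2) := by
  have hw : ∀ (l : Fin N) (n : Finset (Pl K)), 0 ≤ ∏ v ∈ n, a l v := fun l n =>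
    Finset.prod_nonneg fun v _ => (ha l v).1
  have h1 : ((Fintype.piFinset R).filter fun f => v ∈ f i ∧ v ∈ f j) ⊆
      Fintype.piFinset fun l => if l = i ∨ l = j then (R l).filter (fun n => v ∈ n) else R l := by
    intro f hf
    rw [Finset.mem_filter, Fintype.mem_piFinset] at hf
    rw [Fintype.mem_piFinset]
    intro l
    split_ifs with hl
    · rw [Finset.mem_filter]
      refine ⟨hf.1 l, ?_⟩
      rcases hl with rfl | rfl
      · exact hf.2.1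
      · exact hf.2.2
    · exact hf.1 l
  refine (Finset.sum_le_sum_of_subset_of_nonneg h1 fun f _ _ =>
    Finset.prod_nonneg fun l _ => hw l (f l)).trans ?_
  rw [← Finset.prod_univ_sum (fun l => if l = i ∨ l = j then (R l).filter (fun n => v ∈ n)
    else R l) (fun l n => ∏ v ∈ n, a l v)]
  have h3 : (∏ l, C * Y l) * (A ^ 2 * (nm v : ℝ)⁻¹ ^ 2) =
      ∏ l, (C * Y l * (if l = i ∨ l = j then A * (nm v : ℝ)⁻¹ else 1)) := by
    have h5 : ∏ l : Fin N, (if l = i ∨ l = j then A * (nm v : ℝ)⁻¹ else 1) =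
        (A * (nm v : ℝ)⁻¹) ^ 2 := by
      rw [Finset.prod_ite, Finset.prod_const_one, mul_one, Finset.prod_const]
      have h4 : (Finset.univ.filter fun l : Fin N => l = i ∨ l = j) = {i, j} := by
        ext l
        simp
      rw [h4, Finset.card_pair hij]
    rw [← mul_pow, ← h5, ← Finset.prod_mul_distrib]
  rw [h3]
  refine Finset.prod_le_prod (fun l _ => Finset.sum_nonneg fun n _ => hw l n) fun l _ => ?_
  split_ifs with hl
  · refine le_trans ?_ (ctup_one D (a l) hA hC (ha l) (hup l) v (zero_le_one.trans (hY l)))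
    exact Finset.sum_le_sum_of_subset_of_nonneg (Finset.filter_subset_filter _ (hR l))
      fun n _ _ => hw l n
  · rw [mul_one]
    refine le_trans ?_ (hup l (Y l) (hY l))
    exact Finset.sum_le_sum_of_subset_of_nonneg (hR l) fun n _ _ => hw l n

/-- the families which are not disjoint -/
theorem ctup_bad {K : Type} [Field K] [NumberField K] {p : ℕ} {ζ : K} (D : RD0 K p ζ) {N : ℕ}
    (a : Fin N → Pl K → ℝ) {A C : ℝ} (hA : 0 ≤ A) (hC : 0 ≤ C)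
    (ha : ∀ i v, 0 ≤ a i v ∧ a i v ≤ A)
    (hup : ∀ i, ∀ y : ℝ, 1 ≤ y → ∑ n ∈ GF D y, ∏ v ∈ n, a i v ≤ C * y) (Y : Fin N → ℝ)
    (hY : ∀ i, 1 ≤ Y i) (R : Fin N → Finset (Finset (Pl K))) (hR : ∀ i, R i ⊆ GF D (Y i))
    {T : ℝ} (hT : 0 < T) (hRT : ∀ i, ∀ n ∈ R i, ∀ v ∈ n, T < (nm v : ℝ)) :
    ∑ f ∈ (Fintype.piFinset R).filter (fun f => ¬ Dj f), ∏ l, ∏ v ∈ f l, a l v ≤
      (N : ℝ) ^ 2 * ((∏ l, C * Y l) *
        (A ^ 2 * (T ^ (-(1 / 2) : ℝ) * ∑' v : Pl K, (nm v : ℝ) ^ (-(3 / 2) : ℝ)))) := by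
  have hW : ∀ f : Fin N → Finset (Pl K), 0 ≤ ∏ l, ∏ v ∈ f l, a l v := fun f =>
    Finset.prod_nonneg fun l _ => Finset.prod_nonneg fun v _ => (ha l v).1
  have hCY : 0 ≤ ∏ l, C * Y l :=
    Finset.prod_nonneg fun l _ => mul_nonneg hC (zero_le_one.trans (hY l))
  set V : Finset (Pl K) := Finset.univ.biUnion fun i => (R i).biUnion id with hV
  have hVT : ∀ v ∈ V, T < (nm v : ℝ) := by
    intro v hv
    rw [hV, Finset.mem_biUnion] at hv
    obtain ⟨i, -, hv⟩ := hv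
    rw [Finset.mem_biUnion] at hv
    obtain ⟨n, hn, hv⟩ := hv
    exact hRT i n hn v hv
  have h1 : ∀ f ∈ (Fintype.piFinset R).filter (fun f => ¬ Dj f),
      ∏ l, ∏ v ∈ f l, a l v ≤ ∑ q ∈ (Finset.univ : Finset (Fin N)).offDiag, ∑ v ∈ V,
        if v ∈ f q.1 ∧ v ∈ f q.2 then ∏ l, ∏ v ∈ f l, a l v else 0 := by
    intro f hf
    rw [Finset.mem_filter] at hf
    have h2 := hf.2
    unfold Dj at h2
    push Not at h2
    obtain ⟨b, b', haa, hd⟩ := h2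
    rw [Finset.not_disjoint_iff] at hd
    obtain ⟨v, hv, hv'⟩ := hd
    have hvV : v ∈ V := by
      rw [hV, Finset.mem_biUnion]
      refine ⟨b, Finset.mem_univ _, ?_⟩
      rw [Finset.mem_biUnion]
      exact ⟨f b, Fintype.mem_piFinset.1 hf.1 b, hv⟩
    have hq : (b, b') ∈ (Finset.univ : Finset (Fin N)).offDiag := by
      rw [Finset.mem_offDiag]
      exact ⟨Finset.mem_univ _, Finset.mem_univ _, haa⟩
    have hnn : ∀ (q : Fin N × Fin N) (v : Pl K),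
        0 ≤ if v ∈ f q.1 ∧ v ∈ f q.2 then ∏ l, ∏ v ∈ f l, a l v else 0 := by
      intro q v
      split_ifs
      · exact hW f
      · exact le_rfl
    refine le_trans ?_ (Finset.single_le_sum (f := fun q : Fin N × Fin N => ∑ v ∈ V,
      if v ∈ f q.1 ∧ v ∈ f q.2 then ∏ l, ∏ v ∈ f l, a l v else 0)
      (fun q _ => Finset.sum_nonneg fun v _ => hnn q v) hq)
    refine le_trans ?_ (Finset.single_le_sum (f := fun v : Pl K =>
      if v ∈ f (b, b').1 ∧ v ∈ f (b, b').2 then ∏ l, ∏ v ∈ f l, a l v else 0)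
      (fun v _ => hnn (b, b') v) hvV)
    simp only
    rw [if_pos ⟨hv, hv'⟩]
  refine (Finset.sum_le_sum h1).trans ?_
  have h2 : ∑ f ∈ (Fintype.piFinset R).filter (fun f => ¬ Dj f),
      ∑ q ∈ (Finset.univ : Finset (Fin N)).offDiag, ∑ v ∈ V,
        (if v ∈ f q.1 ∧ v ∈ f q.2 then ∏ l, ∏ v ∈ f l, a l v else 0) ≤
      ∑ f ∈ Fintype.piFinset R,
      ∑ q ∈ (Finset.univ : Finset (Fin N)).offDiag, ∑ v ∈ V,
        (if v ∈ f q.1 ∧ v ∈ f q.2 then ∏ l, ∏ v ∈ f l, a l v else 0) := by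
    refine Finset.sum_le_sum_of_subset_of_nonneg (Finset.filter_subset _ _) fun f _ _ => ?_
    refine Finset.sum_nonneg fun q _ => Finset.sum_nonneg fun v _ => ?_
    split_ifs
    · exact hW f
    · exact le_rfl
  refine h2.trans ?_
  rw [Finset.sum_comm]
  have h6 : ∀ q ∈ (Finset.univ : Finset (Fin N)).offDiag,
      ∑ f ∈ Fintype.piFinset R, ∑ v ∈ V,
        (if v ∈ f q.1 ∧ v ∈ f q.2 then ∏ l, ∏ v ∈ f l, a l v else 0) ≤
      (∏ l, C * Y l) * (A ^ 2 * (T ^ (-(1 / 2) : ℝ) *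
        ∑' v : Pl K, (nm v : ℝ) ^ (-(3 / 2) : ℝ))) := by
    intro q hq
    rw [Finset.mem_offDiag] at hq
    rw [Finset.sum_comm]
    have h7 : ∀ v ∈ V, ∑ f ∈ Fintype.piFinset R,
        (if v ∈ f q.1 ∧ v ∈ f q.2 then ∏ l, ∏ v ∈ f l, a l v else 0) ≤
        (∏ l, C * Y l) * (A ^ 2 * (nm v : ℝ)⁻¹ ^ 2) := by
      intro v _
      rw [← Finset.sum_filter]
      exact ctup_pair D a hA hC ha hup Y hY R hR hq.2.2 v
    refine (Finset.sum_le_sum h7).trans ?_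
    rw [← Finset.mul_sum, ← Finset.mul_sum]
    exact mul_le_mul_of_nonneg_left
      (mul_le_mul_of_nonneg_left (acntc_sum hT V hVT) (sq_nonneg A)) hCY
  refine (Finset.sum_le_sum h6).trans ?_
  rw [Finset.sum_const, nsmul_eq_mul]
  refine mul_le_mul_of_nonneg_right ?_ ?_
  · rw [Finset.offDiag_card, Finset.card_univ, Fintype.card_fin, sq]
    have : N * N - N ≤ N * N := Nat.sub_le _ _
    exact_mod_cast this
  · refine mul_nonneg hCY (mul_nonneg (sq_nonneg A) (mul_nonneg (Real.rpow_nonneg hT.le _) ?_))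
    exact tsum_nonneg fun v => Real.rpow_nonneg (Nat.cast_nonneg _) _

/-- the box conditions -/
def ctupBx {K : Type} [Field K] [NumberField K] {N : ℕ} (Y : Fin N → ℝ)
    (f : Fin N → Finset (Pl K)) : Prop :=
  Dj f ∧ ∀ i, Y i / 2 < nr (f i) ∧ nr (f i) ≤ Y i

/-- the lower bound in a box -/
theorem ctup_box {K : Type} [Field K] [NumberField K] {p : ℕ} {ζ : K} (D : RD0 K p ζ) (N : ℕ)
    (hN : 1 ≤ N) (a : Fin N → Pl K → ℝ) (A₀ : ℝ) (ha : ∀ i v, 0 ≤ a i v ∧ a i v ≤ A₀)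
    (hup : ∀ i, ∃ C : ℝ, ∀ y : ℝ, 1 ≤ y → ∑ n ∈ GF D y, ∏ v ∈ n, a i v ≤ C * y)
    (hlow : ∀ i, ∃ c T₀ : ℝ, 0 < c ∧ 3 ≤ T₀ ∧ ∀ T : ℝ, T₀ ≤ T → ∃ y₁ : ℝ, 1 ≤ y₁ ∧
      ∀ y : ℝ, y₁ ≤ y → c * Real.log T ^ (-3 : ℝ) * y ≤
        ∑ n ∈ (GF D y).filter (fun n => (∀ v ∈ n, T < (nm v : ℝ)) ∧ y / 2 < nr n),
          ∏ v ∈ n, a i v) :
    ∃ c y₀ : ℝ, 0 < c ∧ 1 ≤ y₀ ∧ ∀ (Y : Fin N → ℝ) (X : ℝ), (∀ i, y₀ ≤ Y i ∧ Y i ≤ X) →
      c * ∏ i, Y i ≤ ∑ f ∈ Fintype.piFinset (fun _ : Fin N => GF D X),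
        if ctupBx Y f then ∏ i, ∏ v ∈ f i, a i v else 0 := by
  have hne : (Finset.univ : Finset (Fin N)).Nonempty := ⟨⟨0, hN⟩, Finset.mem_univ _⟩
  choose C' hC' using hup
  choose c' T' hc' hT' hlow' using hlow
  obtain ⟨C, hC0, hC⟩ : ∃ C : ℝ, 0 ≤ C ∧ ∀ i, C' i ≤ C := by
    refine ⟨∑ i, |C' i|, Finset.sum_nonneg fun i _ => abs_nonneg _, fun i => ?_⟩
    exact (le_abs_self _).trans (Finset.single_le_sum (f := fun i => |C' i|)
      (fun i _ => abs_nonneg _) (Finset.mem_univ i))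
  obtain ⟨c₀, hc₀, hc⟩ : ∃ c : ℝ, 0 < c ∧ ∀ i, c ≤ c' i := by
    refine ⟨Finset.univ.inf' hne c', ?_, fun i => Finset.inf'_le _ (Finset.mem_univ i)⟩
    rw [Finset.lt_inf'_iff]
    exact fun i _ => hc' i
  obtain ⟨T₀, hT₀⟩ : ∃ T : ℝ, ∀ i, T' i ≤ T :=
    ⟨Finset.univ.sup' hne T', fun i => Finset.le_sup' _ (Finset.mem_univ i)⟩
  obtain ⟨A, hA⟩ : ∃ A : ℝ, A = max A₀ 0 := ⟨_, rfl⟩
  have hA0 : 0 ≤ A := by rw [hA]; exact le_max_right _ _
  have haA : ∀ i v, 0 ≤ a i v ∧ a i v ≤ A := fun i v =>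
    ⟨(ha i v).1, (ha i v).2.trans (by rw [hA]; exact le_max_left _ _)⟩
  have hup' : ∀ i, ∀ y : ℝ, 1 ≤ y → ∑ n ∈ GF D y, ∏ v ∈ n, a i v ≤ C * y := fun i y hy =>
    (hC' i y hy).trans (mul_le_mul_of_nonneg_right (hC i) (by linarith))
  set S : ℝ := ∑' v : Pl K, (nm v : ℝ) ^ (-(3 / 2) : ℝ) with hS
  have hS0 : 0 ≤ S := tsum_nonneg fun v => Real.rpow_nonneg (Nat.cast_nonneg _) _
  obtain ⟨T, hT1, hT3, hTA⟩ := acntc_T c₀ T₀ ((N : ℝ) ^ 2 * (C ^ N * (A ^ 2 * S))) hc₀ N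
    (by positivity)
  have hT0 : (0 : ℝ) < T := by linarith
  have hL : 0 < Real.log T := Real.log_pos (by linarith)
  have hLp : 0 < Real.log T ^ (-3 : ℝ) := Real.rpow_pos_of_pos hL _
  have hκ : 0 < c₀ * Real.log T ^ (-3 : ℝ) := mul_pos hc₀ hLp
  choose y' hy' hlow2 using fun i => hlow' i T ((hT₀ i).trans hT1)
  obtain ⟨y₀, hy₀, hy0⟩ : ∃ y : ℝ, 1 ≤ y ∧ ∀ i, y' i ≤ y :=
    ⟨max 1 (Finset.univ.sup' hne y'), le_max_left _ _, fun i =>
      (Finset.le_sup' _ (Finset.mem_univ i)).trans (le_max_right _ _)⟩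
  refine ⟨(c₀ * Real.log T ^ (-3 : ℝ)) ^ N / 2, y₀, by positivity, hy₀, fun Y X hYX => ?_⟩
  have hY1 : ∀ i, 1 ≤ Y i := fun i => hy₀.trans (hYX i).1
  have hW : ∀ f : Fin N → Finset (Pl K), 0 ≤ ∏ l, ∏ v ∈ f l, a l v := fun f =>
    Finset.prod_nonneg fun l _ => Finset.prod_nonneg fun v _ => (ha l v).1
  set R : Fin N → Finset (Finset (Pl K)) := fun i => (GF D (Y i)).filter fun n =>
    (∀ v ∈ n, T < (nm v : ℝ)) ∧ Y i / 2 < nr n with hR
  have hRA : ∀ i, R i ⊆ GF D (Y i) := fun i => Finset.filter_subset _ _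
  have hbad := ctup_bad D a hA0 hC0 haA hup' Y hY1 R hRA hT0 fun i n hn v hv =>
    ((Finset.mem_filter.1 hn).2.1) v hv
  rw [← hS] at hbad
  have hall : (c₀ * Real.log T ^ (-3 : ℝ)) ^ N * ∏ i, Y i ≤
      ∑ f ∈ Fintype.piFinset R, ∏ l, ∏ v ∈ f l, a l v := by
    rw [← Finset.prod_univ_sum R (fun l n => ∏ v ∈ n, a l v)]
    have h1 : (c₀ * Real.log T ^ (-3 : ℝ)) ^ N * ∏ i, Y i =
        ∏ i, (c₀ * Real.log T ^ (-3 : ℝ) * Y i) := by
      rw [Finset.prod_mul_distrib, Finset.prod_const, Finset.card_univ, Fintype.card_fin]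
    rw [h1]
    refine Finset.prod_le_prod (fun i _ => mul_nonneg hκ.le (zero_le_one.trans (hY1 i)))
      fun i _ => le_trans ?_ (hlow2 i (Y i) ((hy0 i).trans (hYX i).1))
    refine mul_le_mul_of_nonneg_right ?_ (zero_le_one.trans (hY1 i))
    exact mul_le_mul_of_nonneg_right (hc i) hLp.le
  have hP : 0 ≤ ∏ i, Y i := Finset.prod_nonneg fun i _ => zero_le_one.trans (hY1 i)
  have hbad2 : ∑ f ∈ (Fintype.piFinset R).filter (fun f => ¬ Dj f), ∏ l, ∏ v ∈ f l, a l v ≤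
      (c₀ * Real.log T ^ (-3 : ℝ)) ^ N / 2 * ∏ i, Y i := by
    refine hbad.trans ?_
    have h1 : ∏ l, C * Y l = C ^ N * ∏ l, Y l := by
      rw [Finset.prod_mul_distrib, Finset.prod_const, Finset.card_univ, Fintype.card_fin]
    rw [h1]
    calc (N : ℝ) ^ 2 * (C ^ N * (∏ l, Y l) * (A ^ 2 * (T ^ (-(1 / 2) : ℝ) * S)))
        = (N : ℝ) ^ 2 * (C ^ N * (A ^ 2 * S)) * T ^ (-(1 / 2) : ℝ) * ∏ l, Y l := by ring
      _ ≤ _ := mul_le_mul_of_nonneg_right hTA hP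
  have hsplit := Finset.sum_filter_add_sum_filter_not
    (Fintype.piFinset R) (fun f => Dj f) (fun f => ∏ l, ∏ v ∈ f l, a l v)
  have hsub : ((Fintype.piFinset R).filter fun f => Dj f) ⊆
      (Fintype.piFinset fun _ : Fin N => GF D X).filter fun f => ctupBx Y f := by
    intro f hf
    rw [Finset.mem_filter, Fintype.mem_piFinset] at hf
    have h1 : ∀ i, f i ∈ GF D (Y i) ∧ (∀ v ∈ f i, T < (nm v : ℝ)) ∧ Y i / 2 < nr (f i) :=
      fun i => Finset.mem_filter.1 (hf.1 i)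
    have h2 : ∀ i, nr (f i) ≤ Y i ∧ ∀ v ∈ f i, D.Gd v := fun i => (ctup_mem_GF D).1 (h1 i).1
    rw [Finset.mem_filter, Fintype.mem_piFinset]
    refine ⟨fun i => ?_, hf.2, fun i => ⟨(h1 i).2.2, (h2 i).1⟩⟩
    rw [ctup_mem_GF]
    exact ⟨(h2 i).1.trans (hYX i).2, (h2 i).2⟩
  have hle : ∑ f ∈ (Fintype.piFinset R).filter (fun f => Dj f), ∏ l, ∏ v ∈ f l, a l v ≤
      ∑ f ∈ Fintype.piFinset (fun _ : Fin N => GF D X),
        if ctupBx Y f then ∏ i, ∏ v ∈ f i, a i v else 0 := by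
    rw [← Finset.sum_filter]
    exact Finset.sum_le_sum_of_subset_of_nonneg hsub fun f _ _ => hW f
  refine le_trans ?_ hle
  linarith

theorem ctup_unique {K : Type} [Field K] [NumberField K] {M : ℕ} (X : ℝ) (k k' : Fin M → ℕ)
    (f : Fin (M + 1) → Finset (Pl K)) (h : ctupBx (alowcY X k) f)
    (h' : ctupBx (alowcY X k') f) : k = k' := by
  have key : ∀ k k' : Fin M → ℕ, ctupBx (alowcY X k) f → ctupBx (alowcY X k') f →
      ∀ i, k' i ≤ k i := by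
    intro k k' h h' i
    by_contra hlt
    push Not at hlt
    have h1 := (h.2 i.castSucc).2
    have h2 := (h'.2 i.castSucc).1
    rw [alowcY_castSucc] at h1 h2
    have h3 : (2 : ℝ) ^ (k i + 1) ≤ 2 ^ k' i := pow_le_pow_right₀ (by norm_num) hlt
    rw [pow_succ] at h3
    linarith
  funext i
  exact le_antisymm (key k' k h' h i) (key k k' h h' i)

/-- the comparison of the sum over the boxes with the whole sum -/
theorem ctup_sum {K : Type} [Field K] [NumberField K] {M : ℕ} (X : ℝ)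
    (w : (Fin (M + 1) → Finset (Pl K)) → ℝ)
    (hw : ∀ f, 0 ≤ w f) (Ks : Finset (Fin M → ℕ))
    (G : Finset (Fin (M + 1) → Finset (Pl K))) :
    ∑ k ∈ Ks, ∑ f ∈ G, (if ctupBx (alowcY X k) f then w f else 0) ≤
      ∑ f ∈ G, if Dj f ∧ ∏ i, nr (f i) ≤ X then w f else 0 := by
  rw [Finset.sum_comm]
  refine Finset.sum_le_sum fun f _ => ?_
  by_cases hf : ∃ k ∈ Ks, ctupBx (alowcY X k) f
  · obtain ⟨k, hk, hB⟩ := hf
    rw [Finset.sum_eq_single k (fun k' _ hk' => if_neg fun h => hk'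
      (ctup_unique X k' k f h hB)) (fun h => absurd hk h), if_pos hB, if_pos]
    refine ⟨hB.1, ?_⟩
    rw [← alowcY_prod X k]
    exact Finset.prod_le_prod (fun i _ => zero_le_one.trans (one_le_nr _))
      fun i _ => (hB.2 i).2
  · rw [Finset.sum_eq_zero fun k hk => if_neg fun h => hf ⟨k, hk, h⟩]
    split_ifs
    · exact hw f
    · exact le_rfl

theorem tup {K : Type} [Field K] [NumberField K] {p : ℕ} {ζ : K} (D : RD0 K p ζ) (N : ℕ)
    (hN : 1 ≤ N) (a : Fin N → Pl K → ℝ) (A₀ : ℝ) (ha : ∀ i v, 0 ≤ a i v ∧ a i v ≤ A₀)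
    (hup : ∀ i, ∃ C : ℝ, ∀ y : ℝ, 1 ≤ y → ∑ n ∈ GF D y, ∏ v ∈ n, a i v ≤ C * y)
    (hlow : ∀ i, ∃ c T₀ : ℝ, 0 < c ∧ 3 ≤ T₀ ∧ ∀ T : ℝ, T₀ ≤ T → ∃ y₁ : ℝ, 1 ≤ y₁ ∧
      ∀ y : ℝ, y₁ ≤ y → c * Real.log T ^ (-3 : ℝ) * y ≤
        ∑ n ∈ (GF D y).filter (fun n => (∀ v ∈ n, T < (nm v : ℝ)) ∧ y / 2 < nr n),
          ∏ v ∈ n, a i v) :
    ∃ c X₀ : ℝ, 0 < c ∧ 3 ≤ X₀ ∧ ∀ X : ℝ, X₀ ≤ X →
      c * X * Real.log X ^ (N - 1) ≤
        ∑ f ∈ Fintype.piFinset (fun _ : Fin N => GF D X),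
          if Dj f ∧ ∏ i, nr (f i) ≤ X then ∏ i, ∏ v ∈ f i, a i v else 0 := by
  obtain ⟨c', y₀, hc', hy₀, hcnt⟩ := ctup_box D N hN a A₀ ha hup hlow
  obtain ⟨M, rfl⟩ : ∃ M, N = M + 1 := ⟨N - 1, by omega⟩
  obtain ⟨δ, hδ⟩ : ∃ δ : ℝ, δ = 1 / (4 * ((M : ℝ) + 1)) := ⟨_, rfl⟩
  have hδ0 : 0 < δ := by rw [hδ]; positivity
  have hl2 : 0 < Real.log 2 := Real.log_pos (by norm_num)
  have ev : ∀ᶠ X : ℝ in Filter.atTop, y₀ ≤ X ^ δ ∧ 2 * Real.log 2 / δ ≤ Real.log X :=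
    ((tendsto_rpow_atTop hδ0).eventually_ge_atTop _).and
        (Real.tendsto_log_atTop.eventually_ge_atTop _)
  obtain ⟨X₂, hX₂⟩ := Filter.eventually_atTop.1 ev
  refine ⟨(δ / (2 * Real.log 2)) ^ M * c', max X₂ 3, by positivity, le_max_right _ _,
    fun X hX => ?_⟩
  obtain ⟨h2, hLa⟩ := hX₂ X ((le_max_left _ _).trans hX)
  have hX3 : 3 ≤ X := (le_max_right _ _).trans hX
  have hX1 : 1 ≤ X := by linarith
  have hX0 : 0 < X := by linarith
  have hL0 : 0 < Real.log X := Real.log_pos (by linarith)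
  have ha2 : 2 ≤ δ * Real.log X / Real.log 2 := by
    rw [div_le_iff₀ hδ0] at hLa
    rw [le_div_iff₀ hl2]
    linarith
  set Ks : Finset (Fin M → ℕ) :=
    Fintype.piFinset fun _ : Fin M => alowcA (δ * Real.log X / Real.log 2) with hKs
  have hKb : ∀ k ∈ Ks, ∀ i, X ^ δ ≤ alowcY X k i ∧ alowcY X k i ≤ X := by
    intro k hk i
    rw [hKs, Fintype.mem_piFinset] at hk
    exact alowcY_bounds hX1 hδ k (fun j => alowcA_mem hX1 hδ0 (hk j)) i
  have hmain := ctup_sum X (fun f => ∏ i, ∏ v ∈ f i, a i v)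
    (fun f => Finset.prod_nonneg fun l _ => Finset.prod_nonneg fun v _ => (ha l v).1) Ks
    (Fintype.piFinset (fun _ : Fin (M + 1) => GF D X))
  refine le_trans ?_ hmain
  have hbox : ∀ k ∈ Ks, c' * X ≤ ∑ f ∈ Fintype.piFinset (fun _ : Fin (M + 1) => GF D X),
      if ctupBx (alowcY X k) f then ∏ i, ∏ v ∈ f i, a i v else 0 := by
    intro k hk
    have h4 := hcnt (alowcY X k) X fun i => ⟨h2.trans (hKb k hk i).1, (hKb k hk i).2⟩
    rw [alowcY_prod] at h4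
    exact h4
  refine le_trans ?_ (Finset.sum_le_sum hbox)
  rw [Finset.sum_const, nsmul_eq_mul, hKs, Fintype.card_piFinset, Finset.prod_const,
    Finset.card_univ, Fintype.card_fin]
  push_cast
  have h7 : (δ / (2 * Real.log 2) * Real.log X) ^ M ≤
      ((alowcA (δ * Real.log X / Real.log 2)).card : ℝ) ^ M := by
    refine pow_le_pow_left₀ (by positivity) ?_ M
    refine le_trans (le_of_eq ?_) (alowcA_card ha2)
    field_simp
  calc (δ / (2 * Real.log 2)) ^ M * c' * X * Real.log X ^ M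
      = (δ / (2 * Real.log 2) * Real.log X) ^ M * (c' * X) := by
        rw [mul_pow]
        ring
    _ ≤ _ := mul_le_mul_of_nonneg_right h7 (by positivity)

end H38.BB
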