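import Pool.Agent.H38.BB.CUb
import Pool.Agent.H38.BB.CSin
import Pool.Agent.H38.BB.CTup
import Pool.Agent.H38.BB.CPsi
import Pool.Agent.H63.MB.BPhB

/-!
# [H38 BB CLB] the final analytic lower bound, 180-260 lines

`b` of order `0` outside `S0`, all `b^θ`, `θ ≠ 0`, not `p`-th powers. `lb`: the sum of the weights of the families `f` of good primes with `qf (f i) = 0` for all `i` and `∏ nr (f i) ≤ X` is `≥ c X (log X)^{N-1}`.

Proof. Let `h q = 1` if `q = 0` and `0` otherwise (`q : Fin N → (ZMod p)^r`). The sum is `SW D c b ∅ h X` (`SpR c b f` always holds). `dec` with `E = ∅`, `A = 0` (`nr ∅ = 1`; `Sp0` holds): `SW ≥ Re ∑_{T ∈ JJ} RW([· ⊆ T], h) - C X (log X)^{N-1} (log X)^{-1/2}`. Every `T ∈ JJ c` is `Jt c ϑ` with `ϑ` unlinked, and by `mw_rw` `RW = MW ϑ h X`.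
(1) Claim: `MW D c b ∅ ϑ h X = V(X) := ∑_f [Dj f, ∏ nr ≤ X, qf (f i) = 0 for all i] wtR c.del f (LL v (b k))` for unlinked `ϑ`: we have to show `∑_i ∑_{v ∈ f i} ϑ_i · (LL v (akR b f k))_k = 0` if `qf (f i) = 0` for all `i`. Let `g` be the refined family with `g ⟨i, ϑ_i⟩ = f i` and `∅` otherwise; `unR c g = f`, so by `rx_phase` the sum is `ph D c.pd b g`
(`= ph2` with `E = ∅`). `ph_cls2` (`MB/BPhB`) with `E = ∅`, `Lg` = the set of the `⟨i, ϑ_i⟩`, `s = fun _ => ∅`: `h1` is `Unl`, `h2`, `h3` are empty; it gives a function `F` with `ph2 g = F (classes)` for all admissible `g` supported on `Lg`; for our `g` all classes are `0`, as for the empty family, whose phase is `0`. So `ph g = F 0 = 0`. (`hp2`.)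
(2) `JJ c` is not empty: `ϑ = 0` is unlinked. `V ≥ 0`. So `SW ≥ V(X) - C X (log X)^{N-1} (log X)^{-1/2}`.
(3) `V(X) = (p^r)^{-N} ∑_ψ UW ψ X` (orthogonality for each `i`: `∑_{l ∈ (ZMod p)^r} ep(l · z) = p^r [z = 0]`: `alem_orth` in `MA/ALem`, product over `i`). By `psi` every `UW ψ X` is `UW 0 X ≥ 0` or `≤ C_ψ X (log X)^{N-1} (log X)^{-1/2}` in absolute value. So `V(X) ≥ (p^r)^{-N} (UW 0 X - C' X (log X)^{N-1} (log X)^{-1/2})`.
(4) `UW 0 X = ∑_f ∏_i ∏_{v ∈ f i} a i v`, `a i v = #Δ_i [Δ_i · (LL v (b k))_k = 0]`, `Δ_i = Θ_i ∩ L0`. Apply `tup`: `hlow` is `sing` for `Δ_i`; `hup` is `ubt` for `N = 1`, `Δ = fun _ => Δ_i`, `E = ∅`, `η = 1` (`tw D 1 (fun _ => Δ_i) b v = a i v`, `nr ∅ = 1`, `(1 + log y)^0 = 1`; all `n` are disjoint from `∅`). So `UW 0 X ≥ c X (log X)^{N-1}`, and the error terms are smaller for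
large `X`.
-/

set_option autoImplicit false

open scoped NumberField
open IsDedekindDomain
open scoped Classical

noncomputable section

namespace H38.BB

open H63.MA

variable {K : Type} [Field K] [NumberField K] {p : ℕ} {ζ : K} {m N : ℕ}

theorem lb_dt_zero {r : ℕ} (y : Fin r → ZMod p) : dt (0 : Fin r → ZMod p) y = 0 := by
  unfold dt
  simp

theorem lb_dt_zero' {r : ℕ} (y : Fin r → ZMod p) : dt y (0 : Fin r → ZMod p) = 0 := by
  unfold dt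
  simp

/-- the phase vanishes if all classes vanish -/
theorem lb_phase [NeZero p] (hp : p.Prime) (hp2 : MOne p K) (hζ : IsPrimitiveRoot ζ p)
    (D : RD K p ζ) (c : CR p m N) (b : Fin m → Kˣ) (hb : BS2 D.toRD0 b ∅)
    (ϑ : Fin N → Fin m → ZMod p) (hϑ : Unl c ϑ) (f : Fin N → Finset (Pl K)) (hf : Dj f)
    (hg : ∀ i, ∀ v ∈ f i, D.Gd v) (hq : ∀ i, qf D.toRD0 (f i) = 0) :
    ∑ i, ∑ v ∈ f i, dt (ϑ i) (fun k => D.LL v (akR D.toRD0 c b f k)) = 0 := by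
  obtain ⟨g, hgd⟩ : ∃ g : c.J → Finset (Pl K), ∀ a, g a = if a.2.1 = ϑ a.1 then f a.1 else ∅ :=
    ⟨_, fun _ => rfl⟩
  have hqe : qf D.toRD0 ∅ = 0 := by
    unfold qf
    rw [Finset.sum_empty]
  have hmem : ∀ a v, v ∈ g a → a.2.1 = ϑ a.1 ∧ v ∈ f a.1 := by
    intro a v hv
    rw [hgd] at hv
    by_cases h : a.2.1 = ϑ a.1
    · rw [if_pos h] at hv
      exact ⟨h, hv⟩
    · rw [if_neg h] at hv
      exact absurd hv (Finset.notMem_empty v)
  have hself : ∀ i, g ⟨i, ⟨ϑ i, hϑ.1 i⟩⟩ = f i := by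
    intro i
    exact (hgd ⟨i, ⟨ϑ i, hϑ.1 i⟩⟩).trans (if_pos rfl)
  have hun : unR c g = f := by
    funext i
    ext v
    rw [rx_mem]
    constructor
    · rintro ⟨a, rfl, hv⟩
      exact (hmem a v hv).2
    · intro hv
      refine ⟨⟨i, ⟨ϑ i, hϑ.1 i⟩⟩, rfl, ?_⟩
      rw [hself]
      exact hv
  have hgj : Dj g := by
    intro a a' haa
    rw [Finset.disjoint_left]
    intro v hv hv'
    obtain ⟨h1, h2⟩ := hmem a v hv
    obtain ⟨h3, h4⟩ := hmem a' v hv'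
    by_cases hi : a.1 = a'.1
    · apply haa
      obtain ⟨i, θ, hθ⟩ := a
      obtain ⟨i', θ', hθ'⟩ := a'
      change i = i' at hi
      subst hi
      change θ = ϑ i at h1
      change θ' = ϑ i at h3
      subst h1
      subst h3
      rfl
    · exact (Finset.disjoint_left.1 (hf _ _ hi)) h2 h4
  have hgood : ∀ a, ∀ v ∈ g a, D.Gd v := fun a v hv => hg _ v (hmem a v hv).2
  have hph := rx_phase hp hζ D c b g hgj (fun a v hv => (hgood a v hv).1)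
  rw [hun] at hph
  have hL : ∑ i, ∑ v ∈ f i, dt (ϑ i) (fun k => D.LL v (akR D.toRD0 c b f k)) =
      ∑ a, ∑ v ∈ g a, dt (c.pd.θ a) (fun k => D.LL v (akR D.toRD0 c b f k)) := by
    rw [psi_sum_sigma]
    apply Finset.sum_congr rfl
    intro i _
    rw [Finset.sum_eq_single (⟨ϑ i, hϑ.1 i⟩ : {θ : Fin m → ZMod p // θ ∈ c.Θ i})]
    · rw [hself]
      rfl
    · intro θ _ hθ
      have : g ⟨i, θ⟩ = ∅ :=
        (hgd ⟨i, θ⟩).trans (if_neg fun h => hθ (Subtype.ext h))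
      rw [this, Finset.sum_empty]
    · intro h
      exact absurd (Finset.mem_univ _) h
  rw [hL, hph]
  obtain ⟨Lg, hLg⟩ : ∃ Lg : Finset c.J, ∀ a, a ∈ Lg ↔ a.2.1 = ϑ a.1 :=
    ⟨Finset.univ.filter fun a => a.2.1 = ϑ a.1, fun a => by simp⟩
  obtain ⟨F, hF, _⟩ := ph_cls2 hp hp2 hζ D c.pd b ∅ (fun _ => 0) hb Lg (fun _ => ∅)
    (by
      intro a ha a' ha'
      rw [hLg] at ha ha'
      unfold PD.lk
      have e1 : c.pd.θ a = ϑ a.1 := ha
      have e2 : c.pd.θ a' = ϑ a'.1 := ha'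
      rw [e1, e2]
      exact hϑ.2 a.1 a'.1)
    (fun a _ l _ h => absurd rfl h)
    (fun a _ w hw => absurd hw (Finset.notMem_empty w))
  have hex : ∀ g' : c.J → Finset (Pl K), ph2 D.toRD0 c.pd b ∅ (fun _ => 0) g' =
      ph D.toRD0 c.pd b g' := by
    intro g'
    unfold ph2 ex
    simp
  have h1 := hF g ⟨⟨hgood, hgj⟩, fun _ => Finset.disjoint_empty_right _⟩ (by
    intro l hl
    rw [hgd]
    exact if_neg fun h => hl ((hLg l).2 h))
  have h2 := hF (fun _ => ∅) ⟨⟨fun _ v hv => absurd hv (Finset.notMem_empty v),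
    fun _ _ _ => Finset.disjoint_empty_left _⟩, fun _ => Finset.disjoint_empty_right _⟩
    (fun _ _ => rfl)
  rw [hex] at h1 h2
  have h3 : (fun a => qf D.toRD0 (g a)) = fun _ => qf D.toRD0 (∅ : Finset (Pl K)) := by
    funext a
    rw [hqe, hgd]
    split_ifs
    · exact hq _
    · exact hqe
  rw [h3] at h1
  rw [h1]
  refine Eq.trans h2.symm ?_
  unfold ph Lf
  simp

/-- orthogonality over all classes -/
theorem lb_orth [NeZero p] (hp : p.Prime) {r : ℕ} (z : Fin N → Fin r → ZMod p) :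
    ∑ ψ : Fin N → Fin r → ZMod p, ep p (∑ i, dt (ψ i) (z i)) =
      if ∀ i, z i = 0 then (((p : ℂ) ^ r) ^ N) else 0 := by
  have hep : ∀ (S : Finset (Fin N)) (g : Fin N → ZMod p),
      ep p (∑ i ∈ S, g i) = ∏ i ∈ S, ep p (g i) := by
    intro S g
    induction S using Finset.induction_on with
    | empty => rw [Finset.sum_empty, Finset.prod_empty, ep_zero]
    | insert a S ha ih => rw [Finset.prod_insert ha, Finset.sum_insert ha, ep_add hp, ih]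
  have h1 : ∑ ψ : Fin N → Fin r → ZMod p, ep p (∑ i, dt (ψ i) (z i)) =
      ∏ i, ∑ l : Fin r → ZMod p, ep p (dt l (z i)) := by
    rw [Finset.prod_univ_sum, Fintype.piFinset_univ]
    exact Finset.sum_congr rfl fun ψ _ => hep _ _
  rw [h1]
  have h2 : ∀ i, ∑ l : Fin r → ZMod p, ep p (dt l (z i)) =
      if z i = 0 then ((p : ℂ) ^ r) else 0 := by
    intro i
    exact alem_orth hp (z i)
  rw [Finset.prod_congr rfl fun i _ => h2 i]
  by_cases h : ∀ i, z i = 0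
  · rw [if_pos h]
    rw [Finset.prod_congr rfl fun i _ => if_pos (h i), Finset.prod_const, Finset.card_univ,
      Fintype.card_fin]
  · rw [if_neg h]
    obtain ⟨i, hi⟩ := not_forall.1 h
    exact Finset.prod_eq_zero (Finset.mem_univ i) (if_neg hi)

/-- the sum over the families with trivial classes -/
def lbV (D : RD0 K p ζ) (c : CR p m N) (b : Fin m → Kˣ) (Y : ℝ) : ℝ :=
  ∑ f ∈ Fintype.piFinset (fun _ : Fin N => GF D Y),
    if Dj f ∧ ∏ i, nr (f i) ≤ Y then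
      (if ∀ i, qf D (f i) = 0 then wtR c.del f (fun v k => D.LL v (b k)) else 0) else 0

theorem lb_wt_nonneg (c : CR p m N) (f : Fin N → Finset (Pl K)) (F : Pl K → Fin m → ZMod p) :
    0 ≤ wtR c f F := by
  unfold wtR
  apply Finset.prod_nonneg
  intro i _
  apply Finset.prod_nonneg
  intro v _
  split_ifs
  · exact Nat.cast_nonneg _
  · exact le_rfl

theorem lbV_nonneg (D : RD0 K p ζ) (c : CR p m N) (b : Fin m → Kˣ) (Y : ℝ) :
    0 ≤ lbV D c b Y := by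
  unfold lbV
  apply Finset.sum_nonneg
  intro f _
  split_ifs
  · exact lb_wt_nonneg _ _ _
  · exact le_rfl
  · exact le_rfl

theorem lbV_eq [NeZero p] (hp : p.Prime) (D : RD0 K p ζ) (c : CR p m N) (b : Fin m → Kˣ) (Y : ℝ) :
    (((p : ℂ) ^ D.r) ^ N) * ((lbV D c b Y : ℝ) : ℂ) =
      ∑ ψ : Fin N → Fin D.r → ZMod p, UW D c b ψ Y := by
  unfold UW lbV
  rw [Finset.sum_comm, Complex.ofReal_sum, Finset.mul_sum]
  apply Finset.sum_congr rfl
  intro f _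
  by_cases h : Dj f ∧ ∏ i, nr (f i) ≤ Y
  · rw [if_pos h]
    rw [Finset.sum_congr rfl fun ψ _ => if_pos h, ← Finset.sum_mul,
      lb_orth hp (fun i => qf D (f i))]
    by_cases h2 : ∀ i, qf D (f i) = 0
    · rw [if_pos h2, if_pos h2]
    · rw [if_neg h2, if_neg h2, Complex.ofReal_zero, mul_zero, zero_mul]
  · rw [if_neg h, Finset.sum_congr rfl fun ψ _ => if_neg h, Finset.sum_const_zero,
      Complex.ofReal_zero, mul_zero]

theorem lb_hyp (b : Fin m → Kˣ) (c : CR p m N)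
    (hi : ∀ θ : Fin m → ZMod p, θ ≠ 0 → ¬ IsPow p (bp b θ)) : Sp0 c b :=
  fun θ _ h => hi θ h

/-- the main term of an unlinked family -/
theorem lb_mw [NeZero p] (hp : p.Prime) (hp2 : MOne p K) (hζ : IsPrimitiveRoot ζ p)
    (D : RD K p ζ) (c : CR p m N) (b : Fin m → Kˣ) (hb : BS2 D.toRD0 b ∅)
    (ϑ : Fin N → Fin m → ZMod p) (hϑ : Unl c ϑ) (Y : ℝ) :
    MW D.toRD0 c b ∅ ϑ (fun q => if ∀ i, q i = 0 then 1 else 0) Y =
      ((lbV D.toRD0 c b Y : ℝ) : ℂ) := by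
  unfold MW lbV
  rw [Complex.ofReal_sum]
  apply Finset.sum_congr rfl
  intro f hf
  rw [Fintype.mem_piFinset] at hf
  have hdis : ∀ i, Disjoint (f i) (∅ : Finset (Pl K)) := fun i => Finset.disjoint_empty_right _
  by_cases h : Dj f ∧ ∏ i, nr (f i) ≤ Y
  · rw [if_pos ⟨h.1, hdis, h.2⟩, if_pos h]
    beta_reduce
    by_cases h2 : ∀ i, qf D.toRD0 (f i) = 0
    · rw [if_pos h2, if_pos h2, lb_phase hp hp2 hζ D c b hb ϑ hϑ f h.1
        (fun i v hv => ((akb_mem_GF D.toRD0).1 (hf i)).2 v hv) h2, ep_zero, one_mul, one_mul]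
    · rw [if_neg h2, if_neg h2, zero_mul, Complex.ofReal_zero]
  · rw [if_neg (fun hc => h ⟨hc.1, hc.2.2⟩), if_neg h, Complex.ofReal_zero]

/-- lower bound for the main term without class condition -/
theorem lb_main [NeZero p] (hp : p.Prime) (hp2 : MOne p K) (hζ : IsPrimitiveRoot ζ p) (D : RD K p ζ)
    (c : CR p m N) (hN : 1 ≤ N) (b : Fin m → Kˣ) (hb : BS2 D.toRD0 b ∅)
    (hi : ∀ θ : Fin m → ZMod p, θ ≠ 0 → ¬ IsPow p (bp b θ)) :
    ∃ c₁ X₁ : ℝ, 0 < c₁ ∧ 3 ≤ X₁ ∧ ∀ X : ℝ, X₁ ≤ X →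
      c₁ * X * Real.log X ^ (N - 1) ≤ (UW D.toRD0 c b 0 X).re := by
  obtain ⟨a, ha⟩ : ∃ a : Fin N → Pl K → ℝ, ∀ i v, a i v =
      if ∀ θ ∈ c.del.Θ i, dt θ (fun k => D.LL v (b k)) = 0 then (Nat.card (c.del.Θ i) : ℝ)
      else 0 := ⟨_, fun _ _ => rfl⟩
  obtain ⟨A₀, hA₀⟩ : ∃ A₀ : ℝ, A₀ = ∑ i, (Nat.card (c.del.Θ i) : ℝ) := ⟨_, rfl⟩
  have hb0 : ∀ k v, v ∉ D.S0 → ord v (b k) = 0 := fun k v hv =>
    hb.2 k v hv (Finset.notMem_empty v)
  have hnr0 : nr (∅ : Finset (Pl K)) = 1 := by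
    unfold nr
    rw [Finset.prod_empty]
  have ha1 : ∀ i v, 0 ≤ a i v ∧ a i v ≤ A₀ := by
    intro i v
    have h1 : (Nat.card (c.del.Θ i) : ℝ) ≤ A₀ := by
      rw [hA₀]
      exact Finset.single_le_sum (f := fun i => (Nat.card (c.del.Θ i) : ℝ))
        (fun _ _ => Nat.cast_nonneg _) (Finset.mem_univ i)
    have h2 : (0 : ℝ) ≤ (Nat.card (c.del.Θ i) : ℝ) := Nat.cast_nonneg _
    rw [ha]
    split_ifs
    · exact ⟨h2, h1⟩
    · exact ⟨le_rfl, h2.trans h1⟩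
  have hup : ∀ i, ∃ C : ℝ, ∀ y : ℝ, 1 ≤ y → ∑ n ∈ GF D.toRD0 y, ∏ v ∈ n, a i v ≤ C * y := by
    intro i
    obtain ⟨C, _, hC⟩ := ubt hp hζ D m 1 le_rfl (fun _ => c.del.Θ i) 1 one_pos
    refine ⟨C, fun y hy => ?_⟩
    have h1 := hC b ∅ hb (fun _ δ _ hδ => hi δ hδ) y hy
    rw [hnr0, Real.one_rpow, mul_one, pow_zero, mul_one] at h1
    refine le_trans (le_of_eq ?_) h1
    rw [Finset.filter_true_of_mem (fun n _ => Finset.disjoint_empty_right n)]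
    apply Finset.sum_congr rfl
    intro n _
    apply Finset.prod_congr rfl
    intro v _
    rw [ha]
    unfold tw
    rw [Fin.sum_univ_one]
    congr
  have hlow : ∀ i, ∃ c' T₀ : ℝ, 0 < c' ∧ 3 ≤ T₀ ∧ ∀ T : ℝ, T₀ ≤ T → ∃ y₁ : ℝ, 1 ≤ y₁ ∧
      ∀ y : ℝ, y₁ ≤ y → c' * Real.log T ^ (-3 : ℝ) * y ≤
        ∑ n ∈ (GF D.toRD0 y).filter (fun n => (∀ v ∈ n, T < (nm v : ℝ)) ∧ y / 2 < nr n),
          ∏ v ∈ n, a i v := by
    intro i
    obtain ⟨c', T₀, h1, h2, h3⟩ := sing hp hp2 hζ D.toRD0 b hb0 (c.del.Θ i)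
    refine ⟨c', T₀, h1, h2, fun T hT => ?_⟩
    obtain ⟨y₁, h4, h5⟩ := h3 T hT
    refine ⟨y₁, h4, fun y hy => (h5 y hy).trans (le_of_eq ?_)⟩
    apply Finset.sum_congr rfl
    intro n _
    apply Finset.prod_congr rfl
    intro v _
    rw [ha]
    congr
  obtain ⟨c₁, X₁, hc₁, hX₁, hmain⟩ := tup D.toRD0 N hN a A₀ ha1 hup hlow
  refine ⟨c₁, X₁, hc₁, hX₁, fun X hX => (hmain X hX).trans (le_of_eq ?_)⟩
  unfold UW
  rw [Complex.re_sum]
  apply Finset.sum_congr rfl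
  intro f _
  by_cases h : Dj f ∧ ∏ i, nr (f i) ≤ X
  · rw [if_pos h, if_pos h]
    have e0 : ∑ i, dt ((0 : Fin N → Fin D.r → ZMod p) i) (qf D.toRD0 (f i)) = 0 :=
      Finset.sum_eq_zero fun i _ => lb_dt_zero _
    rw [e0, ep_zero, one_mul, Complex.ofReal_re]
    unfold wtR
    apply Finset.prod_congr rfl
    intro i _
    apply Finset.prod_congr rfl
    intro v _
    rw [ha]
    congr
  · rw [if_neg h, if_neg h, Complex.zero_re]

theorem lb [NeZero p] (hp : p.Prime) (hp2 : MOne p K) (hζ : IsPrimitiveRoot ζ p) (D : RD K p ζ)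
    (c : CR p m N) (hN : 1 ≤ N) (b : Fin m → Kˣ) (hb : BS2 D.toRD0 b ∅)
    (hi : ∀ θ : Fin m → ZMod p, θ ≠ 0 → ¬ IsPow p (bp b θ)) :
    ∃ c₀ X₀ : ℝ, 0 < c₀ ∧ 3 ≤ X₀ ∧ ∀ X : ℝ, X₀ ≤ X →
      c₀ * X * Real.log X ^ (N - 1) ≤
        ∑ f ∈ Fintype.piFinset (fun _ : Fin N => GF D.toRD0 X),
          if Dj f ∧ ∏ i, nr (f i) ≤ X ∧ ∀ i, qf D.toRD0 (f i) = 0 then
            wtR c f (fun v k => D.LL v (akR D.toRD0 c b f k)) else 0 := by
  have h0 : Sp0 c b := lb_hyp b c hi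
  obtain ⟨er, her⟩ : ∃ er : ℝ → ℝ, ∀ Y, er Y =
      Y * Real.log Y ^ (N - 1) * Real.log Y ^ (-(1 / 2) : ℝ) := ⟨_, fun _ => rfl⟩
  have her0 : ∀ Y, 3 ≤ Y → 0 ≤ er Y := by
    intro Y hY
    have h1 : 0 ≤ Real.log Y := Real.log_nonneg (by linarith)
    rw [her]
    have h2 : 0 ≤ Real.log Y ^ (-(1 / 2) : ℝ) := Real.rpow_nonneg h1 _
    have h3 : 0 ≤ Real.log Y ^ (N - 1) := pow_nonneg h1 _
    have h4 : 0 ≤ Y := by linarith
    exact mul_nonneg (mul_nonneg h4 h3) h2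
  obtain ⟨c₁, X₁, hc₁, hX₁, hmain⟩ := lb_main hp hp2 hζ D c hN b hb hi
  -- all twists
  have htw : ∀ ψ : Fin N → Fin D.r → ZMod p, ∃ C X₀ : ℝ, 0 ≤ C ∧ 3 ≤ X₀ ∧ ∀ Y : ℝ, X₀ ≤ Y →
      -(C * er Y) ≤ (UW D.toRD0 c b ψ Y).re - (if ψ = 0 then (UW D.toRD0 c b 0 Y).re else 0) := by
    intro ψ
    by_cases hψ : ψ = 0
    · refine ⟨0, 3, le_rfl, le_rfl, fun Y _ => ?_⟩
      rw [if_pos hψ, hψ, sub_self, zero_mul, neg_zero]
    rcases psi hp hζ D c hN b hb h0 ψ with h | ⟨C, X₀, hC, hX₀, h⟩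
    · refine ⟨0, X₁, le_rfl, hX₁, fun Y hY => ?_⟩
      rw [if_neg hψ, sub_zero, h Y, zero_mul, neg_zero]
      refine le_trans ?_ (hmain Y hY)
      have h1 : 0 ≤ Real.log Y := Real.log_nonneg (by linarith)
      have h2 : 0 ≤ Y := by linarith
      exact mul_nonneg (mul_nonneg hc₁.le h2) (pow_nonneg h1 _)
    · refine ⟨C, X₀, hC.le, hX₀, fun Y hY => ?_⟩
      rw [if_neg hψ, sub_zero, her]
      have h1 := h Y hY
      have h2 := (abs_le.1 ((Complex.abs_re_le_norm (UW D.toRD0 c b ψ Y)).trans h1)).1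
      refine le_trans (le_of_eq ?_) h2
      ring
  choose C X₀ hC hX₀ htw' using htw
  obtain ⟨C₂, X₂, hC₂, hX₂, hdec⟩ := dec hp hp2 hζ D c hN 0
  obtain ⟨C₃, hC₃⟩ : ∃ C₃ : ℝ, C₃ = ∑ ψ, C ψ := ⟨_, rfl⟩
  have hC₃0 : 0 ≤ C₃ := by
    rw [hC₃]
    exact Finset.sum_nonneg fun ψ _ => hC ψ
  obtain ⟨X₃, hX₃⟩ : ∃ X₃ : ℝ, X₃ = ∑ ψ, X₀ ψ := ⟨_, rfl⟩
  have hX₃1 : ∀ ψ, X₀ ψ ≤ X₃ := by
    intro ψ
    rw [hX₃]
    exact Finset.single_le_sum (f := X₀) (fun ψ' _ => by linarith [hX₀ ψ']) (Finset.mem_univ ψ)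
  have hp0 : (0 : ℝ) < p := by exact_mod_cast hp.pos
  obtain ⟨P, hP⟩ : ∃ P : ℝ, P = ((p : ℝ) ^ D.r) ^ N := ⟨_, rfl⟩
  have hP0 : 0 < P := by
    rw [hP]
    positivity
  have hP1 : 1 ≤ P := by
    rw [hP]
    exact one_le_pow₀ (one_le_pow₀ (by exact_mod_cast hp.one_lt.le))
  have hV : ∀ Y, X₁ ≤ Y → X₃ ≤ Y → 3 ≤ Y →
      c₁ * Y * Real.log Y ^ (N - 1) - C₃ * er Y ≤ P * lbV D.toRD0 c b Y := by
    intro Y hY1 hY3 _
    have h1 : P * lbV D.toRD0 c b Y = ∑ ψ, (UW D.toRD0 c b ψ Y).re := by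
      rw [← Complex.re_sum, ← lbV_eq hp D.toRD0 c b Y, hP]
      have e1 : (((p : ℂ) ^ D.r) ^ N) * ((lbV D.toRD0 c b Y : ℝ) : ℂ) =
          (((((p : ℝ) ^ D.r) ^ N * lbV D.toRD0 c b Y : ℝ)) : ℂ) := by
        push_cast
        ring
      rw [e1, Complex.ofReal_re]
    rw [h1]
    have h2 : ∑ ψ, -(C ψ * er Y) ≤ ∑ ψ, ((UW D.toRD0 c b ψ Y).re -
        (if ψ = 0 then (UW D.toRD0 c b 0 Y).re else 0)) :=
      Finset.sum_le_sum fun ψ _ => htw' ψ Y ((hX₃1 ψ).trans hY3)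
    rw [Finset.sum_sub_distrib, Finset.sum_ite_eq', if_pos (Finset.mem_univ _),
      Finset.sum_neg_distrib, ← Finset.sum_mul, ← hC₃] at h2
    have h3 := hmain Y hY1
    linarith
  -- the decomposition
  obtain ⟨S, hS⟩ : ∃ S : ℝ → ℝ, ∀ X, S X =
      ∑ f ∈ Fintype.piFinset (fun _ : Fin N => GF D.toRD0 X),
          if Dj f ∧ ∏ i, nr (f i) ≤ X ∧ ∀ i, qf D.toRD0 (f i) = 0 then
            wtR c f (fun v k => D.LL v (akR D.toRD0 c b f k)) else 0 := ⟨_, fun _ => rfl⟩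
  have hSW : ∀ X, SW D.toRD0 c b ∅ (fun q => if ∀ i, q i = 0 then 1 else 0) X = S X := by
    intro X
    rw [hS]
    unfold SW
    apply Finset.sum_congr rfl
    intro f _
    have hdis : ∀ i, Disjoint (f i) (∅ : Finset (Pl K)) := fun i => Finset.disjoint_empty_right _
    have hsp : SpR c b f := fun θ hθ => Or.inr (hi θ hθ)
    by_cases h : Dj f ∧ ∏ i, nr (f i) ≤ X
    · rw [if_pos ⟨h.1, hdis, h.2, hsp⟩]
      beta_reduce
      by_cases h2 : ∀ i, qf D.toRD0 (f i) = 0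
      · rw [if_pos h2, if_pos ⟨h.1, h.2, h2⟩, one_mul]
      · rw [if_neg h2, if_neg (fun hc => h2 hc.2.2), zero_mul]
    · rw [if_neg (fun hc => h ⟨hc.1, hc.2.2.1⟩), if_neg (fun hc => h ⟨hc.1, hc.2.1⟩)]
  have hnr0 : nr (∅ : Finset (Pl K)) = 1 := by
    unfold nr
    rw [Finset.prod_empty]
  have hJJ : (JJ c).Nonempty := by
    refine ⟨Jt c 0, ?_⟩
    unfold JJ
    rw [Finset.mem_image]
    refine ⟨0, ?_, rfl⟩
    rw [Finset.mem_filter]
    refine ⟨Finset.mem_univ _, fun i => (c.Θ i).zero_mem, fun i j => ?_⟩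
    have e1 : dt ((0 : Fin N → Fin m → ZMod p) i) (c.x j) = 0 := lb_dt_zero _
    have e2 : dt ((0 : Fin N → Fin m → ZMod p) j) (c.x i) = 0 := lb_dt_zero _
    rw [e1, e2, add_zero]
  have hlow : ∀ Y, X₂ ≤ Y → lbV D.toRD0 c b Y - C₂ * er Y ≤ S Y := by
    intro Y hY
    have h1 := hdec Y hY b ∅ hb (by rw [hnr0, pow_zero]) h0
      (fun q => if ∀ i, q i = 0 then 1 else 0) (by
        intro q
        split_ifs
        · rw [abs_one]
        · rw [abs_zero]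
          exact zero_le_one)
    have h2 : ∀ T ∈ JJ c, RW D.toRD0 c b ∅ (fun S => if S ⊆ T then 1 else 0)
        (fun q => (((if ∀ i, q i = 0 then 1 else 0 : ℝ)) : ℂ)) Y =
        ((lbV D.toRD0 c b Y : ℝ) : ℂ) := by
      intro T hT
      unfold JJ at hT
      rw [Finset.mem_image] at hT
      obtain ⟨ϑ, hϑ, rfl⟩ := hT
      have hϑ' := (Finset.mem_filter.1 hϑ).2
      rw [← mw_rw hp hζ D c b ∅ ϑ hϑ'.1, ← lb_mw hp hp2 hζ D c b hb ϑ hϑ' Y]
      congr 1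
      funext q
      split_ifs
      · exact Complex.ofReal_one
      · exact Complex.ofReal_zero
    rw [Finset.sum_congr rfl h2, Finset.sum_const, hSW, nsmul_eq_mul] at h1
    have h3 : (((S Y : ℝ) : ℂ) - ((JJ c).card : ℂ) * ((lbV D.toRD0 c b Y : ℝ) : ℂ)) =
        ((S Y - (JJ c).card * lbV D.toRD0 c b Y : ℝ) : ℂ) := by
      push_cast
      ring
    rw [h3, Complex.norm_real, Real.norm_eq_abs] at h1
    have h4 := (abs_le.1 h1).1
    have h5 : (1 : ℝ) ≤ (JJ c).card := by exact_mod_cast Finset.card_pos.2 hJJ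
    have h6 := lbV_nonneg D.toRD0 c b Y
    have h7 : lbV D.toRD0 c b Y ≤ (JJ c).card * lbV D.toRD0 c b Y :=
      le_mul_of_one_le_left h6 h5
    have h8 : C₂ * Y * Real.log Y ^ (N - 1) * Real.log Y ^ (-(1 / 2) : ℝ) = C₂ * er Y := by
      rw [her]
      ring
    rw [h8] at h4
    linarith
  -- the end
  obtain ⟨C₄, hC₄⟩ : ∃ C₄ : ℝ, C₄ = C₃ + P * C₂ := ⟨_, rfl⟩
  have hC₄0 : 0 < C₄ := by
    rw [hC₄]
    have := mul_pos hP0 hC₂
    linarith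
  obtain ⟨X₄, hX₄⟩ : ∃ X₄ : ℝ, X₄ = Real.exp ((2 * C₄ / c₁) ^ 2) := ⟨_, rfl⟩
  refine ⟨c₁ / (2 * P), max (max X₁ X₂) (max X₃ X₄), by positivity,
    hX₁.trans ((le_max_left _ _).trans (le_max_left _ _)), ?_⟩
  intro X hX
  have k1 : X₁ ≤ X := ((le_max_left _ _).trans (le_max_left _ _)).trans hX
  have k2 : X₂ ≤ X := ((le_max_right _ _).trans (le_max_left _ _)).trans hX
  have k3 : X₃ ≤ X := ((le_max_left _ _).trans (le_max_right _ _)).trans hX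
  have k4 : X₄ ≤ X := ((le_max_right _ _).trans (le_max_right _ _)).trans hX
  have k5 : 3 ≤ X := hX₁.trans k1
  rw [← hS]
  have h1 := hlow X k2
  have h2 := hV X k1 k3 k5
  have hX0 : 0 < X := by linarith
  have hl : (2 * C₄ / c₁) ^ 2 ≤ Real.log X := by
    rw [Real.le_log_iff_exp_le hX0, ← hX₄]
    exact k4
  have hl0 : 0 < Real.log X := Real.log_pos (by linarith)
  have hq : 2 * C₄ / c₁ ≤ Real.log X ^ ((1 / 2) : ℝ) := by
    rw [← Real.sqrt_eq_rpow]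
    exact Real.le_sqrt_of_sq_le hl
  have hr : C₄ * Real.log X ^ (-(1 / 2) : ℝ) ≤ c₁ / 2 := by
    rw [Real.rpow_neg hl0.le]
    have hpos : 0 < Real.log X ^ ((1 / 2) : ℝ) := Real.rpow_pos_of_pos hl0 _
    rw [← div_eq_mul_inv, div_le_iff₀ hpos]
    rw [div_le_iff₀ hc₁] at hq
    linarith
  have hM : 0 ≤ X * Real.log X ^ (N - 1) := mul_nonneg hX0.le (pow_nonneg hl0.le _)
  have hs : C₄ * er X ≤ c₁ / 2 * (X * Real.log X ^ (N - 1)) := by
    rw [her]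
    calc C₄ * (X * Real.log X ^ (N - 1) * Real.log X ^ (-(1 / 2) : ℝ)) =
        (C₄ * Real.log X ^ (-(1 / 2) : ℝ)) * (X * Real.log X ^ (N - 1)) := by ring
      _ ≤ _ := mul_le_mul_of_nonneg_right hr hM
  have hfin : c₁ / 2 * (X * Real.log X ^ (N - 1)) ≤ P * S X := by
    have h3 := mul_le_mul_of_nonneg_left h1 hP0.le
    rw [hC₄] at hs
    have e1 : P * (lbV D.toRD0 c b X - C₂ * er X) =
        P * lbV D.toRD0 c b X - P * C₂ * er X := by ring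
    rw [e1] at h3
    have e2 : c₁ * X * Real.log X ^ (N - 1) = c₁ * (X * Real.log X ^ (N - 1)) := by ring
    rw [e2] at h2
    have e3 : (C₃ + P * C₂) * er X = C₃ * er X + P * C₂ * er X := by ring
    rw [e3] at hs
    linarith
  have e4 : c₁ / (2 * P) * X * Real.log X ^ (N - 1) =
      (c₁ / 2 * (X * Real.log X ^ (N - 1))) / P := by
    field_simp
  rw [e4, div_le_iff₀ hP0]
  linarith

end H38.BB
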