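import Pool.Agent.H38.BB.CDef
import Pool.Agent.H38.BB.ABlk
import Pool.Agent.H63.MB.BKA
import Pool.Agent.H63.MB.BKB
import Pool.Agent.H63.MB.BKM

/-!
# [H38 BB CBLK] the blocks of the refined sum, 150-220 lines (compare `bg_inner`, `bg_block` in `MB/BGa`)

The refined sum `RW` with a weight `ω` of the support is small if `ω` vanishes on the full supports and if for two different refined indices of the same class in the support, with difference `δ` orthogonal to all vectors of the support, `b^δ` is not a `p`-th power.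

Proof. Apply `ablk` with `J = c.J`, `Ψ g = if Dj g ∧ (∀ a, Disjoint (g a) E) then ω (sup g) * (h (clR …) * ep (ph …)) else 0` (`‖Ψ g‖ ≤ 1`), the given `A`, and `B₁` = the maximum of the `B₁` of `kpa2`, `kpb2`, `kpm2` (for `P = c.pd`, `blk` the constant map to `Fin 1`, exponent `A = 1`; a larger `B₁` is a stronger condition on `z₂` because `z₁, log Y ≥ 1`;
`X₀` the maximum of all `X₀`). Let `(Lg, s)` be a block, `Ne = {l ∉ Lg : s l ≠ ∅}`, `S = Lg ∪ Ne`. For all `g` in the sum with `z₂ < nr (g a)`, `a ∈ Lg` (`z₂ ≥ 1`, so `g a ≠ ∅`), `sup g = S`, so the block sum is `ω S * TT2 D c.pd b E 0 blk Y Y Lg z₂ s h'`, with `h' q = h (clR D c q)` and `η = 0` (`ph2 = ph` as `ex = 0`); compare `bg_inner` in `MB/BGa`.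
If `ω S = 0` the sum is `0`. Otherwise:
* if two elements of `Lg` are linked: `kpa2` (with exponent `1`: `(log Y)^(-1) = (log Y)⁻¹`, `∏ i : Fin 1, Y = Y`).
* otherwise, if some `a ∈ Lg` is linked to some `l ∈ Ne`, or `mu2 D c.pd b 0 a w ≠ 0` for some `a ∈ Lg`, `w ∈ E`: `kpb2`.
* otherwise `kpm2` gives `c₀` with `‖TT2 - c₀ TN2‖ ≤ Y / sn / log Y`. If there are `a ≠ a'` in `Lg` of the same class, then `x a = x a'`, and for `a'' ∈ S`: `0 = lk a a'' - lk a' a'' = (θ a - θ a') · x a''`; so by hypothesis `b^(θ a - θ a')` is not a `p`-th power; `h'` is invariant under the shifts of the pair `(a, a')` (`clR` sums over the class); so `c₀ = 0`, and the block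
  is small. If there is no such pair, `a ↦ a.1` is injective on `Lg`, so `#Lg ≤ N`, and either `#Lg < N` or all classes occur in `Lg`; in the latter case `S` is full (`Lg ⊆ S`, unlinked with all of `S`), so `ω S = 0`, a contradiction.
-/

set_option autoImplicit false

open scoped NumberField
open IsDedekindDomain
open scoped Classical

noncomputable section

namespace H38.BB

open H63.MA

variable {K : Type} [Field K] [NumberField K] {p : ℕ} {ζ : K} {m N : ℕ}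

theorem cblk_x (c : CR p m N) {a a' : c.J} (h : a.1 = a'.1) : c.pd.x a = c.pd.x a' := by
  show c.x a.1 = c.x a'.1
  rw [h]

theorem cblk_lk (c : CR p m N) {a a' l : c.J} (hx : c.pd.x a = c.pd.x a')
    (h1 : c.pd.lk a l = 0) (h2 : c.pd.lk a' l = 0) : dt (c.pd.θ a - c.pd.θ a') (c.pd.x l) = 0 := by
  rw [acmb_dt_sub]
  unfold PD.lk at h1 h2
  rw [hx] at h1
  have h3 : dt (c.pd.θ a) (c.pd.x l) = - dt (c.pd.θ l) (c.pd.x a') := eq_neg_of_add_eq_zero_left h1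
  have h4 : dt (c.pd.θ a') (c.pd.x l) = - dt (c.pd.θ l) (c.pd.x a') := eq_neg_of_add_eq_zero_left h2
  rw [h3, h4, sub_self]

def cblkMk (c : CR p m N) (i : Fin N) (t : {t : Fin m → ZMod p // t ∈ c.Θ i}) : c.J := ⟨i, t⟩

theorem cblk_one [NeZero p] {G : Type} [AddCommMonoid G] (c : CR p m N) (a : c.J) (i : Fin N)
    (u : G) :
    (∑ t : {t : Fin m → ZMod p // t ∈ c.Θ i}, if cblkMk c i t = a then u else 0) =
      if a.1 = i then u else 0 := by
  obtain ⟨i', θ⟩ := a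
  by_cases h : i' = i
  · subst h
    have h1 : ∀ t : {t : Fin m → ZMod p // t ∈ c.Θ i'},
        (cblkMk c i' t = (⟨i', θ⟩ : c.J)) = (t = θ) := by
      intro t
      refine propext ⟨fun h => ?_, fun h => by rw [h]; rfl⟩
      exact eq_of_heq (Sigma.mk.inj_iff.1 h).2
    simp only [h1]
    rw [Finset.sum_ite_eq', if_pos (Finset.mem_univ _)]
    exact (if_pos trivial).symm
  · have h2 : ∀ t ∈ (Finset.univ : Finset {t : Fin m → ZMod p // t ∈ c.Θ i}),
        (if cblkMk c i t = (⟨i', θ⟩ : c.J) then u else 0) = 0 := by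
      intro t _
      rw [if_neg]
      intro h3
      exact h (congrArg Sigma.fst h3).symm
    rw [Finset.sum_eq_zero h2]
    exact (if_neg h).symm

theorem cblk_shift [NeZero p] (D : RD0 K p ζ) (c : CR p m N) {a a' : c.J} (hne : a ≠ a')
    (h1 : a.1 = a'.1) (q : c.J → Fin D.r → ZMod p) (u : Fin D.r → ZMod p) :
    clR D c (Function.update (Function.update q a (q a + u)) a' (q a' - u)) = clR D c q := by
  have h2 : ∀ e : c.J, Function.update (Function.update q a (q a + u)) a' (q a' - u) e =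
      q e + ((if e = a then u else 0) - (if e = a' then u else 0)) := by
    intro e
    by_cases h3 : e = a'
    · subst h3
      rw [Function.update_self, if_pos rfl, if_neg (Ne.symm hne)]
      rw [zero_sub, sub_eq_add_neg]
    · rw [Function.update_of_ne h3, if_neg h3]
      by_cases h4 : e = a
      · subst h4
        rw [Function.update_self, if_pos rfl, sub_zero]
      · rw [Function.update_of_ne h4, if_neg h4, sub_zero, add_zero]
  funext i
  show (∑ t : {t : Fin m → ZMod p // t ∈ c.Θ i},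
    Function.update (Function.update q a (q a + u)) a' (q a' - u) (cblkMk c i t)) =
      ∑ t : {t : Fin m → ZMod p // t ∈ c.Θ i}, q (cblkMk c i t)
  rw [Finset.sum_congr rfl fun t _ => h2 (cblkMk c i t), Finset.sum_add_distrib,
    Finset.sum_sub_distrib, cblk_one, cblk_one, h1, sub_self, add_zero]

theorem cblk_ph2 {J : Type} [Fintype J] (D : RD0 K p ζ) (P : PD p m J) (b : Fin m → Kˣ)
    (E : Finset (Pl K)) (g : J → Finset (Pl K)) :
    ph2 D P b E (fun _ => 0) g = ph D P b g := by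
  have h0 : ∀ y : Fin m → ZMod p, dt (0 : Fin m → ZMod p) y = 0 := by
    intro y
    unfold dt
    exact Finset.sum_eq_zero fun k _ => by rw [Pi.zero_apply, zero_mul]
  have h1 : ex D P E (fun _ => 0) g = 0 := by
    unfold ex
    refine Finset.sum_eq_zero fun a _ => Finset.sum_eq_zero fun v _ =>
      Finset.sum_eq_zero fun w _ => ?_
    rw [h0, zero_mul]
  unfold ph2
  rw [h1, add_zero]

theorem cblk_inner [NeZero p] (D : RD K p ζ) (c : CR p m N) (b : Fin m → Kˣ) (E : Finset (Pl K))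
    (ω : Finset c.J → ℂ) (h : (Fin N → Fin D.r → ZMod p) → ℂ) (Y z₂ : ℝ) (hz₂ : 1 ≤ z₂)
    (Lg : Finset c.J) (s : c.J → Finset (Pl K)) :
    (∑ g ∈ Fintype.piFinset (fun a => if a ∈ Lg then GF D.toRD0 Y else {s a}),
      if (∀ a ∈ Lg, z₂ < nr (g a)) ∧ ∏ a, nr (g a) ≤ Y then
        (if Dj g ∧ (∀ a, Disjoint (g a) E) then
          ω (sup g) * (h (clR D.toRD0 c fun a => qf D.toRD0 (g a)) * ep p (ph D.toRD0 c.pd b g))
        else 0) else 0) =
      ω (Lg ∪ Finset.univ.filter fun l => l ∉ Lg ∧ s l ≠ ∅) *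
        TT2 D.toRD0 c.pd b E (fun _ => 0) (fun _ : c.J => (0 : Fin 1)) (fun _ => Y) Y Lg z₂ s
          (fun q => h (clR D.toRD0 c q)) := by
  have hsup : ∀ g ∈ Fintype.piFinset (fun a => if a ∈ Lg then GF D.toRD0 Y else {s a}),
      (∀ a ∈ Lg, z₂ < nr (g a)) →
      sup g = Lg ∪ Finset.univ.filter fun l => l ∉ Lg ∧ s l ≠ ∅ := by
    intro g hg hL
    have hg' : ∀ a, a ∉ Lg → g a = s a := by
      intro a ha
      have := (Fintype.mem_piFinset.1 hg) a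
      rw [if_neg ha, Finset.mem_singleton] at this
      exact this
    ext a
    unfold sup
    rw [Finset.mem_filter, Finset.mem_union, Finset.mem_filter]
    constructor
    · rintro ⟨-, h1⟩
      by_cases ha : a ∈ Lg
      · exact Or.inl ha
      · refine Or.inr ⟨Finset.mem_univ _, ha, ?_⟩
        rw [← hg' a ha]
        exact h1
    · intro h1
      refine ⟨Finset.mem_univ _, ?_⟩
      rcases h1 with h3 | h3
      · intro h4
        have h5 := hL a h3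
        rw [h4, aup_nr_empty] at h5
        linarith
      · rw [hg' a h3.2.1]
        exact h3.2.2
  have hprod : ∀ g : c.J → Finset (Pl K),
      (∀ i : Fin 1, ∏ a ∈ Finset.univ.filter (fun _ : c.J => (0 : Fin 1) = i), nr (g a) ≤ Y) ↔
        ∏ a, nr (g a) ≤ Y := by
    intro g
    constructor
    · intro h
      have := h 0
      rwa [Finset.filter_true_of_mem (fun _ _ => rfl)] at this
    · intro h i
      rw [Finset.filter_true_of_mem (fun _ _ => Subsingleton.elim _ _)]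
      exact h
  unfold TT2
  rw [Finset.mul_sum]
  refine Finset.sum_congr rfl fun g hg => ?_
  by_cases hL : ∀ a ∈ Lg, z₂ < nr (g a)
  · by_cases h1 : (Dj g ∧ (∀ a, Disjoint (g a) E)) ∧ ∏ a, nr (g a) ≤ Y
    · rw [if_pos ⟨hL, h1.2⟩, if_pos h1.1, if_pos, hsup g hg hL, cblk_ph2]
      exact ⟨⟨h1.1.1, hL, (hprod g).2 h1.2⟩, h1.1.2⟩
    · have h2 : ¬ Cond2 E (fun _ : c.J => (0 : Fin 1)) (fun _ => Y) Lg z₂ g := by
        intro h
        exact h1 ⟨⟨h.1.1, h.2⟩, (hprod g).1 h.1.2.2⟩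
      rw [if_neg h2, mul_zero]
      by_cases h3 : (∀ a ∈ Lg, z₂ < nr (g a)) ∧ ∏ a, nr (g a) ≤ Y
      · rw [if_pos h3, if_neg (fun h => h1 ⟨h, h3.2⟩)]
      · rw [if_neg h3]
  · rw [if_neg (fun h => hL h.1), if_neg (fun h => hL h.1.2.1), mul_zero]

theorem blk [NeZero p] (hp : p.Prime) (hp2 : MOne p K) (hζ : IsPrimitiveRoot ζ p) (D : RD K p ζ)
    (c : CR p m N) (hN : 1 ≤ N) (A : ℕ) :
    ∃ C X₀ : ℝ, 0 < C ∧ 3 ≤ X₀ ∧ ∀ Y : ℝ, X₀ ≤ Y → ∀ (b : Fin m → Kˣ) (E : Finset (Pl K)),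
      BS2 D.toRD0 b E → nr E ≤ Real.log Y ^ A → ∀ ω : Finset c.J → ℂ, (∀ S, ‖ω S‖ ≤ 1) →
      (∀ S, ω S ≠ 0 → ∀ a ∈ S, ∀ a' ∈ S, a.1 = a'.1 → a ≠ a' →
        (∀ a'' ∈ S, dt (c.pd.θ a - c.pd.θ a') (c.pd.x a'') = 0) →
          ¬ IsPow p (bp b (c.pd.θ a - c.pd.θ a'))) →
      (∀ S, Full c S → ω S = 0) →
      ∀ h : (Fin N → Fin D.r → ZMod p) → ℂ, (∀ q, ‖h q‖ ≤ 1) →
        ‖RW D.toRD0 c b E ω h Y‖ ≤
          C * Y * Real.log Y ^ (N - 1) * Real.log Y ^ (-(1 / 2) : ℝ) := by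
  obtain ⟨Ba, Xa, hXa, hka⟩ := kpa2 hp hζ D c.pd (fun _ : c.J => (0 : Fin 1)) 1
  obtain ⟨Bb, Xb, hXb, hkb⟩ := kpb2 hp hζ D c.pd (fun _ : c.J => (0 : Fin 1)) 1
  obtain ⟨Bc, Xc, hXc, hkc⟩ := kpm2 hp hp2 hζ D c.pd (fun _ : c.J => (0 : Fin 1)) 1
  obtain ⟨B, hB⟩ : ∃ B : ℕ, B = max Ba (max Bb Bc) := ⟨_, rfl⟩
  have hBa : Ba ≤ B := by rw [hB]; exact le_max_left _ _
  have hBb : Bb ≤ B := by rw [hB]; exact (le_max_left _ _).trans (le_max_right _ _)
  have hBc : Bc ≤ B := by rw [hB]; exact (le_max_right _ _).trans (le_max_right _ _)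
  obtain ⟨C, X₁, hC, hX₁, hab⟩ := ablk (J := c.J) D.toRD0 N hN B A
  obtain ⟨X₀, hX₀⟩ : ∃ X₀ : ℝ, X₀ = max X₁ (max Xa (max Xb Xc)) := ⟨_, rfl⟩
  have hX₀1 : X₁ ≤ X₀ := by rw [hX₀]; exact le_max_left _ _
  have hX₀a : Xa ≤ X₀ := by rw [hX₀]; exact (le_max_left _ _).trans (le_max_right _ _)
  have hX₀b : Xb ≤ X₀ := by
    rw [hX₀]
    exact ((le_max_left _ _).trans (le_max_right _ _)).trans (le_max_right _ _)
  have hX₀c : Xc ≤ X₀ := by
    rw [hX₀]
    exact ((le_max_right _ _).trans (le_max_right _ _)).trans (le_max_right _ _)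
  refine ⟨C, X₀, hC, hX₁.trans hX₀1, fun Y hY b E hb hE ω hω hω1 hω2 h hh => ?_⟩
  have hY3 : 3 ≤ Y := (hX₁.trans hX₀1).trans hY
  have hlog : 1 ≤ Real.log Y := by
    rw [Real.le_log_iff_exp_le (by linarith)]
    linarith [Real.exp_one_lt_d9]
  have hpw : ∀ (x z₂ : ℝ) (B' : ℕ), 1 ≤ x → B' ≤ B → x ^ B ≤ z₂ → x ^ B' ≤ z₂ :=
    fun x z₂ B' hx hB' h => (pow_le_pow_right₀ hx hB').trans h
  have hYi : ∀ _i : Fin 1, 0 < Y ∧ Y ≤ Y := fun _ => ⟨by linarith, le_rfl⟩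
  obtain ⟨Ψ, hΨ⟩ : ∃ Ψ : (c.J → Finset (Pl K)) → ℂ, ∀ g, Ψ g =
      if Dj g ∧ (∀ a, Disjoint (g a) E) then
        ω (sup g) * (h (clR D.toRD0 c fun a => qf D.toRD0 (g a)) * ep p (ph D.toRD0 c.pd b g))
      else 0 := ⟨_, fun _ => rfl⟩
  have hΨ1 : ∀ g, ‖Ψ g‖ ≤ 1 := by
    intro g
    rw [hΨ]
    split_ifs
    · rw [norm_mul, norm_mul, ep_norm, mul_one]
      exact mul_le_one₀ (hω _) (norm_nonneg _) (hh _)
    · rw [norm_zero]
      exact zero_le_one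
  have hRW : RW D.toRD0 c b E ω h Y = ∑ g ∈ Fintype.piFinset (fun _ : c.J => GF D.toRD0 Y),
      if ∏ a, nr (g a) ≤ Y then Ψ g else 0 := by
    unfold RW
    refine Finset.sum_congr rfl fun g _ => ?_
    by_cases h1 : ∏ a, nr (g a) ≤ Y
    · rw [if_pos h1, hΨ]
      by_cases h2 : Dj g ∧ (∀ a, Disjoint (g a) E)
      · rw [if_pos h2, if_pos ⟨h2.1, h2.2, h1⟩]
      · rw [if_neg h2, if_neg (fun h3 => h2 ⟨h3.1, h3.2.1⟩)]
    · rw [if_neg h1, if_neg (fun h3 => h1 h3.2.2)]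
  rw [hRW]
  refine hab Y (hX₀1.trans hY) Ψ hΨ1 ?_
  intro z₁ z₂ hz₁ hz₂ hlz hEz Lg s hs1 hs2
  have hz₂1 : 1 ≤ z₂ := (one_le_pow₀ hz₁).trans hz₂
  have hE' : nr E ≤ z₁ := hE.trans hEz
  obtain ⟨S, hS⟩ : ∃ S : Finset c.J, S = Lg ∪ Finset.univ.filter fun l => l ∉ Lg ∧ s l ≠ ∅ :=
    ⟨_, rfl⟩
  obtain ⟨T, hT⟩ : ∃ T : ℂ, T = TT2 D.toRD0 c.pd b E (fun _ => 0) (fun _ : c.J => (0 : Fin 1))
      (fun _ => Y) Y Lg z₂ s (fun q => h (clR D.toRD0 c q)) := ⟨_, rfl⟩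
  have hin : (∑ g ∈ Fintype.piFinset (fun a => if a ∈ Lg then GF D.toRD0 Y else {s a}),
      if (∀ a ∈ Lg, z₂ < nr (g a)) ∧ ∏ a, nr (g a) ≤ Y then Ψ g else 0) = ω S * T := by
    rw [hS, hT, ← cblk_inner D c b E ω h Y z₂ hz₂1 Lg s]
    refine Finset.sum_congr rfl fun g _ => ?_
    rw [hΨ]
  rw [hin]
  have hsn : 0 < sn Lg s := by
    unfold sn
    exact Finset.prod_pos fun l _ => akb_nr_pos _
  have hR : 0 ≤ Y / sn Lg s * (Real.log Y)⁻¹ := by positivity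
  by_cases hω0 : ω S = 0
  · right
    rw [hω0, zero_mul, norm_zero]
    exact hR
  have hsmall : ‖T‖ ≤ Y / sn Lg s * (Real.log Y)⁻¹ →
      ‖ω S * T‖ ≤ Y / sn Lg s * (Real.log Y)⁻¹ := by
    intro h1
    rw [norm_mul]
    exact (mul_le_of_le_one_left (norm_nonneg _) (hω _)).trans h1
  have hh' : ∀ q : c.J → Fin D.r → ZMod p, ‖h (clR D.toRD0 c q)‖ ≤ 1 := fun q => hh _
  by_cases h1 : ∃ a ∈ Lg, ∃ a' ∈ Lg, c.pd.lk a a' ≠ 0
  · right
    have := hka Y z₁ z₂ (hX₀a.trans hY) hz₁ (hpw _ _ _ hz₁ hBa hz₂)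
      (hpw _ _ _ hlog hBa hlz) (fun _ => Y) hYi b E (fun _ => 0) hb hE' Lg s hs2
      (fun q => h (clR D.toRD0 c q)) hh' h1
    rw [Fin.prod_univ_one, Real.rpow_neg_one, ← hT] at this
    exact hsmall this
  have h1' : ∀ a ∈ Lg, ∀ a' ∈ Lg, c.pd.lk a a' = 0 := by
    intro a ha a' ha'
    by_contra h
    exact h1 ⟨a, ha, a', ha', h⟩
  by_cases h2 : (∃ a ∈ Lg, ∃ l, l ∉ Lg ∧ s l ≠ ∅ ∧ c.pd.lk a l ≠ 0) ∨
      ∃ a ∈ Lg, ∃ w ∈ E, mu2 D c.pd b (fun _ => 0) a w ≠ 0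
  · right
    have := hkb Y z₁ z₂ (hX₀b.trans hY) hz₁ (hpw _ _ _ hz₁ hBb hz₂)
      (hpw _ _ _ hlog hBb hlz) (fun _ => Y) hYi b E (fun _ => 0) hb hE' Lg s hs2
      (fun q => h (clR D.toRD0 c q)) hh' h1' h2
    rw [Fin.prod_univ_one, Real.rpow_neg_one, ← hT] at this
    exact hsmall this
  have h2' : ∀ a ∈ Lg, ∀ l, l ∉ Lg → s l ≠ ∅ → c.pd.lk a l = 0 := by
    intro a ha l hl hsl
    by_contra h
    exact h2 (Or.inl ⟨a, ha, l, hl, hsl, h⟩)
  have h2'' : ∀ a ∈ Lg, ∀ w ∈ E, mu2 D c.pd b (fun _ => 0) a w = 0 := by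
    intro a ha w hw
    by_contra h
    exact h2 (Or.inr ⟨a, ha, w, hw, h⟩)
  have hun : ∀ a ∈ Lg, ∀ l ∈ S, c.pd.lk a l = 0 := by
    intro a ha l hl
    rw [hS, Finset.mem_union, Finset.mem_filter] at hl
    rcases hl with hl | hl
    · exact h1' a ha l hl
    · exact h2' a ha l hl.2.1 hl.2.2
  have hLS : Lg ⊆ S := by
    rw [hS]
    exact Finset.subset_union_left
  obtain ⟨c₀, hc₀, hc₁, hc2⟩ := hkc b E (fun _ => 0) hb Lg s (fun l hl v hv => (hs2 l hl).1 v hv)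
    (fun q => h (clR D.toRD0 c q)) hh' h1' h2' h2''
  have h3 := hc2 Y z₁ z₂ (hX₀c.trans hY) hz₁ (hpw _ _ _ hz₁ hBc hz₂)
    (hpw _ _ _ hlog hBc hlz) (fun _ => Y) hYi hE' (fun l hl => (hs2 l hl).2)
  rw [Fin.prod_univ_one, Real.rpow_neg_one, ← hT] at h3
  by_cases h4 : ∃ a ∈ Lg, ∃ a' ∈ Lg, a ≠ a' ∧ a.1 = a'.1
  · right
    obtain ⟨a, ha, a', ha', hne, hcl⟩ := h4
    have hx := cblk_x c hcl
    have hP : ¬ IsPow p (bp b (c.pd.θ a - c.pd.θ a')) := by
      refine hω1 S hω0 a (hLS ha) a' (hLS ha') hcl hne fun a'' ha'' => ?_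
      exact cblk_lk c hx (hun a ha a'' ha'') (hun a' ha' a'' ha'')
    have h5 := hc₁ ⟨a, ha, a', ha', hne, hx, hP, fun q u => by
      show h _ = h _
      rw [cblk_shift D.toRD0 c hne hcl q u]⟩
    rw [h5, zero_mul, sub_zero] at h3
    exact hsmall h3
  left
  have hinj : ∀ a ∈ Lg, ∀ a' ∈ Lg, a.1 = a'.1 → a = a' := by
    intro a ha a' ha' haa
    by_contra hne
    exact h4 ⟨a, ha, a', ha', hne, haa⟩
  have hinj' : Set.InjOn (fun a : c.J => a.1) (Lg : Set c.J) := by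
    intro a ha a' ha' haa
    exact hinj a ha a' ha' haa
  have hcard : (Lg.image fun a : c.J => a.1).card = Lg.card := Finset.card_image_of_injOn hinj'
  by_contra hge
  have huniv : (Lg.image fun a : c.J => a.1) = Finset.univ := by
    rw [← Finset.card_eq_iff_eq_univ, Fintype.card_fin]
    refine le_antisymm ?_ ?_
    · calc _ ≤ (Finset.univ : Finset (Fin N)).card := Finset.card_le_card (Finset.subset_univ _)
        _ = N := by rw [Finset.card_univ, Fintype.card_fin]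
    · rw [hcard]
      exact not_lt.1 hge
  refine hω0 (hω2 S ⟨Lg, hLS, fun i => ?_, hinj, fun a ha a' ha' => hun a ha a' ha'⟩)
  have : i ∈ Lg.image fun a : c.J => a.1 := by rw [huniv]; exact Finset.mem_univ _
  obtain ⟨a, ha, hai⟩ := Finset.mem_image.1 this
  exact ⟨a, ha, hai⟩

end H38.BB
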