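import Pool.Agent.H38.BB.CExp

/-!
# [H38 BB CSEL] the sums over families as sums over refined families, 120-200 lines

Use the statements of `CEXP`.
* `sl_sp`: `SpR c b (unR c g) ↔ SpA c b (sup g)` (`unR c g i ≠ ∅` iff some `g a ≠ ∅` with `a.1 = i`; `c.pd.x a = c.x a.1`).
* `sw_rw`: for fixed `f` (pairwise disjoint, in `GF D Y`), `wtR c f F = ∏_i ∏_{v ∈ f i} ∑_{a, a.1 = i} ep(θ_a · F v)` (`rx_char` for `Θ i`; the `a ∈ univ` with `a.1 = i` are the `⟨i, θ⟩`, `θ ∈ Θ i`), apply `rx_inner` with `S = univ` and `F v k = LL v (akR b f k)`, and exchange the sums: the sum over `f` and over the `g` with `unR c g = f` is a sum over all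
  pairwise disjoint `g ∈ (GF D Y)^J` (with `∏ nr ≤ Y` all `unR c g i ∈ GF D Y`, since every factor `nr ≥ 1` and the `g a` are good; if the condition `∏ nr (f i) = ∏ nr (g a) ≤ Y` fails both sides have no term). `rx_phase`, `rx_nr`, `rx_disj`, `rx_qf`, `sl_sp`. (Compare `gexp`, `sg_eq` in `MA/AExp`, `MA/ATupA`.)
* `mw_rw`: let `ϑ i ∈ Θ i`. For fixed `f` and `v ∈ f i`: `ep(ϑ_i · F v) * #Δ_i [Δ_i · (LL v (b k))_k = 0] = ∑_{δ ∈ Δ_i} ep((ϑ_i + δ) · F v)` with `Δ_i = Θ_i ∩ L0`, `F v k = LL v (akR b f k)`: for `δ ∈ L0`, `δ · F v = δ · (LL v (b k))_k` by `rx_ak` (`δ · x_j = 0` for all `j`); and `rx_char`. The map `δ ↦ ⟨i, ϑ_i + δ⟩` is a bijection from `Δ_i` to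
  the `a ∈ Jt c ϑ` with `a.1 = i`. So the weight with the phase is `∏_i ∏_{v ∈ f i} ∑_{a ∈ Jt c ϑ, a.1 = i} ep(θ_a · F v)`; apply `rx_inner` with `S = Jt c ϑ` and exchange the sums as before.
-/

set_option autoImplicit false

open scoped NumberField
open IsDedekindDomain
open scoped Classical

noncomputable section

namespace H38.BB

open H63.MA

variable {K : Type} [Field K] [NumberField K] {p : ℕ} {ζ : K} {m N : ℕ}

theorem sl_sp [NeZero p] (c : CR p m N) (b : Fin m → Kˣ) (g : c.J → Finset (Pl K)) :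
    SpR c b (unR c g) ↔ SpA c b (sup g) := by
  unfold SpR SpA
  refine forall_congr' fun θ => imp_congr_right fun _ => or_congr ?_ Iff.rfl
  constructor
  · rintro ⟨i, hi, hd⟩
    obtain ⟨v, hv⟩ := Finset.nonempty_iff_ne_empty.2 hi
    obtain ⟨a, rfl, hva⟩ := rx_mem.1 hv
    refine ⟨a, ?_, hd⟩
    unfold sup
    rw [Finset.mem_filter]
    exact ⟨Finset.mem_univ _, Finset.nonempty_iff_ne_empty.1 ⟨v, hva⟩⟩
  · rintro ⟨a, ha, hd⟩
    unfold sup at ha
    rw [Finset.mem_filter] at ha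
    obtain ⟨v, hv⟩ := Finset.nonempty_iff_ne_empty.2 ha.2
    exact ⟨a.1, Finset.nonempty_iff_ne_empty.1 ⟨v, rx_mem.2 ⟨a, rfl, hv⟩⟩, hd⟩

theorem csel_sum_J [NeZero p] {M : Type*} [AddCommMonoid M] (c : CR p m N) (F : c.J → M) :
    ∑ a, F a = ∑ i, ∑ θ : {θ : Fin m → ZMod p // θ ∈ c.Θ i}, F ⟨i, θ⟩ :=
  Fintype.sum_sigma (fun a : Σ i : Fin N, {θ : Fin m → ZMod p // θ ∈ c.Θ i} => F a)

theorem csel_fib [NeZero p] (c : CR p m N) (i : Fin N) (F : c.J → ℂ) :
    ∑ a ∈ (Finset.univ : Finset c.J).filter (fun a => a.1 = i), F a =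
      ∑ θ : {θ : Fin m → ZMod p // θ ∈ c.Θ i}, F ⟨i, θ⟩ := by
  rw [Finset.sum_filter, csel_sum_J]
  rw [Finset.sum_eq_single i]
  · refine Finset.sum_congr rfl fun θ _ => ?_
    exact if_pos rfl
  · intro j _ hj
    refine Finset.sum_eq_zero fun θ _ => ?_
    exact if_neg hj
  · intro h
    exact absurd (Finset.mem_univ _) h

theorem csel_fibJ [NeZero p] (c : CR p m N) (ϑ : Fin N → Fin m → ZMod p)
    (hϑ : ∀ i, ϑ i ∈ c.Θ i) (i : Fin N) (Ψ : (Fin m → ZMod p) → ℂ) :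
    ∑ a ∈ (Jt c ϑ).filter (fun a => a.1 = i), Ψ a.2.1 =
      ∑ δ : {δ : Fin m → ZMod p // δ ∈ c.Θ i ⊓ c.L0}, Ψ (ϑ i + δ.1) := by
  have h1 : (Jt c ϑ).filter (fun a => a.1 = i) =
      ((Finset.univ : Finset c.J).filter (fun a => a.1 = i)).filter
        (fun a => a.2.1 - ϑ a.1 ∈ c.L0) := by
    unfold Jt
    rw [Finset.filter_filter, Finset.filter_filter]
    exact Finset.filter_congr fun a _ => and_comm
  rw [h1, Finset.sum_filter,
    csel_fib c i (fun a => if a.2.1 - ϑ a.1 ∈ c.L0 then Ψ a.2.1 else 0)]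
  show ∑ θ : {θ : Fin m → ZMod p // θ ∈ c.Θ i},
    (if θ.1 - ϑ i ∈ c.L0 then Ψ θ.1 else 0) = _
  rw [← Finset.sum_filter]
  refine Finset.sum_bij' (fun θ hθ => (⟨θ.1 - ϑ i, (c.Θ i).sub_mem θ.2 (hϑ i),
      (Finset.mem_filter.1 hθ).2⟩ : {δ : Fin m → ZMod p // δ ∈ c.Θ i ⊓ c.L0}))
    (fun δ _ => (⟨ϑ i + δ.1, (c.Θ i).add_mem (hϑ i) δ.2.1⟩ :
      {θ : Fin m → ZMod p // θ ∈ c.Θ i})) ?_ ?_ ?_ ?_ ?_
  · intro θ _
    exact Finset.mem_univ _
  · intro δ _
    refine Finset.mem_filter.2 ⟨Finset.mem_univ _, ?_⟩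
    show ϑ i + δ.1 - ϑ i ∈ c.L0
    rw [add_sub_cancel_left]
    exact δ.2.2
  · intro θ _
    apply Subtype.ext
    show ϑ i + (θ.1 - ϑ i) = θ.1
    rw [add_sub_cancel]
  · intro δ _
    apply Subtype.ext
    show ϑ i + δ.1 - ϑ i = δ.1
    rw [add_sub_cancel_left]
  · intro θ _
    show Ψ θ.1 = Ψ (ϑ i + (θ.1 - ϑ i))
    rw [add_sub_cancel]

/-- exchange of the sums -/
theorem csel_gen [NeZero p] (D : RD K p ζ) (c : CR p m N) (b : Fin m → Kˣ)
    (E : Finset (Pl K)) (ω : Finset c.J → ℂ) (h : (Fin N → Fin D.r → ZMod p) → ℂ) (Y : ℝ)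
    (W : (Fin N → Finset (Pl K)) → ℂ)
    (hW : ∀ f : Fin N → Finset (Pl K), (∀ i, f i ∈ GF D.toRD0 Y) → Dj f →
      W f = ∑ g ∈ (Fintype.piFinset (fun _ : c.J => GF D.toRD0 Y)).filter
        (fun g => Dj g ∧ unR c g = f),
          ω (sup g) * (h (clR D.toRD0 c fun a => qf D.toRD0 (g a)) *
            ep p (ph D.toRD0 c.pd b g))) :
    ∑ f ∈ Fintype.piFinset (fun _ : Fin N => GF D.toRD0 Y),
      (if Dj f ∧ (∀ i, Disjoint (f i) E) ∧ ∏ i, nr (f i) ≤ Y then W f else 0) =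
      RW D.toRD0 c b E ω h Y := by
  unfold RW
  rw [← Finset.sum_filter, ← Finset.sum_filter]
  have hmem : ∀ g : c.J → Finset (Pl K), (∀ a, g a ∈ GF D.toRD0 Y) → Dj g →
      ∏ a, nr (g a) ≤ Y → ∀ i, unR c g i ∈ GF D.toRD0 Y := by
    intro g hg hdj hY i
    rw [atupa_mem_GF]
    refine ⟨?_, fun v hv => ?_⟩
    · rw [← rx_nr c g hdj] at hY
      exact (atupa_le_prod (unR c g) i).trans hY
    · obtain ⟨a, -, ha⟩ := rx_mem.1 hv
      exact (atupa_mem_GF.1 (hg a)).2 v ha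
  have hmaps : ∀ g ∈ (Fintype.piFinset (fun _ : c.J => GF D.toRD0 Y)).filter
      (fun g => Dj g ∧ (∀ a, Disjoint (g a) E) ∧ ∏ a, nr (g a) ≤ Y),
      unR c g ∈ (Fintype.piFinset (fun _ : Fin N => GF D.toRD0 Y)).filter
        (fun f => Dj f ∧ (∀ i, Disjoint (f i) E) ∧ ∏ i, nr (f i) ≤ Y) := by
    intro g hg
    rw [Finset.mem_filter, Fintype.mem_piFinset] at hg
    obtain ⟨h1, h2, h3, h4⟩ := hg
    rw [Finset.mem_filter, Fintype.mem_piFinset]
    exact ⟨hmem g h1 h2 h4, rx_dj h2, (rx_disj c g E).2 h3, by rw [rx_nr c g h2]; exact h4⟩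
  rw [← Finset.sum_fiberwise_of_maps_to hmaps]
  refine Finset.sum_congr rfl fun f hf => ?_
  rw [Finset.mem_filter, Fintype.mem_piFinset] at hf
  obtain ⟨hf1, hf2, hf3, hf4⟩ := hf
  rw [hW f hf1 hf2]
  have hset : ((Fintype.piFinset (fun _ : c.J => GF D.toRD0 Y)).filter
      (fun g => Dj g ∧ (∀ a, Disjoint (g a) E) ∧ ∏ a, nr (g a) ≤ Y)).filter
        (fun g => unR c g = f) =
      (Fintype.piFinset (fun _ : c.J => GF D.toRD0 Y)).filter
        (fun g => Dj g ∧ unR c g = f) := by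
    ext g
    simp only [Finset.mem_filter]
    constructor
    · rintro ⟨⟨h1, h2, -⟩, h4⟩
      exact ⟨h1, h2, h4⟩
    · rintro ⟨h1, h2, h4⟩
      refine ⟨⟨h1, h2, (rx_disj c g E).1 ?_, ?_⟩, h4⟩
      · rw [h4]
        exact hf3
      · rw [← rx_nr c g h2, h4]
        exact hf4
  rw [hset]

/-- multiplying out with a set of refined indices -/
theorem csel_inner [NeZero p] (hp : p.Prime) (hζ : IsPrimitiveRoot ζ p) (D : RD K p ζ)
    (c : CR p m N) (b : Fin m → Kˣ) (S : Finset c.J) (Y : ℝ) (f : Fin N → Finset (Pl K))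
    (hf : ∀ i, f i ∈ GF D.toRD0 Y) (hdj : Dj f) :
    ∏ i, ∏ v ∈ f i, ∑ a ∈ S.filter (fun a => a.1 = i),
      ep p (dt a.2.1 (fun k => D.LL v (akR D.toRD0 c b f k))) =
      ∑ g ∈ (Fintype.piFinset (fun _ : c.J => GF D.toRD0 Y)).filter
        (fun g => Dj g ∧ unR c g = f),
        (if sup g ⊆ S then 1 else 0) * ep p (ph D.toRD0 c.pd b g) := by
  have h1 := rx_inner hp D.toRD0 c S Y f hf hdj (fun v k => D.LL v (akR D.toRD0 c b f k))
  refine h1.trans ?_
  have hset : (Fintype.piFinset (fun _ : c.J => GF D.toRD0 Y)).filter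
        (fun g => Dj g ∧ unR c g = f ∧ sup g ⊆ S) =
      ((Fintype.piFinset (fun _ : c.J => GF D.toRD0 Y)).filter
        (fun g => Dj g ∧ unR c g = f)).filter (fun g => sup g ⊆ S) := by
    rw [Finset.filter_filter]
    exact Finset.filter_congr fun g _ => by rw [and_assoc]
  rw [hset, Finset.sum_filter]
  refine Finset.sum_congr rfl fun g hg => ?_
  rw [Finset.mem_filter, Fintype.mem_piFinset] at hg
  obtain ⟨hg1, hg2, hg3⟩ := hg
  by_cases hS : sup g ⊆ S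
  · rw [if_pos hS, if_pos hS, one_mul, ← rx_phase hp hζ D c b g hg2 (fun a v hv =>
      ((atupa_mem_GF.1 (hg1 a)).2 v hv).1), hg3]
  · rw [if_neg hS, if_neg hS, zero_mul]

theorem csel_wt [NeZero p] (hp : p.Prime) (c : CR p m N) (f : Fin N → Finset (Pl K))
    (F : Pl K → Fin m → ZMod p) : ((wtR c f F : ℝ) : ℂ) =
      ∏ i, ∏ v ∈ f i, ∑ δ : {δ : Fin m → ZMod p // δ ∈ c.Θ i}, ep p (dt δ.1 (F v)) := by
  unfold wtR
  rw [Complex.ofReal_prod]
  refine Finset.prod_congr rfl fun i _ => ?_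
  rw [Complex.ofReal_prod]
  refine Finset.prod_congr rfl fun v _ => ?_
  rw [← rx_char hp (c.Θ i) (F v)]
  by_cases h1 : ∀ θ ∈ c.Θ i, dt θ (F v) = 0
  · rw [if_pos h1, if_pos h1]
  · rw [if_neg h1, if_neg h1]

theorem csel_ep_sum (hp : p.Prime) {I : Type*} (s : Finset I) (f : I → ZMod p) :
    ep p (∑ i ∈ s, f i) = ∏ i ∈ s, ep p (f i) := by
  induction s using Finset.induction_on with
  | empty => rw [Finset.sum_empty, Finset.prod_empty, ep_zero]
  | insert a s ha ih => rw [Finset.sum_insert ha, Finset.prod_insert ha, ep_add hp, ih]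

theorem sw_rw [NeZero p] (hp : p.Prime) (hζ : IsPrimitiveRoot ζ p) (D : RD K p ζ) (c : CR p m N)
    (b : Fin m → Kˣ) (E : Finset (Pl K)) (h : (Fin N → Fin D.r → ZMod p) → ℝ) (Y : ℝ) :
    ((SW D.toRD0 c b E h Y : ℝ) : ℂ) =
      RW D.toRD0 c b E (fun S => if SpA c b S then 1 else 0) (fun q => ((h q : ℝ) : ℂ)) Y := by
  have key := csel_gen D c b E (fun S => if SpA c b S then 1 else 0)
    (fun q => ((h q : ℝ) : ℂ)) Y
    (fun f => if SpR c b f then ((h (fun i => qf D.toRD0 (f i)) : ℝ) : ℂ) *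
      ((wtR c f (fun v k => D.LL v (akR D.toRD0 c b f k)) : ℝ) : ℂ) else 0) ?_
  · rw [← key]
    unfold SW
    rw [Complex.ofReal_sum]
    refine Finset.sum_congr rfl fun f _ => ?_
    by_cases h1 : Dj f ∧ (∀ i, Disjoint (f i) E) ∧ ∏ i, nr (f i) ≤ Y
    · by_cases h2 : SpR c b f
      · rw [if_pos ⟨h1.1, h1.2.1, h1.2.2, h2⟩, if_pos h1, if_pos h2, Complex.ofReal_mul]
      · rw [if_neg (fun h3 => h2 h3.2.2.2), if_pos h1, if_neg h2, Complex.ofReal_zero]
    · rw [if_neg (fun h3 => h1 ⟨h3.1, h3.2.1, h3.2.2.1⟩), if_neg h1, Complex.ofReal_zero]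
  · intro f hf hdj
    have hq : ∀ g : c.J → Finset (Pl K), Dj g → unR c g = f →
        clR D.toRD0 c (fun a => qf D.toRD0 (g a)) = fun i => qf D.toRD0 (f i) := by
      intro g hg hgf
      funext i
      rw [← rx_qf D.toRD0 c g hg i, hgf]
    by_cases h2 : SpR c b f
    · rw [if_pos h2, csel_wt hp]
      have h3 : ∏ i, ∏ v ∈ f i, ∑ δ : {δ : Fin m → ZMod p // δ ∈ c.Θ i},
          ep p (dt δ.1 (fun k => D.LL v (akR D.toRD0 c b f k))) =
          ∏ i, ∏ v ∈ f i, ∑ a ∈ (Finset.univ : Finset c.J).filter (fun a => a.1 = i),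
            ep p (dt a.2.1 (fun k => D.LL v (akR D.toRD0 c b f k))) := by
        refine Finset.prod_congr rfl fun i _ => Finset.prod_congr rfl fun v _ => ?_
        exact (csel_fib c i (fun a => ep p (dt a.2.1
          (fun k => D.LL v (akR D.toRD0 c b f k))))).symm
      rw [h3, csel_inner hp hζ D c b Finset.univ Y f hf hdj, Finset.mul_sum]
      refine Finset.sum_congr rfl fun g hg => ?_
      rw [Finset.mem_filter] at hg
      obtain ⟨-, hg2, hg3⟩ := hg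
      rw [if_pos (Finset.subset_univ _), if_pos ((sl_sp c b g).1 (by rw [hg3]; exact h2)),
        hq g hg2 hg3, one_mul, one_mul]
    · rw [if_neg h2]
      refine (Finset.sum_eq_zero fun g hg => ?_).symm
      rw [Finset.mem_filter] at hg
      obtain ⟨-, hg2, hg3⟩ := hg
      rw [if_neg (fun h4 => h2 (by rw [← hg3]; exact (sl_sp c b g).2 h4)), zero_mul]

theorem mw_rw [NeZero p] (hp : p.Prime) (hζ : IsPrimitiveRoot ζ p) (D : RD K p ζ) (c : CR p m N)
    (b : Fin m → Kˣ) (E : Finset (Pl K)) (ϑ : Fin N → Fin m → ZMod p) (hϑ : ∀ i, ϑ i ∈ c.Θ i)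
    (h : (Fin N → Fin D.r → ZMod p) → ℂ) (Y : ℝ) :
    MW D.toRD0 c b E ϑ h Y =
      RW D.toRD0 c b E (fun S => if S ⊆ Jt c ϑ then 1 else 0) h Y := by
  have key := csel_gen D c b E (fun S => if S ⊆ Jt c ϑ then 1 else 0) h Y
    (fun f => h (fun i => qf D.toRD0 (f i)) *
        (ep p (∑ i, ∑ v ∈ f i, dt (ϑ i) (fun k => D.LL v (akR D.toRD0 c b f k))) *
          ((wtR c.del f (fun v k => D.LL v (b k)) : ℝ) : ℂ))) ?_
  · rw [← key]
    rfl
  · intro f hf hdj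
    have h3 : ep p (∑ i, ∑ v ∈ f i, dt (ϑ i) (fun k => D.LL v (akR D.toRD0 c b f k))) *
          ((wtR c.del f (fun v k => D.LL v (b k)) : ℝ) : ℂ) =
        ∏ i, ∏ v ∈ f i, ∑ a ∈ (Jt c ϑ).filter (fun a => a.1 = i),
            ep p (dt a.2.1 (fun k => D.LL v (akR D.toRD0 c b f k))) := by
      rw [csel_ep_sum hp, csel_wt hp, ← Finset.prod_mul_distrib]
      refine Finset.prod_congr rfl fun i _ => ?_
      rw [csel_ep_sum hp, ← Finset.prod_mul_distrib]
      refine Finset.prod_congr rfl fun v hv => ?_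
      rw [csel_fibJ c ϑ hϑ i (fun x => ep p (dt x (fun k => D.LL v (akR D.toRD0 c b f k)))),
        Finset.mul_sum]
      show ∑ δ : {δ : Fin m → ZMod p // δ ∈ c.Θ i ⊓ c.L0},
        ep p (dt (ϑ i) (fun k => D.LL v (akR D.toRD0 c b f k))) *
          ep p (dt δ.1 (fun k => D.LL v (b k))) = _
      refine Finset.sum_congr rfl fun δ _ => ?_
      rw [aexp_dt_add, ep_add hp]
      have hv0 : v ∉ D.S0 := ((atupa_mem_GF.1 (hf i)).2 v hv).1
      have h4 : dt δ.1 (fun k => D.LL v (akR D.toRD0 c b f k)) =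
          dt δ.1 (fun k => D.LL v (b k)) := by
        unfold dt
        have h5 : ∀ k, δ.1 k * D.LL v (akR D.toRD0 c b f k) = δ.1 k * D.LL v (b k) +
            ∑ j, ∑ w ∈ f j, (δ.1 k * c.x j k) * D.LL v (D.pi w) := by
          intro k
          rw [rx_ak hp hζ D.toRD0 c b f hv0 k, mul_add, Finset.mul_sum]
          congr 1
          refine Finset.sum_congr rfl fun j _ => ?_
          rw [Finset.mul_sum]
          exact Finset.sum_congr rfl fun w _ => (mul_assoc _ _ _).symm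
        rw [Finset.sum_congr rfl fun k _ => h5 k, Finset.sum_add_distrib]
        have h6 : ∑ k, ∑ j, ∑ w ∈ f j, (δ.1 k * c.x j k) * D.LL v (D.pi w) = 0 := by
          rw [Finset.sum_comm]
          refine Finset.sum_eq_zero fun j _ => ?_
          rw [Finset.sum_comm]
          refine Finset.sum_eq_zero fun w _ => ?_
          rw [← Finset.sum_mul]
          have h7 : dt δ.1 (c.x j) = 0 := δ.2.2 j
          have h8 : ∑ k, δ.1 k * c.x j k = 0 := h7
          rw [h8, zero_mul]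
        rw [h6, add_zero]
      rw [h4]
    have hq : ∀ g : c.J → Finset (Pl K), Dj g → unR c g = f →
        clR D.toRD0 c (fun a => qf D.toRD0 (g a)) = fun i => qf D.toRD0 (f i) := by
      intro g hg hgf
      funext i
      rw [← rx_qf D.toRD0 c g hg i, hgf]
    show h (fun i => qf D.toRD0 (f i)) *
        (ep p (∑ i, ∑ v ∈ f i, dt (ϑ i) (fun k => D.LL v (akR D.toRD0 c b f k))) *
          ((wtR c.del f (fun v k => D.LL v (b k)) : ℝ) : ℂ)) = _
    rw [h3, csel_inner hp hζ D c b (Jt c ϑ) Y f hf hdj, Finset.mul_sum]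
    refine Finset.sum_congr rfl fun g hg => ?_
    rw [Finset.mem_filter] at hg
    obtain ⟨-, hg2, hg3⟩ := hg
    rw [hq g hg2 hg3]
    ring

end H38.BB
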