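import Pool.Agent.H38.BB.CBlk
import Pool.Agent.H38.BB.CSel

/-!
# [H38 BB CDEC] reduction to the main terms, 120-180 lines

`dec_full`: if `Sp0 c b` and `S` is full then `SpA c b S` and `S` is contained in exactly one element of `JJ c`.
Proof. Let `Lg ⊆ S` be as in `Full`, `(i, ϑ_i)` the element of `Lg` in the class `i`. `SpA`: let `θ ≠ 0`; if `θ ∈ L0`: `Sp0`; otherwise `θ · x_i ≠ 0` for some `i`, and `Lg` has an element in the class `i`. `ϑ` is unlinked: `lk = 0` on `Lg` (also for `i = j`: `a = a'` is allowed). `S ⊆ Jt c ϑ`: let `a = (j, θ) ∈ S`; for all `i`: `lk (i, ϑ_i) a = ϑ_i · x_j + θ · x_i = 0` and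
`lk (i, ϑ_i) (j, ϑ_j) = ϑ_i · x_j + ϑ_j · x_i = 0`, so `(θ - ϑ_j) · x_i = 0`. Uniqueness: if `S ⊆ Jt c ϑ'` then `ϑ_i - ϑ'_i ∈ L0` for all `i` (apply it to `(i, ϑ_i) ∈ S`), so `Jt c ϑ' = Jt c ϑ` (`L0` is a subspace).
`dec`: apply `blk` to `ω S = ([SpA c b S] - #{T ∈ JJ c : S ⊆ T}) / (1 + #JJ c)`: it is bounded by `1`; it vanishes on the full supports by `dec_full`; if `ω S ≠ 0` then `SpA c b S` or `S ⊆ T` for some `T = Jt c ϑ`. Let `a ≠ a' ∈ S`, `a.1 = a'.1`, `δ = θ a - θ a'` orthogonal to all `x a''`, `a'' ∈ S`; `δ ≠ 0` as `a ≠ a'`. In the first case `SpA` gives `¬ IsPow (b^δ)`. In the second case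
`δ = (θ a - ϑ_i) - (θ a' - ϑ_i) ∈ L0` (`i = a.1 = a'.1`), so `Sp0` gives it. Finally `RW` is linear in `ω`: `SW - ∑_{T ∈ JJ} RW([· ⊆ T]) = (1 + #JJ) RW(ω)` by `sw_rw`.
-/

set_option autoImplicit false

open scoped NumberField
open IsDedekindDomain
open scoped Classical

noncomputable section

namespace H38.BB

open H63.MA

variable {K : Type} [Field K] [NumberField K] {p : ℕ} {ζ : K} {m N : ℕ}

theorem dec_dt_sub (a b x : Fin m → ZMod p) : dt (a - b) x = dt a x - dt b x := by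
  simp only [dt, Pi.sub_apply, sub_mul, Finset.sum_sub_distrib]

theorem dec_mem_L0 (c : CR p m N) (δ : Fin m → ZMod p) :
    δ ∈ c.L0 ↔ ∀ i, dt δ (c.x i) = 0 := Iff.rfl

omit [NumberField K] in
theorem dec_full [NeZero p] (c : CR p m N) (b : Fin m → Kˣ) (h0 : Sp0 c b) (S : Finset c.J)
    (hS : Full c S) : SpA c b S ∧ ((JJ c).filter fun T => S ⊆ T).card = 1 := by
  obtain ⟨Lg, hLS, hcl, hinj, hlk⟩ := hS
  choose A hA hA1 using hcl
  obtain ⟨V, hV⟩ : ∃ V : Fin N → Fin m → ZMod p, ∀ i, V i = (A i).2.1 := ⟨_, fun _ => rfl⟩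
  have hmem : ∀ (a : c.J) (i : Fin N), a.1 = i → a.2.1 ∈ c.Θ i := by
    rintro a i rfl
    exact a.2.2
  have hlk' : ∀ i, ∀ a ∈ S, dt (V i) (c.x a.1) + dt a.2.1 (c.x i) = 0 := by
    intro i a ha
    have h1 := hlk (A i) (hA i) a ha
    have h2 : c.pd.lk (A i) a = dt (A i).2.1 (c.x a.1) + dt a.2.1 (c.x (A i).1) := rfl
    rw [h2, ← hV, hA1 i] at h1
    exact h1
  have hU : Unl c V := by
    refine ⟨fun i => ?_, fun i j => ?_⟩
    · rw [hV]
      exact hmem _ _ (hA1 i)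
    · have h1 := hlk' i (A j) (hLS (hA j))
      rw [← hV, hA1 j] at h1
      exact h1
  have hSJ : S ⊆ Jt c V := by
    intro a ha
    rw [Jt, Finset.mem_filter]
    refine ⟨Finset.mem_univ _, ?_⟩
    rw [dec_mem_L0]
    intro i
    rw [dec_dt_sub]
    have h1 := hlk' i a ha
    have h2 := hU.2 i a.1
    linear_combination h1 - h2
  refine ⟨?_, ?_⟩
  · intro θ hθ0
    by_cases h1 : θ ∈ c.L0
    · exact Or.inr (h0 θ h1 hθ0)
    · left
      rw [dec_mem_L0] at h1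
      push Not at h1
      obtain ⟨i, hi⟩ := h1
      refine ⟨A i, hLS (hA i), ?_⟩
      have h2 : c.pd.x (A i) = c.x i := by
        change c.x (A i).1 = c.x i
        rw [hA1 i]
      rw [h2]
      exact hi
  · rw [Finset.card_eq_one]
    refine ⟨Jt c V, ?_⟩
    ext T
    rw [Finset.mem_filter, Finset.mem_singleton]
    constructor
    · rintro ⟨hT, hST⟩
      rw [JJ, Finset.mem_image] at hT
      obtain ⟨ϑ, hϑ, rfl⟩ := hT
      have h1 : ∀ i, V i - ϑ i ∈ c.L0 := by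
        intro i
        have h2 := hST (hLS (hA i))
        rw [Jt, Finset.mem_filter] at h2
        have h3 := h2.2
        rw [← hV, hA1 i] at h3
        exact h3
      ext a
      rw [Jt, Jt, Finset.mem_filter, Finset.mem_filter]
      constructor
      · rintro ⟨_, h2⟩
        refine ⟨Finset.mem_univ _, ?_⟩
        have h3 := c.L0.sub_mem h2 (h1 a.1)
        have h4 : a.2.1 - ϑ a.1 - (V a.1 - ϑ a.1) = a.2.1 - V a.1 := by abel
        rw [h4] at h3
        exact h3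
      · rintro ⟨_, h2⟩
        refine ⟨Finset.mem_univ _, ?_⟩
        have h3 := c.L0.add_mem h2 (h1 a.1)
        have h4 : a.2.1 - V a.1 + (V a.1 - ϑ a.1) = a.2.1 - ϑ a.1 := by abel
        rw [h4] at h3
        exact h3
    · rintro rfl
      refine ⟨?_, hSJ⟩
      rw [JJ, Finset.mem_image]
      exact ⟨_, Finset.mem_filter.2 ⟨Finset.mem_univ _, hU⟩, rfl⟩

theorem dec_rw_lin [NeZero p] (D : RD0 K p ζ) (c : CR p m N) (b : Fin m → Kˣ)
    (E : Finset (Pl K)) {ι : Type*} (F : Finset ι) (u : Finset c.J → ℂ) (v : ι → Finset c.J → ℂ)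
    (h : (Fin N → Fin D.r → ZMod p) → ℂ) (Y : ℝ) (r : ℂ) (ω : Finset c.J → ℂ)
    (hω : ∀ S, r * ω S = u S - ∑ T ∈ F, v T S) :
    RW D c b E u h Y - ∑ T ∈ F, RW D c b E (v T) h Y = r * RW D c b E ω h Y := by
  unfold RW
  rw [Finset.sum_comm, ← Finset.sum_sub_distrib, Finset.mul_sum]
  refine Finset.sum_congr rfl fun g _ => ?_
  by_cases hg : Dj g ∧ (∀ a, Disjoint (g a) E) ∧ ∏ a, nr (g a) ≤ Y
  · simp only [if_pos hg]
    rw [← Finset.sum_mul, ← sub_mul, ← hω, mul_assoc]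
  · simp only [if_neg hg, Finset.sum_const_zero, sub_zero, mul_zero]

theorem dec [NeZero p] (hp : p.Prime) (hp2 : MOne p K) (hζ : IsPrimitiveRoot ζ p) (D : RD K p ζ)
    (c : CR p m N) (hN : 1 ≤ N) (A : ℕ) :
    ∃ C X₀ : ℝ, 0 < C ∧ 3 ≤ X₀ ∧ ∀ Y : ℝ, X₀ ≤ Y → ∀ (b : Fin m → Kˣ) (E : Finset (Pl K)),
      BS2 D.toRD0 b E → nr E ≤ Real.log Y ^ A → Sp0 c b →
      ∀ h : (Fin N → Fin D.r → ZMod p) → ℝ, (∀ q, |h q| ≤ 1) →
        ‖((SW D.toRD0 c b E h Y : ℝ) : ℂ) -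
          ∑ T ∈ JJ c, RW D.toRD0 c b E (fun S => if S ⊆ T then 1 else 0)
            (fun q => ((h q : ℝ) : ℂ)) Y‖ ≤
          C * Y * Real.log Y ^ (N - 1) * Real.log Y ^ (-(1 / 2) : ℝ) := by
  obtain ⟨C, X₀, hC, hX₀, hblk⟩ := blk hp hp2 hζ D c hN A
  refine ⟨(1 + ((JJ c).card : ℝ)) * C, X₀, by positivity, hX₀, ?_⟩
  intro Y hY b E hb hE h0 h hh
  set M : ℝ := 1 + ((JJ c).card : ℝ) with hM
  have hM0 : 0 < M := by positivity
  have hMc : ((M : ℝ) : ℂ) ≠ 0 := by exact_mod_cast hM0.ne'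
  set ω : Finset c.J → ℂ := fun S => ((if SpA c b S then (1 : ℂ) else 0) -
    ∑ T ∈ JJ c, if S ⊆ T then (1 : ℂ) else 0) / ((M : ℝ) : ℂ) with hω
  have hcard : ∀ S : Finset c.J, ∑ T ∈ JJ c, (if S ⊆ T then (1 : ℂ) else 0) =
      (((JJ c).filter fun T => S ⊆ T).card : ℂ) := by
    intro S
    rw [← Finset.sum_filter, Finset.sum_const, nsmul_eq_mul, mul_one]
  have hlin := dec_rw_lin D.toRD0 c b E (JJ c) (fun S => if SpA c b S then 1 else 0)
    (fun T S => if S ⊆ T then 1 else 0) (fun q => ((h q : ℝ) : ℂ)) Y ((M : ℝ) : ℂ) ω (by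
      intro S
      simp only [hω]
      rw [mul_div_cancel₀ _ hMc])
  rw [sw_rw hp hζ D c b E h Y, hlin, norm_mul, Complex.norm_real, Real.norm_of_nonneg hM0.le]
  have h1 := hblk Y hY b E hb hE ω ?_ ?_ ?_ (fun q => ((h q : ℝ) : ℂ)) ?_
  · calc M * ‖RW D.toRD0 c b E ω (fun q => ((h q : ℝ) : ℂ)) Y‖ ≤
        M * (C * Y * Real.log Y ^ (N - 1) * Real.log Y ^ (-(1 / 2) : ℝ)) :=
          mul_le_mul_of_nonneg_left h1 hM0.le
      _ = _ := by ring
  · intro S
    simp only [hω]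
    rw [norm_div, Complex.norm_real, Real.norm_of_nonneg hM0.le, div_le_one hM0, hcard]
    refine (norm_sub_le _ _).trans ?_
    rw [Complex.norm_natCast, hM]
    refine add_le_add ?_ ?_
    · split_ifs
      · rw [norm_one]
      · rw [norm_zero]
        exact zero_le_one
    · exact_mod_cast Finset.card_le_card (Finset.filter_subset _ _)
  · intro S hS a ha a' ha' h11 hne horth
    have hδ : c.pd.θ a - c.pd.θ a' ≠ 0 := by
      intro h2
      apply hne
      have h3 : a.2.1 = a'.2.1 := sub_eq_zero.1 h2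
      obtain ⟨i, θ⟩ := a
      obtain ⟨i', θ'⟩ := a'
      simp only at h11
      subst h11
      have h4 : θ = θ' := Subtype.ext h3
      rw [h4]
    by_cases h2 : SpA c b S
    · rcases h2 _ hδ with ⟨a'', ha'', h3⟩ | h3
      · exact absurd (horth a'' ha'') h3
      · exact h3
    · by_cases h3 : ∃ T ∈ JJ c, S ⊆ T
      · obtain ⟨T, hT, hST⟩ := h3
        rw [JJ, Finset.mem_image] at hT
        obtain ⟨ϑ, hϑ, rfl⟩ := hT
        apply h0 _ ?_ hδ
        have h4 := hST ha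
        have h5 := hST ha'
        rw [Jt, Finset.mem_filter] at h4 h5
        have h6 := c.L0.sub_mem h4.2 h5.2
        have h7 : a.2.1 - ϑ a.1 - (a'.2.1 - ϑ a'.1) = c.pd.θ a - c.pd.θ a' := by
          change a.2.1 - ϑ a.1 - (a'.2.1 - ϑ a'.1) = a.2.1 - a'.2.1
          have h8 : ϑ a.1 = ϑ a'.1 := congrArg ϑ h11
          rw [h8]
          abel
        rw [h7] at h6
        exact h6
      · exfalso
        apply hS
        simp only [hω]
        rw [if_neg h2, Finset.sum_eq_zero, sub_zero, zero_div]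
        intro T hT
        rw [if_neg (fun h4 => h3 ⟨T, hT, h4⟩)]
  · intro S hS
    obtain ⟨h2, h3⟩ := dec_full c b h0 S hS
    simp only [hω]
    rw [hcard, if_pos h2, h3, Nat.cast_one, sub_self, zero_div]
  · intro q
    rw [Complex.norm_real]
    exact hh q

end H38.BB
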