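import Pool.Agent.H38.BB.CDef
import Pool.Agent.H63.MA.ACntB

/-!
# [H38 BB CHR] upper bound for sums of multiplicative functions, 120-180 lines

`0 ≤ t v ≤ A₀`. `hr`: `∑_{n ∈ GF D Y} ∏_{v ∈ n} t v ≤ C (Y / log Y) exp(∑_{v good, nm v ≤ Y} t v / nm v)` for `Y ≥ 2`, `C` depending only on `K` and `A₀`.

Proof. `F(n) = ∏_{v ∈ n} t v ≥ 0`, `S = ∑_{n ∈ GF Y} F(n)`, `R = ∑_{n ∈ GF Y} F(n) / nr n`.
(1) Chebyshev: `∑_{v good, nm v ≤ z} log (nm v) ≤ C₁ z` for `z ≥ 1` (sum over any finite set of good primes of norm `≤ z`): `nm v = ℓ` is a prime number and `v` lies over `ℓ`; at most `[K:ℚ]` primes `v` over each `ℓ` (`pzb_card_above`, `pzb_below`, `pzb_nm_pow` in `MA/PZb`), and `∑_{ℓ ≤ z} log ℓ = log (primorial ⌊z⌋) ≤ z log 4` (`primorial_le_four_pow`).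
(2) `log Y ∑ F(n) = ∑ F(n) log (nr n) + ∑ F(n) log (Y / nr n) ≤ ∑ F(n) ∑_{v ∈ n} log (nm v) + ∑ F(n) Y / nr n` (`log x ≤ x`). In the first sum put `n = {v} ∪ n'`, `v ∉ n'`: it is `≤ ∑_{n' ∈ GF Y} F(n') ∑_{v good, nm v ≤ Y / nr n'} t v log (nm v) ≤ ∑_{n'} F(n') A₀ C₁ Y / nr n'`
(`nr n = nm v nr n' ≤ Y`; the pairs `(n, v)`, `v ∈ n`, inject into the pairs `(n', v)`, `n' = n.erase v`). So `S log Y ≤ (1 + A₀ C₁) Y R`.
(3) `R ≤ ∏_{v good, nm v ≤ Y} (1 + t v / nm v) ≤ exp(∑ t v / nm v)`: `GF Y` is contained in the powerset of the finite set of the good primes of norm `≤ Y` (`v ∈ n` gives `nm v ≤ nr n ≤ Y`), `Finset.prod_one_add` (or `Finset.prod_add`), `1 + x ≤ exp x`.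
-/

set_option autoImplicit false

open scoped NumberField
open IsDedekindDomain
open scoped Classical

noncomputable section

namespace H38.BB

open H63.MA

/-- the good primes of norm at most `Y` -/
def gdY {K : Type} [Field K] [NumberField K] {p : ℕ} {ζ : K} (D : RD0 K p ζ) (Y : ℝ) :
    Finset (Pl K) := (acntb_fin K Y).toFinset.filter fun v => D.Gd v

theorem chr_mem {K : Type} [Field K] [NumberField K] {p : ℕ} {ζ : K} {D : RD0 K p ζ} {Y : ℝ}
    {v : Pl K} : v ∈ gdY D Y ↔ (nm v : ℝ) ≤ Y ∧ D.Gd v := by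
  unfold gdY
  rw [Finset.mem_filter, Set.Finite.mem_toFinset]
  rfl

theorem chr_mem_GF {K : Type} [Field K] [NumberField K] {p : ℕ} {ζ : K} {D : RD0 K p ζ} {Y : ℝ}
    {n : Finset (Pl K)} : n ∈ GF D Y ↔ nr n ≤ Y ∧ ∀ v ∈ n, D.Gd v := by
  unfold GF
  rw [Finset.mem_filter, mem_AF]

/-- Chebyshev's bound -/
theorem hr_cheb (K : Type) [Field K] [NumberField K] : ∃ C : ℝ, 0 < C ∧ ∀ (p : ℕ) (ζ : K)
    (D : RD0 K p ζ) (z : ℝ), 1 ≤ z → ∑ v ∈ gdY D z, Real.log (nm v) ≤ C * z := by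
  have hl4 : 0 < Real.log 4 := Real.log_pos (by norm_num)
  set d : ℕ := Module.finrank ℤ (𝓞 K) with hd
  refine ⟨(d + 1) * Real.log 4, by positivity, fun p ζ D z hz => ?_⟩
  have hmaps : ∀ v ∈ gdY D z, nm v ∈ (Finset.Ioc 0 ⌊z⌋₊).filter Nat.Prime := by
    intro v hv
    rw [chr_mem] at hv
    rw [Finset.mem_filter, Finset.mem_Ioc]
    exact ⟨⟨hv.2.2.pos, Nat.le_floor hv.1⟩, hv.2.2⟩
  rw [← Finset.sum_fiberwise_of_maps_to hmaps (fun v => Real.log (nm v))]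
  have hth : ∑ l ∈ (Finset.Ioc 0 ⌊z⌋₊).filter Nat.Prime, Real.log l ≤ Real.log 4 * z :=
    Chebyshev.theta_le_log4_mul_x (by linarith)
  calc ∑ l ∈ (Finset.Ioc 0 ⌊z⌋₊).filter Nat.Prime,
        ∑ v ∈ (gdY D z).filter (fun v => nm v = l), Real.log (nm v)
      ≤ ∑ l ∈ (Finset.Ioc 0 ⌊z⌋₊).filter Nat.Prime, (d : ℝ) * Real.log l := by
        refine Finset.sum_le_sum fun l hl => ?_
        rw [Finset.mem_filter, Finset.mem_Ioc] at hl
        have hlp : l.Prime := hl.2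
        have h1 : ∑ v ∈ (gdY D z).filter (fun v => nm v = l), Real.log (nm v) =
            (((gdY D z).filter (fun v => nm v = l)).card : ℝ) * Real.log l := by
          rw [← nsmul_eq_mul, ← Finset.sum_const]
          refine Finset.sum_congr rfl fun v hv => ?_
          rw [(Finset.mem_filter.1 hv).2]
        rw [h1]
        have hlog : 0 ≤ Real.log l := Real.log_nonneg (by exact_mod_cast hlp.one_lt.le)
        refine mul_le_mul_of_nonneg_right ?_ hlog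
        have h2 := pzb_card_above (K := K) hlp ((gdY D z).filter (fun v => nm v = l)) (by
          intro v hv
          have hnm : nm v = l := (Finset.mem_filter.1 hv).2
          obtain ⟨l', hl', ha⟩ := pzb_below v
          obtain ⟨f, hf, hfe⟩ := pzb_nm_pow hl' ha
          have h3 : l' ^ f = l := by rw [← hfe, hnm]
          have h4 : l' ∣ l := by
            rw [← h3]
            exact dvd_pow_self l' (by omega)
          have h5 : l' = l := (Nat.prime_dvd_prime_iff_eq hl' hlp).1 h4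
          rw [← h5]
          exact ha)
        exact_mod_cast h2
    _ = d * ∑ l ∈ (Finset.Ioc 0 ⌊z⌋₊).filter Nat.Prime, Real.log l := by
        rw [Finset.mul_sum]
    _ ≤ d * (Real.log 4 * z) := mul_le_mul_of_nonneg_left hth (Nat.cast_nonneg _)
    _ ≤ (d + 1) * Real.log 4 * z := by
        have : 0 ≤ Real.log 4 * z := by positivity
        nlinarith

section chr

variable {K : Type} [Field K] [NumberField K] {p : ℕ} {ζ : K}

theorem chr_nr_pos (n : Finset (Pl K)) : 0 < nr n := lt_of_lt_of_le one_pos (one_le_nr n)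

theorem chr_erase {n : Finset (Pl K)} {v : Pl K} (hv : v ∈ n) :
    nr n = (nm v : ℝ) * nr (n.erase v) := by
  unfold nr
  exact (Finset.mul_prod_erase n (fun v => (nm v : ℝ)) hv).symm

theorem chr_log (n : Finset (Pl K)) : Real.log (nr n) = ∑ v ∈ n, Real.log (nm v) := by
  unfold nr
  rw [Real.log_prod]
  intro v _
  have := one_lt_nm v
  positivity

/-- the pairs `(n, v)`, `v ∈ n`, inject into the pairs `(n', v)` -/
theorem chr_pairs (D : RD0 K p ζ) (t : Pl K → ℝ) (ht : ∀ v, 0 ≤ t v) (Y : ℝ) :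
    ∑ n ∈ GF D Y, (∏ v ∈ n, t v) * Real.log (nr n) ≤
      ∑ n ∈ GF D Y, (∏ v ∈ n, t v) * ∑ v ∈ gdY D (Y / nr n), t v * Real.log (nm v) := by
  have e1 : ∑ n ∈ GF D Y, (∏ v ∈ n, t v) * Real.log (nr n) =
      ∑ x ∈ (GF D Y).sigma (fun n => n),
        (∏ w ∈ x.1.erase x.2, t w) * (t x.2 * Real.log (nm x.2)) := by
    rw [Finset.sum_sigma]
    refine Finset.sum_congr rfl fun n _ => ?_
    rw [chr_log, Finset.mul_sum]
    refine Finset.sum_congr rfl fun v hv => ?_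
    rw [← Finset.mul_prod_erase n t hv]
    ring
  have e2 : ∑ n ∈ GF D Y, (∏ v ∈ n, t v) * ∑ v ∈ gdY D (Y / nr n), t v * Real.log (nm v) =
      ∑ x ∈ (GF D Y).sigma (fun n => gdY D (Y / nr n)),
        (∏ w ∈ x.1, t w) * (t x.2 * Real.log (nm x.2)) := by
    rw [Finset.sum_sigma]
    refine Finset.sum_congr rfl fun n _ => ?_
    rw [Finset.mul_sum]
  rw [e1, e2]
  set φ : (Σ _ : Finset (Pl K), Pl K) → (Σ _ : Finset (Pl K), Pl K) :=
    fun x => ⟨x.1.erase x.2, x.2⟩ with hφ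
  have hinj : Set.InjOn φ ((GF D Y).sigma (fun n => n) : Finset (Σ _ : Finset (Pl K), Pl K)) := by
    rintro ⟨n, v⟩ hx ⟨n', v'⟩ hx' h
    rw [Finset.mem_coe, Finset.mem_sigma] at hx hx'
    simp only [hφ, Sigma.mk.injEq, heq_eq_eq] at h
    obtain ⟨h1, h2⟩ := h
    subst h2
    have hv : v ∈ n := hx.2
    have hv' : v ∈ n' := hx'.2
    have h3 : n = n' := by
      rw [← Finset.insert_erase hv, h1, Finset.insert_erase hv']
    rw [h3]
  have e3 : ∑ x ∈ (GF D Y).sigma (fun n => n),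
        (∏ w ∈ x.1.erase x.2, t w) * (t x.2 * Real.log (nm x.2)) =
      ∑ y ∈ ((GF D Y).sigma (fun n => n)).image φ,
        (∏ w ∈ y.1, t w) * (t y.2 * Real.log (nm y.2)) := by
    rw [Finset.sum_image hinj]
  rw [e3]
  refine Finset.sum_le_sum_of_subset_of_nonneg ?_ ?_
  · intro y hy
    rw [Finset.mem_image] at hy
    obtain ⟨⟨n, v⟩, hx, rfl⟩ := hy
    rw [Finset.mem_sigma] at hx
    obtain ⟨hn, hv⟩ := hx
    simp only at hn hv
    rw [chr_mem_GF] at hn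
    simp only [hφ]
    rw [Finset.mem_sigma]
    constructor
    · rw [chr_mem_GF]
      exact ⟨(nr_mono (Finset.erase_subset _ _)).trans hn.1,
        fun w hw => hn.2 w (Finset.mem_of_mem_erase hw)⟩
    · rw [chr_mem]
      refine ⟨?_, hn.2 v hv⟩
      rw [le_div_iff₀ (chr_nr_pos _), ← chr_erase hv]
      exact hn.1
  · intro y _ _
    refine mul_nonneg (Finset.prod_nonneg fun w _ => ht w) (mul_nonneg (ht _) ?_)
    exact Real.log_nonneg (by exact_mod_cast (one_lt_nm y.2).le)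

theorem chr_R (D : RD0 K p ζ) (t : Pl K → ℝ) (ht : ∀ v, 0 ≤ t v) (Y : ℝ) :
    ∑ n ∈ GF D Y, (∏ v ∈ n, t v) / nr n ≤ Real.exp (∑ v ∈ gdY D Y, t v / nm v) := by
  have h0 : ∀ v : Pl K, 0 ≤ t v / (nm v : ℝ) := fun v => div_nonneg (ht v) (Nat.cast_nonneg _)
  have hsub : GF D Y ⊆ (gdY D Y).powerset := by
    intro n hn
    rw [chr_mem_GF] at hn
    rw [Finset.mem_powerset]
    intro v hv
    rw [chr_mem]
    refine ⟨?_, hn.2 v hv⟩
    have h1 := nr_mono (Finset.singleton_subset_iff.2 hv)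
    have h2 : nr {v} = (nm v : ℝ) := by
      unfold nr
      rw [Finset.prod_singleton]
    rw [h2] at h1
    exact h1.trans hn.1
  calc ∑ n ∈ GF D Y, (∏ v ∈ n, t v) / nr n
      = ∑ n ∈ GF D Y, ∏ v ∈ n, t v / (nm v : ℝ) := by
        refine Finset.sum_congr rfl fun n _ => ?_
        unfold nr
        rw [Finset.prod_div_distrib]
    _ ≤ ∑ n ∈ (gdY D Y).powerset, ∏ v ∈ n, t v / (nm v : ℝ) :=
        Finset.sum_le_sum_of_subset_of_nonneg hsub
          fun n _ _ => Finset.prod_nonneg fun v _ => h0 v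
    _ = ∏ v ∈ gdY D Y, (1 + t v / (nm v : ℝ)) := (Finset.prod_one_add _).symm
    _ ≤ ∏ v ∈ gdY D Y, Real.exp (t v / (nm v : ℝ)) := by
        refine Finset.prod_le_prod (fun v _ => by have := h0 v; linarith) fun v _ => ?_
        have := Real.add_one_le_exp (t v / (nm v : ℝ))
        linarith
    _ = Real.exp (∑ v ∈ gdY D Y, t v / nm v) := (Real.exp_sum _ _).symm

end chr

theorem hr (K : Type) [Field K] [NumberField K] (A₀ : ℝ) (hA : 0 ≤ A₀) :
    ∃ C : ℝ, 0 < C ∧ ∀ (p : ℕ) (ζ : K) (D : RD0 K p ζ) (t : Pl K → ℝ),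
      (∀ v, 0 ≤ t v ∧ t v ≤ A₀) → ∀ Y : ℝ, 2 ≤ Y →
        ∑ n ∈ GF D Y, ∏ v ∈ n, t v ≤
          C * (Y / Real.log Y) * Real.exp (∑ v ∈ gdY D Y, t v / nm v) := by
  obtain ⟨C₁, hC₁, hch⟩ := hr_cheb K
  refine ⟨1 + A₀ * C₁, by positivity, fun p ζ D t ht Y hY => ?_⟩
  have ht0 : ∀ v, 0 ≤ t v := fun v => (ht v).1
  have hY0 : 0 < Y := by linarith
  have hL : 0 < Real.log Y := Real.log_pos (by linarith)
  have hF : ∀ n : Finset (Pl K), 0 ≤ ∏ v ∈ n, t v := fun n => Finset.prod_nonneg fun v _ => ht0 v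
  have hR := chr_R D t ht0 Y
  have h1 : Real.log Y * ∑ n ∈ GF D Y, ∏ v ∈ n, t v ≤
      ∑ n ∈ GF D Y, (∏ v ∈ n, t v) * Real.log (nr n) +
        Y * ∑ n ∈ GF D Y, (∏ v ∈ n, t v) / nr n := by
    rw [Finset.mul_sum, Finset.mul_sum, ← Finset.sum_add_distrib]
    refine Finset.sum_le_sum fun n _ => ?_
    have hn := chr_nr_pos n
    have h2 : Real.log (Y / nr n) ≤ Y / nr n := by
      have := Real.log_le_sub_one_of_pos (div_pos hY0 hn)
      linarith
    rw [Real.log_div hY0.ne' hn.ne'] at h2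
    have h3 := mul_le_mul_of_nonneg_left h2 (hF n)
    have h4 : Y * ((∏ v ∈ n, t v) / nr n) = (∏ v ∈ n, t v) * (Y / nr n) := by ring
    rw [h4]
    linarith
  have h5 := chr_pairs D t ht0 Y
  have h6 : ∑ n ∈ GF D Y, (∏ v ∈ n, t v) * ∑ v ∈ gdY D (Y / nr n), t v * Real.log (nm v) ≤
      A₀ * C₁ * Y * ∑ n ∈ GF D Y, (∏ v ∈ n, t v) / nr n := by
    rw [Finset.mul_sum]
    refine Finset.sum_le_sum fun n hn => ?_
    have hn0 := chr_nr_pos n
    rw [chr_mem_GF] at hn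
    have hz : 1 ≤ Y / nr n := by
      rw [le_div_iff₀ hn0, one_mul]
      exact hn.1
    have h7 := hch p ζ D (Y / nr n) hz
    have h8 : ∑ v ∈ gdY D (Y / nr n), t v * Real.log (nm v) ≤
        A₀ * ∑ v ∈ gdY D (Y / nr n), Real.log (nm v) := by
      rw [Finset.mul_sum]
      refine Finset.sum_le_sum fun v _ => ?_
      exact mul_le_mul_of_nonneg_right (ht v).2
        (Real.log_nonneg (by exact_mod_cast (one_lt_nm v).le))
    have h9 : ∑ v ∈ gdY D (Y / nr n), t v * Real.log (nm v) ≤ A₀ * (C₁ * (Y / nr n)) :=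
      h8.trans (mul_le_mul_of_nonneg_left h7 hA)
    calc (∏ v ∈ n, t v) * ∑ v ∈ gdY D (Y / nr n), t v * Real.log (nm v)
        ≤ (∏ v ∈ n, t v) * (A₀ * (C₁ * (Y / nr n))) := mul_le_mul_of_nonneg_left h9 (hF n)
      _ = A₀ * C₁ * Y * ((∏ v ∈ n, t v) / nr n) := by ring
  have h10 : Real.log Y * ∑ n ∈ GF D Y, ∏ v ∈ n, t v ≤
      (1 + A₀ * C₁) * Y * Real.exp (∑ v ∈ gdY D Y, t v / nm v) := by
    have h11 : 0 ≤ (1 + A₀ * C₁) * Y := by positivity
    have h12 := mul_le_mul_of_nonneg_left hR h11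
    nlinarith
  calc ∑ n ∈ GF D Y, ∏ v ∈ n, t v
      = (Real.log Y * ∑ n ∈ GF D Y, ∏ v ∈ n, t v) / Real.log Y := by field_simp
    _ ≤ ((1 + A₀ * C₁) * Y * Real.exp (∑ v ∈ gdY D Y, t v / nm v)) / Real.log Y := by
        gcongr
    _ = (1 + A₀ * C₁) * (Y / Real.log Y) * Real.exp (∑ v ∈ gdY D Y, t v / nm v) := by ring

end H38.BB
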