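import Pool.Agent.H38.BB.CHr

/-!
# [H38 BB CMER] from sums over primes to the point `s = 1 + 1/log Y`, 100-150 lines

`0 ≤ t v ≤ A₀`. `mer`: for `Y ≥ 3`, `s = 1 + 1 / log Y` (so `1 < s ≤ 2`): `∑_{v good, nm v ≤ Y} t v / nm v ≤ ∑_{v good} t v (nm v)^{-s} + C`.

Proof. (1) Mertens: `∑_{v good, nm v ≤ Y} log (nm v) / nm v ≤ C₂ log Y` for `Y ≥ 3`. From `hr_cheb` in dyadic blocks: let `2^k ≤ Y < 2^{k+1}`, `k ≤ log Y / log 2`; the `v` with `2^j ≤ nm v < 2^{j+1}` (`nm v ≥ 2`, `1 ≤ j ≤ k`) contribute `≤ 2^{-j} ∑_{nm v ≤ 2^{j+1}} log (nm v) ≤ 2 C₁`. (There is also `mert_log` in `H38/TD/MertB`, which may be used or copied.)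
(2) For `nm v ≤ Y`, `x = log (nm v) / log Y ∈ [0, 1]`: `1/nm v - (nm v)^{-s} = (nm v)^{-1} (1 - e^{-x}) ≤ x / nm v`. So `∑_{nm v ≤ Y} t v (1/nm v - (nm v)^{-s}) ≤ A₀ ∑ log (nm v) / (nm v log Y) ≤ A₀ C₂`.
(3) `∑_{v good, nm v ≤ Y} t v (nm v)^{-s} ≤ ∑_{v good} t v (nm v)^{-s}`: nonnegative terms, summable by `pz_summable` (`Summable.sum_le_tsum`).
-/

set_option autoImplicit false

open scoped NumberField
open IsDedekindDomain
open scoped Classical

noncomputable section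

namespace H38.BB

open H63.MA

theorem mer_mem {K : Type} [Field K] [NumberField K] {p : ℕ} {ζ : K} {D : RD0 K p ζ} {Y : ℝ}
    {v : Pl K} : v ∈ gdY D Y ↔ (nm v : ℝ) ≤ Y ∧ D.Gd v := by
  unfold gdY
  rw [Finset.mem_filter, Set.Finite.mem_toFinset]
  rfl

/-- Mertens' bound -/
theorem mer_log (K : Type) [Field K] [NumberField K] :
    ∃ C : ℝ, 0 < C ∧ ∀ (p : ℕ) (ζ : K) (D : RD0 K p ζ) (Y : ℝ), 3 ≤ Y →
      ∑ v ∈ gdY D Y, Real.log (nm v) / nm v ≤ C * Real.log Y := by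
  obtain ⟨C₁, hC₁, h1⟩ := hr_cheb K
  have hl2 : 0 < Real.log 2 := Real.log_pos (by norm_num)
  refine ⟨2 * C₁ * (1 / Real.log 2 + 1), by positivity, fun p ζ D Y hY => ?_⟩
  have hY0 : 0 < Y := by linarith
  have hlog1 : 1 ≤ Real.log Y := by
    rw [Real.le_log_iff_exp_le hY0]
    linarith [Real.exp_one_lt_d9]
  have hmaps : ∀ v ∈ gdY D Y, Nat.log 2 (nm v) ∈ Finset.range (Nat.log 2 ⌊Y⌋₊ + 1) := by
    intro v hv
    rw [Finset.mem_range]
    have h2 : nm v ≤ ⌊Y⌋₊ := Nat.le_floor (mer_mem.1 hv).1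
    have h3 := Nat.log_mono_right (b := 2) h2
    omega
  rw [← Finset.sum_fiberwise_of_maps_to hmaps]
  have hone : ∀ j ∈ Finset.range (Nat.log 2 ⌊Y⌋₊ + 1),
      ∑ v ∈ (gdY D Y).filter (fun v => Nat.log 2 (nm v) = j), Real.log (nm v) / nm v ≤
        2 * C₁ := by
    intro j _
    have h2 : ∀ v ∈ (gdY D Y).filter (fun v => Nat.log 2 (nm v) = j),
        Real.log (nm v) / nm v ≤ Real.log (nm v) * ((2 : ℝ) ^ j)⁻¹ := by
      intro v hv
      rw [Finset.mem_filter] at hv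
      have h3 : 2 ^ j ≤ nm v := by
        rw [← hv.2]
        exact Nat.pow_log_le_self 2 (by have := one_lt_nm v; omega)
      have h4 : (2 : ℝ) ^ j ≤ nm v := by exact_mod_cast h3
      have h5 : 0 ≤ Real.log (nm v) := Real.log_natCast_nonneg _
      rw [div_eq_mul_inv]
      exact mul_le_mul_of_nonneg_left (inv_anti₀ (by positivity) h4) h5
    refine (Finset.sum_le_sum h2).trans ?_
    rw [← Finset.sum_mul]
    have h3 : ∑ v ∈ (gdY D Y).filter (fun v => Nat.log 2 (nm v) = j), Real.log (nm v) ≤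
        ∑ v ∈ gdY D ((2 : ℝ) ^ (j + 1)), Real.log (nm v) := by
      refine Finset.sum_le_sum_of_subset_of_nonneg ?_ fun v _ _ => Real.log_natCast_nonneg _
      intro v hv
      rw [Finset.mem_filter] at hv
      rw [mer_mem]
      refine ⟨?_, (mer_mem.1 hv.1).2⟩
      have h4 : nm v < 2 ^ (j + 1) := by
        rw [← hv.2]
        exact Nat.lt_pow_succ_log_self (by norm_num) _
      exact_mod_cast h4.le
    have h4 := h1 p ζ D ((2 : ℝ) ^ (j + 1)) (one_le_pow₀ (by norm_num))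
    have h5 : 0 < (2 : ℝ) ^ j := by positivity
    calc (∑ v ∈ (gdY D Y).filter (fun v => Nat.log 2 (nm v) = j), Real.log (nm v)) *
          ((2 : ℝ) ^ j)⁻¹ ≤ (C₁ * (2 : ℝ) ^ (j + 1)) * ((2 : ℝ) ^ j)⁻¹ :=
          mul_le_mul_of_nonneg_right (h3.trans h4) (by positivity)
      _ = 2 * C₁ := by
          rw [pow_succ]
          field_simp
  refine (Finset.sum_le_sum hone).trans ?_
  rw [Finset.sum_const, Finset.card_range, nsmul_eq_mul]
  have h6 : ((Nat.log 2 ⌊Y⌋₊ : ℕ) : ℝ) ≤ Real.log Y / Real.log 2 := by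
    rw [le_div_iff₀ hl2, ← Real.log_pow]
    refine Real.log_le_log (by positivity) ?_
    have h7 : 2 ^ Nat.log 2 ⌊Y⌋₊ ≤ ⌊Y⌋₊ :=
      Nat.pow_log_le_self 2 (by
        have : 1 ≤ ⌊Y⌋₊ := Nat.le_floor (by push_cast; linarith)
        omega)
    calc (2 : ℝ) ^ Nat.log 2 ⌊Y⌋₊ ≤ (⌊Y⌋₊ : ℝ) := by exact_mod_cast h7
      _ ≤ Y := Nat.floor_le hY0.le
  push_cast
  calc ((Nat.log 2 ⌊Y⌋₊ : ℕ) + 1 : ℝ) * (2 * C₁)
      ≤ (Real.log Y / Real.log 2 + Real.log Y) * (2 * C₁) := by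
        refine mul_le_mul_of_nonneg_right ?_ (by positivity)
        linarith
    _ = 2 * C₁ * (1 / Real.log 2 + 1) * Real.log Y := by ring

theorem mer (K : Type) [Field K] [NumberField K] (A₀ : ℝ) (hA : 0 ≤ A₀) :
    ∃ C : ℝ, 0 < C ∧ ∀ (p : ℕ) (ζ : K) (D : RD0 K p ζ) (t : Pl K → ℝ),
      (∀ v, 0 ≤ t v ∧ t v ≤ A₀) → ∀ Y : ℝ, 3 ≤ Y →
        ∑ v ∈ gdY D Y, t v / nm v ≤
          (∑' v : Pl K, if D.Gd v then t v * (nm v : ℝ) ^ (-(1 + 1 / Real.log Y)) else 0) + C := by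
  obtain ⟨C₂, hC₂, h2⟩ := mer_log K
  refine ⟨A₀ * C₂ + 1, by positivity, fun p ζ D t ht Y hY => ?_⟩
  have hY0 : 0 < Y := by linarith
  have hlog1 : 1 ≤ Real.log Y := by
    rw [Real.le_log_iff_exp_le hY0]
    linarith [Real.exp_one_lt_d9]
  have hlog0 : 0 < Real.log Y := by linarith
  have hs : 1 < 1 + 1 / Real.log Y := by
    have : 0 < 1 / Real.log Y := by positivity
    linarith
  have hterm : ∀ v ∈ gdY D Y, t v / nm v ≤
      t v * (nm v : ℝ) ^ (-(1 + 1 / Real.log Y)) +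
        A₀ / Real.log Y * (Real.log (nm v) / nm v) := by
    intro v _
    have hn : (1 : ℝ) < nm v := by exact_mod_cast one_lt_nm v
    have hn0 : (0 : ℝ) < nm v := by linarith
    have hl : 0 ≤ Real.log (nm v) := Real.log_natCast_nonneg _
    have h3 : (nm v : ℝ) ^ (-(1 + 1 / Real.log Y)) =
        (nm v : ℝ)⁻¹ * Real.exp (-(Real.log (nm v) / Real.log Y)) := by
      rw [neg_add, Real.rpow_add hn0, Real.rpow_neg_one, Real.rpow_def_of_pos hn0]
      congr 2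
      ring
    have h4 : 1 - Real.log (nm v) / Real.log Y ≤
        Real.exp (-(Real.log (nm v) / Real.log Y)) := by
      have := Real.add_one_le_exp (-(Real.log (nm v) / Real.log Y))
      linarith
    have h5 : (nm v : ℝ)⁻¹ - (nm v : ℝ)⁻¹ * (Real.log (nm v) / Real.log Y) ≤
        (nm v : ℝ) ^ (-(1 + 1 / Real.log Y)) := by
      rw [h3]
      have := mul_le_mul_of_nonneg_left h4 (inv_nonneg.2 hn0.le)
      linarith
    have h6 := mul_le_mul_of_nonneg_left h5 (ht v).1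
    have h7 : 0 ≤ (nm v : ℝ)⁻¹ * (Real.log (nm v) / Real.log Y) := by positivity
    have h8 := mul_le_mul_of_nonneg_right (ht v).2 h7
    have h9 : A₀ * ((nm v : ℝ)⁻¹ * (Real.log (nm v) / Real.log Y)) =
        A₀ / Real.log Y * (Real.log (nm v) / nm v) := by
      ring
    have h10 : t v / nm v = t v * (nm v : ℝ)⁻¹ := div_eq_mul_inv _ _
    rw [h10, ← h9]
    linarith
  refine (Finset.sum_le_sum hterm).trans ?_
  rw [Finset.sum_add_distrib, ← Finset.mul_sum]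
  have hsum : Summable fun v : Pl K =>
      if D.Gd v then t v * (nm v : ℝ) ^ (-(1 + 1 / Real.log Y)) else 0 := by
    refine Summable.of_nonneg_of_le (fun v => ?_) (fun v => ?_)
      ((pz_summable K hs).mul_left A₀)
    · split_ifs
      · exact mul_nonneg (ht v).1 (Real.rpow_nonneg (Nat.cast_nonneg _) _)
      · exact le_rfl
    · split_ifs
      · exact mul_le_mul_of_nonneg_right (ht v).2 (Real.rpow_nonneg (Nat.cast_nonneg _) _)
      · exact mul_nonneg hA (Real.rpow_nonneg (Nat.cast_nonneg _) _)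
  have h11 : ∑ v ∈ gdY D Y, t v * (nm v : ℝ) ^ (-(1 + 1 / Real.log Y)) ≤
      ∑' v : Pl K, if D.Gd v then t v * (nm v : ℝ) ^ (-(1 + 1 / Real.log Y)) else 0 := by
    have h12 : ∑ v ∈ gdY D Y, t v * (nm v : ℝ) ^ (-(1 + 1 / Real.log Y)) =
        ∑ v ∈ gdY D Y, if D.Gd v then t v * (nm v : ℝ) ^ (-(1 + 1 / Real.log Y)) else 0 :=
      Finset.sum_congr rfl fun v hv => (if_pos (mer_mem.1 hv).2).symm
    rw [h12]
    refine hsum.sum_le_tsum _ fun v _ => ?_
    split_ifs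
    · exact mul_nonneg (ht v).1 (Real.rpow_nonneg (Nat.cast_nonneg _) _)
    · exact le_rfl
  have h13 : A₀ / Real.log Y * ∑ v ∈ gdY D Y, Real.log (nm v) / nm v ≤ A₀ * C₂ := by
    calc A₀ / Real.log Y * ∑ v ∈ gdY D Y, Real.log (nm v) / nm v
        ≤ A₀ / Real.log Y * (C₂ * Real.log Y) :=
          mul_le_mul_of_nonneg_left (h2 p ζ D Y hY) (by positivity)
      _ = A₀ * C₂ := by
          field_simp
  linarith

end H38.BB
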